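import Mathlib

/-!
# Traceless matrices of size two
-/

set_option linter.unusedSectionVars false
set_option linter.unusedSimpArgs false
set_option linter.unreachableTactic false
set_option linter.unusedTactic false

namespace Pool.Agent.TH128.GZ

open Matrix

/-- The complex matrices of size two. -/
abbrev M2 : Type := Matrix (Fin 2) (Fin 2) ℂ

/-- The commutator. -/
def br {A : Type*} [Ring A] (x y : A) : A := x * y - y * x

theorem m2_ext {x y : M2} (h1 : x 0 0 = y 0 0) (h2 : x 0 1 = y 0 1) (h3 : x 1 0 = y 1 0)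
    (h4 : x 1 1 = y 1 1) : x = y := by
  ext i j
  fin_cases i <;> fin_cases j
  · exact h1
  · exact h2
  · exact h3
  · exact h4

theorem m2_mul (x y : M2) (i j : Fin 2) : (x * y) i j = x i 0 * y 0 j + x i 1 * y 1 j := by
  rw [Matrix.mul_apply, Fin.sum_univ_two]

theorem tr_eq (x : M2) : x.trace = x 0 0 + x 1 1 := by
  rw [Matrix.trace, Fin.sum_univ_two]
  rfl

theorem tr_zero {x : M2} (h : x.trace = 0) : x 1 1 = -x 0 0 := by
  rw [tr_eq] at h
  linear_combination h

theorem br_apply (x y : M2) (i j : Fin 2) :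
    (br x y) i j = x i 0 * y 0 j + x i 1 * y 1 j - (y i 0 * x 0 j + y i 1 * x 1 j) := by
  unfold br
  rw [Matrix.sub_apply, m2_mul, m2_mul]

theorem tr_br (x y : M2) : (br x y).trace = 0 := by
  unfold br
  rw [Matrix.trace_sub, Matrix.trace_mul_comm, sub_self]

/-- Three elements of the traceless matrices. -/
theorem span_of_tr {x y z : M2} (hx : x.trace = 0) (hy : y.trace = 0) (hz : z.trace = 0)
    (h : (br x y * z).trace ≠ 0) {s : M2} (hs : s.trace = 0) :
    ∃ a b c : ℂ, s = a • x + b • y + c • z := by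
  have e : (br x y * z).trace = 2 * (x 0 0 * (y 0 1 * z 1 0 - y 1 0 * z 0 1) -
      x 0 1 * (y 0 0 * z 1 0 - y 1 0 * z 0 0) + x 1 0 * (y 0 0 * z 0 1 - y 0 1 * z 0 0)) := by
    rw [tr_eq, m2_mul, m2_mul, br_apply, br_apply, br_apply, br_apply, tr_zero hx, tr_zero hy,
      tr_zero hz]
    ring
  obtain ⟨D, hD⟩ : ∃ D, D = (x 0 0 * (y 0 1 * z 1 0 - y 1 0 * z 0 1) -
      x 0 1 * (y 0 0 * z 1 0 - y 1 0 * z 0 0) + x 1 0 * (y 0 0 * z 0 1 - y 0 1 * z 0 0)) :=
    ⟨_, rfl⟩
  rw [← hD] at e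
  have hD0 : D ≠ 0 := by
    rintro h0
    exact h (by rw [e, h0, mul_zero])
  refine ⟨(s 0 0 * (y 0 1 * z 1 0 - y 1 0 * z 0 1) - s 0 1 * (y 0 0 * z 1 0 - y 1 0 * z 0 0) +
      s 1 0 * (y 0 0 * z 0 1 - y 0 1 * z 0 0)) / D,
    (x 0 0 * (s 0 1 * z 1 0 - s 1 0 * z 0 1) - x 0 1 * (s 0 0 * z 1 0 - s 1 0 * z 0 0) +
      x 1 0 * (s 0 0 * z 0 1 - s 0 1 * z 0 0)) / D,
    (x 0 0 * (y 0 1 * s 1 0 - y 1 0 * s 0 1) - x 0 1 * (y 0 0 * s 1 0 - y 1 0 * s 0 0) +
      x 1 0 * (y 0 0 * s 0 1 - y 0 1 * s 0 0)) / D, ?_⟩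
  apply m2_ext <;> simp only [Matrix.add_apply, Matrix.smul_apply, smul_eq_mul]
  · field_simp
    rw [hD]
    ring
  · field_simp
    rw [hD]
    ring
  · field_simp
    rw [hD]
    ring
  · rw [tr_zero hx, tr_zero hy, tr_zero hz, tr_zero hs]
    field_simp
    rw [hD]
    ring

/-- The traceless matrices form a perfect Lie algebra. -/
theorem sum_br {s : M2} (hs : s.trace = 0) : ∃ a b c d : M2, a.trace = 0 ∧ b.trace = 0 ∧
    c.trace = 0 ∧ d.trace = 0 ∧ s = br a b + br c d := by
  refine ⟨!![0, 1; 0, 0], !![0, 0; s 0 0, 0], !![1, 0; 0, -1], !![0, s 0 1 / 2; -(s 1 0 / 2), 0],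
    ?_, ?_, ?_, ?_, ?_⟩
  · simp [tr_eq]
  · simp [tr_eq]
  · simp [tr_eq]
  · simp [tr_eq]
  · apply m2_ext <;> simp only [Matrix.add_apply, br_apply, Matrix.of_apply, Matrix.cons_val',
      Matrix.cons_val_zero, Matrix.cons_val_one, Matrix.cons_val_fin_one]
    · ring
    · ring
    · ring
    · rw [tr_zero hs]
      ring

/-- The square of a traceless matrix. -/
theorem sq_of_tr {x : M2} (hx : x.trace = 0) : x * x = (-x.det) • (1 : M2) := by
  have h := tr_zero hx
  rw [det_fin_two]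
  apply m2_ext <;> simp only [m2_mul, Matrix.smul_apply, smul_eq_mul, one_apply_eq, h]
  · ring
  · rw [Matrix.one_apply_ne (by decide)]
    ring
  · rw [Matrix.one_apply_ne (by decide)]
    ring
  · ring

/-- The third power of the adjoint action. -/
theorem ad_cube {x : M2} (hx : x.trace = 0) (y : M2) :
    br x (br x (br x y)) = (-(4 * x.det)) • br x y := by
  have h := tr_zero hx
  rw [det_fin_two]
  apply m2_ext <;> simp only [br_apply, Matrix.smul_apply, smul_eq_mul, h] <;> ring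

theorem prop_of_comm {n m : M2} (hn : n.trace = 0) (hm : m.trace = 0) (h0 : n ≠ 0)
    (h : br n m = 0) : ∃ c : ℂ, m = c • n := by
  have h1 : n 0 1 * m 1 0 - m 0 1 * n 1 0 = 0 := by
    have := congrFun (congrFun h 0) 0
    rw [br_apply] at this
    simp only [Matrix.zero_apply] at this
    linear_combination this
  have h2 : n 0 0 * m 0 1 - m 0 0 * n 0 1 = 0 := by
    have := congrFun (congrFun h 0) 1
    rw [br_apply, tr_zero hn, tr_zero hm] at this
    simp only [Matrix.zero_apply] at this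
    linear_combination this / 2
  have h3 : n 0 0 * m 1 0 - m 0 0 * n 1 0 = 0 := by
    have := congrFun (congrFun h 1) 0
    rw [br_apply, tr_zero hn, tr_zero hm] at this
    simp only [Matrix.zero_apply] at this
    linear_combination -this / 2
  by_cases ha : n 0 0 = 0
  · by_cases hb : n 0 1 = 0
    · have hc : n 1 0 ≠ 0 := by
        intro hc
        apply h0
        apply m2_ext
        · exact ha
        · exact hb
        · exact hc
        · rw [tr_zero hn, ha, neg_zero]
          rfl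
      refine ⟨m 1 0 / n 1 0, ?_⟩
      apply m2_ext <;> simp only [Matrix.smul_apply, smul_eq_mul]
      · rw [ha, zero_mul, zero_sub, neg_eq_zero] at h3
        rw [(mul_eq_zero.1 h3).resolve_right hc, ha, mul_zero]
      · rw [hb, zero_mul, zero_sub, neg_eq_zero] at h1
        rw [(mul_eq_zero.1 h1).resolve_right hc, hb, mul_zero]
      · field_simp
      · rw [ha, zero_mul, zero_sub, neg_eq_zero] at h3
        rw [tr_zero hn, tr_zero hm, (mul_eq_zero.1 h3).resolve_right hc, ha]
        ring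
    · refine ⟨m 0 1 / n 0 1, ?_⟩
      apply m2_ext <;> simp only [Matrix.smul_apply, smul_eq_mul]
      · field_simp
        linear_combination -h2
      · field_simp
      · field_simp
        linear_combination h1
      · rw [tr_zero hn, tr_zero hm]
        field_simp
        linear_combination h2
  · refine ⟨m 0 0 / n 0 0, ?_⟩
    apply m2_ext <;> simp only [Matrix.smul_apply, smul_eq_mul]
    · field_simp
    · field_simp
      linear_combination h2
    · field_simp
      linear_combination h3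
    · rw [tr_zero hn, tr_zero hm]
      field_simp

theorem prop_of_nilp {n m : M2} (hn : n.trace = 0) (hm : m.trace = 0) (h0 : n ≠ 0)
    (h1 : (n * n).trace = 0) (h2 : (m * m).trace = 0) (h3 : (n * m).trace = 0) :
    ∃ c : ℂ, m = c • n := by
  refine prop_of_comm hn hm h0 ?_
  rw [tr_eq, m2_mul, m2_mul, tr_zero hn] at h1
  rw [tr_eq, m2_mul, m2_mul, tr_zero hm] at h2
  rw [tr_eq, m2_mul, m2_mul, tr_zero hn, tr_zero hm] at h3
  have e1 : n 0 0 ^ 2 + n 0 1 * n 1 0 = 0 := by linear_combination h1 / 2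
  have e2 : m 0 0 ^ 2 + m 0 1 * m 1 0 = 0 := by linear_combination h2 / 2
  have e3 : 2 * (n 0 0 * m 0 0) + n 0 1 * m 1 0 + n 1 0 * m 0 1 = 0 := by linear_combination h3
  have k1 : n 0 1 * m 1 0 - m 0 1 * n 1 0 = 0 := by
    have : (n 0 1 * m 1 0 - m 0 1 * n 1 0) ^ 2 = 0 := by
      linear_combination (n 0 1 * m 1 0 + n 1 0 * m 0 1 - 2 * (n 0 0 * m 0 0)) * e3 +
        4 * m 0 0 ^ 2 * e1 - 4 * n 0 1 * n 1 0 * e2
    exact pow_eq_zero_iff (two_ne_zero) |>.1 this
  have k2 : n 0 0 * m 0 1 - m 0 0 * n 0 1 = 0 := by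
    have : (n 0 0 * m 0 1 - m 0 0 * n 0 1) ^ 2 = 0 := by
      linear_combination m 0 1 ^ 2 * e1 + n 0 1 ^ 2 * e2 - n 0 1 * m 0 1 * e3
    exact pow_eq_zero_iff (two_ne_zero) |>.1 this
  have k3 : n 0 0 * m 1 0 - m 0 0 * n 1 0 = 0 := by
    have : (n 0 0 * m 1 0 - m 0 0 * n 1 0) ^ 2 = 0 := by
      linear_combination m 1 0 ^ 2 * e1 + n 1 0 ^ 2 * e2 - n 1 0 * m 1 0 * e3
    exact pow_eq_zero_iff (two_ne_zero) |>.1 this
  apply m2_ext <;> simp only [br_apply, Matrix.zero_apply, tr_zero hn, tr_zero hm]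
  · linear_combination k1
  · linear_combination 2 * k2
  · linear_combination -2 * k3
  · linear_combination -k1

theorem scalar_of_comm {m : M2} (h : ∀ x : M2, x.trace = 0 → m * x = x * m) :
    ∃ c : ℂ, m = c • (1 : M2) := by
  have h1 := h !![0, 1; 0, 0] (by simp [tr_eq])
  have h2 := h !![0, 0; 1, 0] (by simp [tr_eq])
  refine ⟨m 0 0, ?_⟩
  have a1 := congrFun (congrFun h1 0) 1
  have a2 := congrFun (congrFun h1 1) 1
  have a3 := congrFun (congrFun h2 1) 1
  simp [m2_mul] at a1 a2 a3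
  apply m2_ext
  · simp
  · rw [← a3]
    simp
  · simp [a2]
  · simp [a1]

/-- The intertwiner of two representations of the same Lie algebra. -/
theorem exists_intertwiner (L : Submodule ℂ (M2 × M2))
    (htr : ∀ x ∈ L, x.1.trace = 0 ∧ x.2.trace = 0) (hlie : ∀ x ∈ L, ∀ y ∈ L, br x y ∈ L)
    (h1 : ∀ s : M2, s.trace = 0 → ∃ t, (s, t) ∈ L) (h2 : ∀ t : M2, t.trace = 0 → ∃ s, (s, t) ∈ L)
    (n1 : ∀ s, (s, 0) ∈ L → s = 0) (n2 : ∀ t, (0, t) ∈ L → t = 0) :
    ∃ n : M2, n ≠ 0 ∧ ∀ x ∈ L, x.1 * n = n * x.2 := by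
  -- uniqueness
  have huniq : ∀ {s s' t : M2}, (s, t) ∈ L → (s', t) ∈ L → s = s' := by
    intro s s' t h h'
    have h3 := L.sub_mem h h'
    rw [Prod.mk_sub_mk, sub_self] at h3
    exact sub_eq_zero.1 (n1 _ h3)
  -- determinants
  have hdet : ∀ {x y : M2}, (x, y) ∈ L → y ≠ 0 → x.det = y.det := by
    intro x y hxy hy
    have hx : x ≠ 0 := by
      rintro rfl
      exact hy (n2 _ hxy)
    obtain ⟨tx, ty⟩ := htr _ hxy
    by_contra hne
    apply hx
    -- all commutators with `x` vanish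
    have h3 : ∀ u : M2, u.trace = 0 → br x u = 0 := by
      intro u hu
      obtain ⟨v, huv⟩ := h1 u hu
      have h4 : br (x, y) (u, v) ∈ L := hlie _ hxy _ huv
      have h5 : br (x, y) (br (x, y) (br (x, y) (u, v))) ∈ L := hlie _ hxy _ (hlie _ hxy _ h4)
      have h6 : br (x, y) (br (x, y) (br (x, y) (u, v))) =
          ((-(4 * x.det)) • br x u, (-(4 * y.det)) • br y v) :=
        Prod.ext (ad_cube tx u) (ad_cube ty v)
      have h7 : (-(4 * y.det)) • br (x, y) (u, v) =
          ((-(4 * y.det)) • br x u, (-(4 * y.det)) • br y v) := rfl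
      have h8 := L.sub_mem h5 (L.smul_mem (-(4 * y.det)) h4)
      rw [h6, h7, Prod.mk_sub_mk, sub_self] at h8
      have h9 := n1 _ h8
      rw [← sub_smul] at h9
      refine (smul_eq_zero.1 h9).resolve_left ?_
      intro h10
      apply hne
      linear_combination -h10 / 4
    obtain ⟨c, hc⟩ := scalar_of_comm (m := x) fun u hu => by
      have := h3 u hu
      unfold br at this
      exact sub_eq_zero.1 this
    rw [hc, Matrix.trace_smul, Matrix.trace_one, Fintype.card_fin, smul_eq_mul] at tx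
    have hc0 : c = 0 := by
      have h11 : c * (2 : ℂ) = 0 := by exact_mod_cast tx
      exact (mul_eq_zero.1 h11).resolve_right two_ne_zero
    rw [hc, hc0, zero_smul]
  -- the triple
  obtain ⟨e, he⟩ : ∃ e : M2, e = !![0, 1; 0, 0] := ⟨_, rfl⟩
  obtain ⟨f, hf⟩ : ∃ f : M2, f = !![0, 0; 1, 0] := ⟨_, rfl⟩
  have te : e.trace = 0 := by rw [he]; simp [tr_eq]
  have tf : f.trace = 0 := by rw [hf]; simp [tr_eq]
  obtain ⟨e', hee⟩ := h2 e te
  obtain ⟨f', hff⟩ := h2 f tf
  have e0 : e ≠ 0 := by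
    intro h
    have := congrFun (congrFun h 0) 1
    rw [he] at this
    simp at this
  have f0 : f ≠ 0 := by
    intro h
    have := congrFun (congrFun h 1) 0
    rw [hf] at this
    simp at this
  have ef0 : e + f ≠ 0 := by
    intro h
    have := congrFun (congrFun h 0) 1
    rw [he, hf] at this
    simp at this
  have de : e'.det = 0 := by
    rw [hdet hee e0, he, det_fin_two]
    simp
  have df : f'.det = 0 := by
    rw [hdet hff f0, hf, det_fin_two]
    simp
  have def' : (e' + f').det = -1 := by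
    have h3 : (e' + f', e + f) ∈ L := L.add_mem hee hff
    rw [hdet h3 ef0, he, hf, det_fin_two]
    simp
  have ee : e' * e' = 0 := by rw [sq_of_tr (htr _ hee).1, de, neg_zero, zero_smul]
  have ff : f' * f' = 0 := by rw [sq_of_tr (htr _ hff).1, df, neg_zero, zero_smul]
  have eff : e' * f' + f' * e' = 1 := by
    have h3 := sq_of_tr (x := e' + f') (by rw [Matrix.trace_add, (htr _ hee).1, (htr _ hff).1,
      add_zero])
    rw [def', neg_neg, one_smul, Matrix.mul_add, Matrix.add_mul, Matrix.add_mul, ee, ff, zero_add,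
      add_zero] at h3
    rw [add_comm]
    exact h3
  have fef : f' * e' * f' = f' := by
    have h3 : f' * e' = 1 - e' * f' := by rw [← eff]; abel
    rw [h3, Matrix.sub_mul, Matrix.one_mul, Matrix.mul_assoc, ff, Matrix.mul_zero, sub_zero]
  have hp : e' * f' ≠ 0 := by
    intro h3
    rw [h3, zero_add] at eff
    have h4 : f' = 0 := by
      rw [← fef, eff, Matrix.one_mul]
      have h5 : f' * (f' * e') = 0 := by rw [← Matrix.mul_assoc, ff, Matrix.zero_mul]
      rwa [eff, Matrix.mul_one] at h5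
    rw [h4] at hff
    exact f0 (n2 _ hff)
  obtain ⟨a, b, hab⟩ : ∃ a b, (e' * f') a b ≠ 0 := by
    by_contra hcon
    push Not at hcon
    exact hp (by
      ext a b
      exact hcon a b)
  -- the intertwiner
  obtain ⟨m, hm⟩ : ∃ m : M2, m = Matrix.single b 0 1 := ⟨_, rfl⟩
  obtain ⟨u, hu⟩ : ∃ u : M2, u = !![1, 0; 0, 0] := ⟨_, rfl⟩
  have uu : u * e = e := by
    rw [hu, he]
    apply m2_ext <;> simp [m2_mul]
  have ue : e * e = 0 := by
    rw [he]
    apply m2_ext <;> simp [m2_mul]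
  have uf : u * f = 0 := by
    rw [hu, hf]
    apply m2_ext <;> simp [m2_mul]
  have ef : e * f = u := by
    rw [hu, he, hf]
    apply m2_ext <;> simp [m2_mul]
  refine ⟨e' * f' * m * u + f' * m * e, ?_, ?_⟩
  · intro h3
    have h4 := congrFun (congrFun h3 a) 0
    have h5 : (e' * f' * m * u) a 0 = (e' * f') a b := by
      rw [m2_mul, hu]
      simp [hm, Matrix.mul_apply, Matrix.single_apply]
    have h6 : (f' * m * e) a 0 = 0 := by
      rw [m2_mul, he]
      simp
    rw [Matrix.add_apply, h5, h6, add_zero] at h4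
    exact hab h4
  · -- the relations
    obtain ⟨n, hn⟩ : ∃ n : M2, n = e' * f' * m * u + f' * m * e := ⟨_, rfl⟩
    rw [← hn]
    have r1 : e' * n = n * e := by
      rw [hn, Matrix.mul_add, Matrix.add_mul]
      have h3 : e' * (e' * f' * m * u) = 0 := by
        rw [← Matrix.mul_assoc, ← Matrix.mul_assoc, ← Matrix.mul_assoc, ee]
        simp
      have h4 : f' * m * e * e = 0 := by rw [Matrix.mul_assoc, ue, Matrix.mul_zero]
      have h5 : e' * f' * m * u * e = e' * (f' * m * e) := by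
        rw [Matrix.mul_assoc, uu]
        simp only [Matrix.mul_assoc]
      rw [h3, h4, h5, zero_add, add_zero]
    have r2 : f' * n = n * f := by
      rw [hn, Matrix.mul_add, Matrix.add_mul]
      have h3 : f' * (e' * f' * m * u) = f' * m * u := by
        rw [← Matrix.mul_assoc, ← Matrix.mul_assoc, ← Matrix.mul_assoc, fef]
      have h4 : f' * (f' * m * e) = 0 := by
        rw [← Matrix.mul_assoc, ← Matrix.mul_assoc, ff]
        simp
      have h5 : e' * f' * m * u * f = 0 := by rw [Matrix.mul_assoc, uf, Matrix.mul_zero]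
      have h6 : f' * m * e * f = f' * m * u := by rw [Matrix.mul_assoc, ef]
      rw [h3, h4, h5, h6, zero_add, add_zero]
    have r3 : br e' f' * n = n * br e f := by
      unfold br
      rw [Matrix.sub_mul, Matrix.mul_sub, Matrix.mul_assoc, Matrix.mul_assoc, r2, r1,
        ← Matrix.mul_assoc, ← Matrix.mul_assoc, r1, r2, Matrix.mul_assoc, Matrix.mul_assoc]
    have hhh : (br e' f', br e f) ∈ L := hlie _ hee _ hff
    rintro ⟨x, y⟩ hxy
    change x * n = n * y
    have hy : y = (y 0 0) • br e f + (y 0 1) • e + (y 1 0) • f := by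
      have ty : y 1 1 = -y 0 0 := tr_zero (htr _ hxy).2
      apply m2_ext
      · rw [he, hf]
        simp [br_apply]
      · rw [he, hf]
        simp [br_apply]
      · rw [he, hf]
        simp [br_apply]
      · rw [ty, he, hf]
        simp [br_apply]
    have h3 : ((y 0 0) • br e' f' + (y 0 1) • e' + (y 1 0) • f', y) ∈ L := by
      have h4 := L.add_mem (L.add_mem (L.smul_mem (y 0 0) hhh) (L.smul_mem (y 0 1) hee))
        (L.smul_mem (y 1 0) hff)
      have h5 : (y 0 0) • (br e' f', br e f) + (y 0 1) • (e', e) + (y 1 0) • (f', f) =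
          ((y 0 0) • br e' f' + (y 0 1) • e' + (y 1 0) • f', y) := by
        refine Prod.ext rfl ?_
        change (y 0 0) • br e f + (y 0 1) • e + (y 1 0) • f = y
        exact hy.symm
      rwa [h5] at h4
    rw [huniq hxy h3]
    conv_rhs => rw [hy]
    simp only [Matrix.add_mul, Matrix.mul_add, Matrix.smul_mul, Matrix.mul_smul, r1, r2, r3]

/-- An intertwiner is invertible. -/
theorem det_ne_of_intertwiner {L : Submodule ℂ (M2 × M2)} {n : M2} (hn : n ≠ 0)
    (h : ∀ x ∈ L, x.1 * n = n * x.2) (h2 : ∀ t : M2, t.trace = 0 → ∃ s, (s, t) ∈ L) :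
    n.det ≠ 0 := by
  intro h0
  -- the kernel
  obtain ⟨v, hv, hnv⟩ := Matrix.exists_mulVec_eq_zero_iff.2 h0
  have h3 : ∀ t : M2, t.trace = 0 → n *ᵥ (t *ᵥ v) = 0 := by
    intro t ht
    obtain ⟨s, hs⟩ := h2 t ht
    rw [Matrix.mulVec_mulVec, ← h _ hs]
    change (s * n) *ᵥ v = 0
    rw [← Matrix.mulVec_mulVec, hnv, Matrix.mulVec_zero]
  apply hn
  have h4 := h3 !![0, 1; 0, 0] (by simp [tr_eq])
  have h5 := h3 !![0, 0; 1, 0] (by simp [tr_eq])
  have k1 : v 1 * n 0 0 = 0 ∧ v 1 * n 1 0 = 0 := by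
    have a := congrFun h4 0
    have b := congrFun h4 1
    simp [Matrix.mulVec, dotProduct, Fin.sum_univ_two] at a b
    refine ⟨?_, ?_⟩
    · rcases a with a | a <;> rw [a] <;> ring
    · rcases b with a | a <;> rw [a] <;> ring
  have k2 : v 0 * n 0 1 = 0 ∧ v 0 * n 1 1 = 0 := by
    have a := congrFun h5 0
    have b := congrFun h5 1
    simp [Matrix.mulVec, dotProduct, Fin.sum_univ_two] at a b
    refine ⟨?_, ?_⟩
    · rcases a with a | a <;> rw [a] <;> ring
    · rcases b with a | a <;> rw [a] <;> ring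
  have k3 : n 0 0 * v 0 + n 0 1 * v 1 = 0 := by
    have := congrFun hnv 0
    simpa [Matrix.mulVec, dotProduct, Fin.sum_univ_two] using this
  have k4 : n 1 0 * v 0 + n 1 1 * v 1 = 0 := by
    have := congrFun hnv 1
    simpa [Matrix.mulVec, dotProduct, Fin.sum_univ_two] using this
  by_cases hv0 : v 0 = 0
  · have hv1 : v 1 ≠ 0 := by
      intro hv1
      apply hv
      funext i
      fin_cases i
      · exact hv0
      · exact hv1
    rw [hv0, mul_zero, zero_add] at k3 k4
    apply m2_ext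
    · exact (mul_eq_zero.1 k1.1).resolve_left hv1
    · exact (mul_eq_zero.1 k3).resolve_right hv1
    · exact (mul_eq_zero.1 k1.2).resolve_left hv1
    · exact (mul_eq_zero.1 k4).resolve_right hv1
  · have a1 : n 0 1 = 0 := (mul_eq_zero.1 k2.1).resolve_left hv0
    have a2 : n 1 1 = 0 := (mul_eq_zero.1 k2.2).resolve_left hv0
    rw [a1, zero_mul, add_zero] at k3
    rw [a2, zero_mul, add_zero] at k4
    apply m2_ext
    · exact (mul_eq_zero.1 k3).resolve_right hv0
    · exact a1
    · exact (mul_eq_zero.1 k4).resolve_right hv0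
    · exact a2

/-- Two intertwiners are proportional. -/
theorem prop_of_intertwiner {L : Submodule ℂ (M2 × M2)} {n m : M2} (hn : n ≠ 0)
    (h : ∀ x ∈ L, x.1 * n = n * x.2) (h' : ∀ x ∈ L, x.1 * m = m * x.2)
    (h2 : ∀ t : M2, t.trace = 0 → ∃ s, (s, t) ∈ L) : ∃ c : ℂ, m = c • n := by
  have hd := det_ne_of_intertwiner hn h h2
  have hu : IsUnit n.det := isUnit_iff_ne_zero.2 hd
  obtain ⟨c, hc⟩ := scalar_of_comm (m := n⁻¹ * m) fun x hx => by
    obtain ⟨s, hs⟩ := h2 x hx
    have a := h _ hs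
    have b := h' _ hs
    change s * n = n * x at a
    change s * m = m * x at b
    have e1 : n⁻¹ * s = x * n⁻¹ := by
      calc n⁻¹ * s = n⁻¹ * s * (n * n⁻¹) := by rw [Matrix.mul_nonsing_inv _ hu, Matrix.mul_one]
        _ = n⁻¹ * (s * n) * n⁻¹ := by simp only [Matrix.mul_assoc]
        _ = (n⁻¹ * n) * x * n⁻¹ := by rw [a]; simp only [Matrix.mul_assoc]
        _ = x * n⁻¹ := by rw [Matrix.nonsing_inv_mul _ hu, Matrix.one_mul]
    rw [Matrix.mul_assoc, ← b, ← Matrix.mul_assoc, e1, Matrix.mul_assoc]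
  refine ⟨c, ?_⟩
  calc m = n * (n⁻¹ * m) := by rw [← Matrix.mul_assoc, Matrix.mul_nonsing_inv _ hu, Matrix.one_mul]
    _ = c • n := by rw [hc, Matrix.mul_smul, Matrix.mul_one]

end Pool.Agent.TH128.GZ
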