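import Mathlib
import Pool.Agent.TH128.GZ.Sl2

/-!
# Linear independence of periods
-/

set_option linter.unusedSectionVars false

namespace Pool.Agent.TH128.GZ

open Matrix

/-- A matrix with algebraic entries. -/
def Alg {α β : Type*} (M : Matrix α β ℂ) : Prop := ∀ a b, IsAlgebraic ℚ (M a b)

/-- The entries are linearly independent over the algebraic numbers. -/
def Indep1 (P : M2) : Prop := ∀ c : M2, Alg c → ∑ a, ∑ b, c a b * P a b = 0 → c = 0

/-- The entries of two matrices are linearly independent over the algebraic numbers. -/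
def Indep2 (P Q : M2) : Prop := ∀ c d : M2, Alg c → Alg d →
  ∑ a, ∑ b, c a b * P a b + ∑ a, ∑ b, d a b * Q a b = 0 → c = 0 ∧ d = 0

theorem alg_single {x : ℂ} (hx : IsAlgebraic ℚ x) (i j : Fin 2) : Alg (Matrix.single i j x) := by
  intro a b
  rw [Matrix.single_apply]
  split_ifs
  · exact hx
  · exact isAlgebraic_zero

theorem alg_add {c d : M2} (hc : Alg c) (hd : Alg d) : Alg (c + d) := fun a b => by
  rw [Matrix.add_apply]
  exact (hc a b).add (hd a b)

theorem alg_sub {c d : M2} (hc : Alg c) (hd : Alg d) : Alg (c - d) := fun a b => by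
  rw [Matrix.sub_apply]
  exact (hc a b).sub (hd a b)

theorem alg_of {f : Fin 2 → Fin 2 → ℂ} (h : ∀ a b, IsAlgebraic ℚ (f a b)) :
    Alg (Matrix.of f : M2) := h

theorem alg_det {N : M2} (h : Alg N) : IsAlgebraic ℚ N.det := by
  rw [det_fin_two]
  exact ((h 0 0).mul (h 1 1)).sub ((h 0 1).mul (h 1 0))

theorem alg_of_sq {α x y : ℂ} (hx : IsAlgebraic ℚ x) (hy : IsAlgebraic ℚ y) (hx0 : x ≠ 0)
    (h : α ^ 2 * x = y) : IsAlgebraic ℚ α := by
  have h1 : α ^ 2 = y * x⁻¹ := by
    rw [← h]
    field_simp
  have h2 : IsAlgebraic ℚ (α ^ 2) := by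
    rw [h1]
    exact hy.mul hx.inv
  exact h2.of_pow two_pos

/-- There is no line of traceless endomorphisms. -/
theorem line_false {P : M2} (hP : Indep1 P) (hd : P.det ≠ 0) {N N' : M2} (hN : Alg N)
    (hN' : Alg N') (ht : N.trace = 0) (h0 : N ≠ 0) {α : ℂ} (hα : α ≠ 0)
    (h : α • (P * N) = N' * P) : False := by
  have hdet : α ^ 2 * N.det = N'.det := by
    have h1 : (α • (P * N)).det = (N' * P).det := by rw [h]
    rw [Matrix.det_smul, Matrix.det_mul, Matrix.det_mul, Fintype.card_fin] at h1
    have h2 : P.det * (α ^ 2 * N.det - N'.det) = 0 := by linear_combination h1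
    exact sub_eq_zero.1 ((mul_eq_zero.1 h2).resolve_left hd)
  by_cases hn : N.det = 0
  · -- nilpotent
    have hNN : N * N = 0 := by rw [sq_of_tr ht, hn, neg_zero, zero_smul]
    obtain ⟨y, z, hyz⟩ : ∃ y z, N y z ≠ 0 := by
      by_contra hcon
      push Not at hcon
      exact h0 (by
        ext a b
        exact hcon a b)
    have hN'0 : N' ≠ 0 := by
      intro h1
      rw [h1, Matrix.zero_mul, smul_eq_zero] at h
      have h2 : P * N = 0 := h.resolve_left hα
      have h3 : N = 0 := by
        have h4 : P⁻¹ * (P * N) = 0 := by rw [h2, Matrix.mul_zero]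
        rwa [← Matrix.mul_assoc, Matrix.nonsing_inv_mul _ (isUnit_iff_ne_zero.2 hd),
          Matrix.one_mul] at h4
      exact h0 h3
    obtain ⟨a, x, hax⟩ : ∃ a x, N' a x ≠ 0 := by
      by_contra hcon
      push Not at hcon
      exact hN'0 (by
        ext a b
        exact hcon a b)
    have h1 : N' * P * N = 0 := by
      rw [← h, Matrix.smul_mul, Matrix.mul_assoc, hNN, Matrix.mul_zero, smul_zero]
    have h2 := congrFun (congrFun h1 a) z
    rw [m2_mul, m2_mul, m2_mul, Matrix.zero_apply] at h2
    have h3 := hP (Matrix.of fun i j => N' a i * N j z)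
      (fun i j => (hN' a i).mul (hN j z)) (by
        simp only [Fin.sum_univ_two, Matrix.of_apply]
        linear_combination h2)
    have h4 := congrFun (congrFun h3 x) y
    rw [Matrix.of_apply, Matrix.zero_apply] at h4
    exact (mul_ne_zero hax hyz) h4
  · have hαalg : IsAlgebraic ℚ α := alg_of_sq (alg_det hN) (alg_det hN') hn hdet
    have h1 := congrFun (congrFun h 0) 0
    have h2 := congrFun (congrFun h 0) 1
    rw [Matrix.smul_apply, m2_mul, m2_mul, smul_eq_mul] at h1 h2
    have k1 := hP !![α * N 0 0 - N' 0 0, α * N 1 0; -N' 0 1, 0] (by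
      intro i j
      fin_cases i <;> fin_cases j
      · exact (hαalg.mul (hN 0 0)).sub (hN' 0 0)
      · exact hαalg.mul (hN 1 0)
      · exact (hN' 0 1).neg
      · exact isAlgebraic_zero) (by
      simp only [Fin.sum_univ_two, Matrix.of_apply, Matrix.cons_val', Matrix.cons_val_zero,
        Matrix.cons_val_one, Matrix.cons_val_fin_one]
      linear_combination h1)
    have k2 := hP !![α * N 0 1, α * N 1 1 - N' 0 0; 0, -N' 0 1] (by
      intro i j
      fin_cases i <;> fin_cases j
      · exact hαalg.mul (hN 0 1)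
      · exact (hαalg.mul (hN 1 1)).sub (hN' 0 0)
      · exact isAlgebraic_zero
      · exact (hN' 0 1).neg) (by
      simp only [Fin.sum_univ_two, Matrix.of_apply, Matrix.cons_val', Matrix.cons_val_zero,
        Matrix.cons_val_one, Matrix.cons_val_fin_one]
      linear_combination h2)
    have e1 : α * N 0 0 - N' 0 0 = 0 := congrFun (congrFun k1 0) 0
    have e2 : α * N 1 0 = 0 := congrFun (congrFun k1 0) 1
    have e3 : α * N 0 1 = 0 := congrFun (congrFun k2 0) 0
    have e4 : α * N 1 1 - N' 0 0 = 0 := congrFun (congrFun k2 0) 1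
    have e5 := tr_zero ht
    rw [e5] at e4
    have e6 : α * N 0 0 = 0 := by linear_combination (e1 - e4) / 2
    have f1 := (mul_eq_zero.1 e6).resolve_left hα
    apply h0
    apply m2_ext
    · exact f1
    · exact (mul_eq_zero.1 e3).resolve_left hα
    · exact (mul_eq_zero.1 e2).resolve_left hα
    · rw [e5, f1, neg_zero]
      rfl

/-- There are no isomorphisms up to a factor. -/
theorem pair_false {P Q : M2} (hP : Indep2 P Q) (hd : P.det = Q.det) (hd0 : P.det ≠ 0) {N M : M2}
    (hN : Alg N) (hM : Alg M) (h0 : N.det ≠ 0) {c : ℂ} (hc : c ≠ 0) (h : c • (P * N) = M * Q) :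
    False := by
  have hdet : c ^ 2 * N.det = M.det := by
    have h1 : (c • (P * N)).det = (M * Q).det := by rw [h]
    rw [Matrix.det_smul, Matrix.det_mul, Matrix.det_mul, Fintype.card_fin, ← hd] at h1
    have h2 : P.det * (c ^ 2 * N.det - M.det) = 0 := by linear_combination h1
    exact sub_eq_zero.1 ((mul_eq_zero.1 h2).resolve_left hd0)
  have hcalg : IsAlgebraic ℚ c := alg_of_sq (alg_det hN) (alg_det hM) h0 hdet
  have key : ∀ z, N 0 z = 0 ∧ N 1 z = 0 := by
    intro z
    have h1 := congrFun (congrFun h 0) z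
    rw [Matrix.smul_apply, m2_mul, m2_mul, smul_eq_mul] at h1
    have k1 := hP !![c * N 0 z, c * N 1 z; 0, 0]
      (-(Matrix.of fun i j => if j = z then M 0 i else 0)) (by
      intro i j
      fin_cases i <;> fin_cases j
      · exact hcalg.mul (hN 0 z)
      · exact hcalg.mul (hN 1 z)
      · exact isAlgebraic_zero
      · exact isAlgebraic_zero) (by
      intro i j
      rw [Matrix.neg_apply, Matrix.of_apply]
      refine IsAlgebraic.neg ?_
      split_ifs
      · exact hM _ _
      · exact isAlgebraic_zero) (by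
      have h3 : ∀ i, ∑ j, (-(Matrix.of fun i j => if j = z then M 0 i else 0) : M2) i j * Q i j =
          -(M 0 i * Q i z) := by
        intro i
        rw [Finset.sum_eq_single z]
        · rw [Matrix.neg_apply, Matrix.of_apply, if_pos rfl, neg_mul]
        · intro j _ hj
          rw [Matrix.neg_apply, Matrix.of_apply, if_neg hj, neg_zero, zero_mul]
        · intro h
          exact absurd (Finset.mem_univ _) h
      rw [Finset.sum_congr rfl (fun i _ => h3 i)]
      simp only [Fin.sum_univ_two, Matrix.of_apply, Matrix.cons_val', Matrix.cons_val_zero,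
        Matrix.cons_val_one, Matrix.cons_val_fin_one]
      linear_combination h1)
    have e1 : c * N 0 z = 0 := congrFun (congrFun k1.1 0) 0
    have e2 : c * N 1 z = 0 := congrFun (congrFun k1.1 0) 1
    exact ⟨(mul_eq_zero.1 e1).resolve_left hc, (mul_eq_zero.1 e2).resolve_left hc⟩
  apply h0
  rw [det_fin_two, (key 0).1, (key 1).1]
  ring

end Pool.Agent.TH128.GZ
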