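import Mathlib
import Pool.Agent.TH119.DR.Rat
import Pool.Agent.TH128.GZ.Tr

/-!
# Lie subalgebras defined over the algebraic numbers on both sides
-/

set_option linter.unusedSectionVars false

namespace Pool.Agent.TH128.GZ

open Matrix Pool.Agent.TH119.DR

variable {F K : Subfield ℂ}

/-- A linear form with values in the subfield which does not kill a matrix. -/
theorem exists_map_ne {α β : Type*} (K : Subfield ℂ) {M : Matrix α β ℂ} (hM : M ≠ 0) :
    ∃ f : ℂ →ₗ[K] ℂ, (∀ z, f z ∈ K) ∧ M.map f ≠ 0 := by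
  obtain ⟨a, b, hab⟩ : ∃ a b, M a b ≠ 0 := by
    by_contra hcon
    push Not at hcon
    exact hM (by
      ext a b
      exact hcon a b)
  obtain ⟨J, t, e, f, hf, hz⟩ := exists_coords K {M a b}
  obtain ⟨j, hj⟩ : ∃ j, f j (M a b) ≠ 0 := by
    by_contra hcon
    push Not at hcon
    apply hab
    rw [hz _ (Finset.mem_singleton_self _)]
    exact Finset.sum_eq_zero fun j _ => by rw [hcon, mul_zero]
  refine ⟨f j, hf j, fun h => hj ?_⟩
  have := congrFun (congrFun h a) b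
  rwa [Matrix.map_apply, Matrix.zero_apply] at this

theorem map_mul_left {f : ℂ →ₗ[K] ℂ} {x y : M2} (hx : ∀ a b, x a b ∈ K) :
    x * y.map f = (x * y).map f := by
  ext a b
  rw [Matrix.map_apply, m2_mul, m2_mul, map_add, lin_mul f (hx _ _), lin_mul f (hx _ _),
    Matrix.map_apply, Matrix.map_apply]

theorem map_mul_right {f : ℂ →ₗ[K] ℂ} {x y : M2} (hy : ∀ a b, y a b ∈ K) :
    x.map f * y = (x * y).map f := by
  ext a b
  rw [Matrix.map_apply, m2_mul, m2_mul, map_add, lin_mul' f (hy _ _), lin_mul' f (hy _ _),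
    Matrix.map_apply, Matrix.map_apply]

theorem tr_map (f : ℂ →ₗ[K] ℂ) (x : M2) : (x.map f).trace = f x.trace := by
  rw [tr_eq, tr_eq, map_add]
  rfl

/-- Coordinates for pairs. -/
theorem pair_coords (L : Submodule ℂ (M2 × M2))
    (h : ∀ (f : ℂ →ₗ[K] ℂ), ∀ x ∈ L, (x.1.map f, x.2.map f) ∈ L) {x : M2 × M2} (hx : x ∈ L) :
    x ∈ Submodule.span ℂ {y | y ∈ L ∧ (∀ a b, y.1 a b ∈ K) ∧ ∀ a b, y.2 a b ∈ K} := by
  classical
  obtain ⟨J, s, e, f, hf, hz⟩ := exists_coords K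
    ((Finset.univ.image fun p : Fin 2 × Fin 2 => x.1 p.1 p.2) ∪
      (Finset.univ.image fun p : Fin 2 × Fin 2 => x.2 p.1 p.2))
  have h1 : x = ∑ j ∈ s, e j • (x.1.map (f j), x.2.map (f j)) := by
    refine Prod.ext ?_ ?_
    · rw [Prod.fst_sum]
      ext a b
      rw [Matrix.sum_apply]
      exact hz (x.1 a b) (Finset.mem_union_left _ (Finset.mem_image_of_mem
        (fun p : Fin 2 × Fin 2 => x.1 p.1 p.2) (Finset.mem_univ (a, b))))
    · rw [Prod.snd_sum]
      ext a b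
      rw [Matrix.sum_apply]
      exact hz (x.2 a b) (Finset.mem_union_right _ (Finset.mem_image_of_mem
        (fun p : Fin 2 × Fin 2 => x.2 p.1 p.2) (Finset.mem_univ (a, b))))
  rw [h1]
  exact Submodule.sum_mem _ fun j _ => Submodule.smul_mem _ _
    (Submodule.subset_span ⟨h (f j) x hx, fun a b => hf j _, fun a b => hf j _⟩)

/-- Conjugation. -/
noncomputable def cj (P : M2) : M2 →ₗ[ℂ] M2 where
  toFun y := P⁻¹ * y * P
  map_add' x y := by rw [Matrix.mul_add, Matrix.add_mul]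
  map_smul' c x := by
    rw [Matrix.mul_smul, Matrix.smul_mul]
    rfl

theorem cj_apply (P y : M2) : cj P y = P⁻¹ * y * P := rfl

theorem cj_inv {P : M2} (hd : P.det ≠ 0) (x : M2) : cj P (P * x * P⁻¹) = x := by
  have hu : IsUnit P.det := isUnit_iff_ne_zero.2 hd
  rw [cj_apply]
  simp only [Matrix.mul_assoc]
  rw [Matrix.nonsing_inv_mul _ hu, Matrix.mul_one, ← Matrix.mul_assoc,
    Matrix.nonsing_inv_mul _ hu, Matrix.one_mul]

theorem inv_cj {P : M2} (hd : P.det ≠ 0) (y : M2) : P * cj P y * P⁻¹ = y := by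
  have hu : IsUnit P.det := isUnit_iff_ne_zero.2 hd
  rw [cj_apply]
  simp only [Matrix.mul_assoc]
  rw [Matrix.mul_nonsing_inv _ hu, Matrix.mul_one, ← Matrix.mul_assoc,
    Matrix.mul_nonsing_inv _ hu, Matrix.one_mul]

theorem cj_mul {P : M2} (hd : P.det ≠ 0) (x y : M2) : cj P (x * y) = cj P x * cj P y := by
  have hu : IsUnit P.det := isUnit_iff_ne_zero.2 hd
  rw [cj_apply, cj_apply, cj_apply]
  have : P⁻¹ * x * P * (P⁻¹ * y * P) = P⁻¹ * x * (P * P⁻¹) * y * P := by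
    simp only [Matrix.mul_assoc]
  rw [this, Matrix.mul_nonsing_inv _ hu, Matrix.mul_one]
  simp only [Matrix.mul_assoc]

theorem tr_cj {P : M2} (hd : P.det ≠ 0) (x : M2) : (cj P x).trace = x.trace := by
  have hu : IsUnit P.det := isUnit_iff_ne_zero.2 hd
  rw [cj_apply, Matrix.trace_mul_comm, ← Matrix.mul_assoc, Matrix.mul_nonsing_inv _ hu,
    Matrix.one_mul]

/-- Lie subalgebras of the traceless matrices which are defined over `F` on the Betti side and over
`K` on the de Rham side. -/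
structure Sub1 (F K : Subfield ℂ) (P : M2) (L : Submodule ℂ M2) : Prop where
  tr : ∀ x ∈ L, x.trace = 0
  lie : ∀ x ∈ L, ∀ y ∈ L, br x y ∈ L
  betti : ∀ f : ℂ →ₗ[F] ℂ, ∀ x ∈ L, x.map f ∈ L
  dr : ∀ f : ℂ →ₗ[K] ℂ, ∀ y, cj P y ∈ L → cj P (y.map f) ∈ L

/-- No lines. -/
theorem sub_line_false (hF : ∀ x ∈ F, IsAlgebraic ℚ x) (hK : ∀ x ∈ K, IsAlgebraic ℚ x) {P : M2}
    (hP : Indep1 P) (hd : P.det ≠ 0) {L : Submodule ℂ M2} (tr : ∀ x ∈ L, x.trace = 0)
    (betti : ∀ f : ℂ →ₗ[F] ℂ, ∀ x ∈ L, x.map f ∈ L)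
    (dr : ∀ f : ℂ →ₗ[K] ℂ, ∀ y, cj P y ∈ L → cj P (y.map f) ∈ L)
    {x₀ : M2} (hx₀ : x₀ ∈ L) (h0 : x₀ ≠ 0) (hprop : ∀ x ∈ L, ∀ y ∈ L, x ≠ 0 → ∃ c : ℂ, y = c • x) :
    False := by
  -- a rational element
  obtain ⟨f, hf, hfx⟩ := exists_map_ne F h0
  have hN : x₀.map f ∈ L := betti f x₀ hx₀
  obtain ⟨N, hNdef⟩ : ∃ N, N = x₀.map f := ⟨_, rfl⟩
  rw [← hNdef] at hN hfx
  have hNF : ∀ a b, N a b ∈ F := fun a b => by
    rw [hNdef]
    exact hf _
  have hu : IsUnit P.det := isUnit_iff_ne_zero.2 hd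
  -- the other side
  have hM0 : P * N * P⁻¹ ≠ 0 := by
    intro h
    apply hfx
    rw [← cj_inv hd N, h, map_zero]
  obtain ⟨g, hg, hgM⟩ := exists_map_ne K hM0
  have h1 : cj P ((P * N * P⁻¹).map g) ∈ L := dr g _ (by rwa [cj_inv hd])
  obtain ⟨c, hc⟩ := hprop N hN _ h1 hfx
  have hc0 : c ≠ 0 := by
    rintro rfl
    rw [zero_smul] at hc
    apply hgM
    rw [← inv_cj hd ((P * N * P⁻¹).map g), hc, Matrix.mul_zero, Matrix.zero_mul]
  refine line_false hP hd (N := N) (N' := (P * N * P⁻¹).map g) (fun a b => hF _ (hNF a b))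
    (fun a b => hK _ (hg _)) (tr N hN) hfx hc0 ?_
  calc c • (P * N) = P * (c • N) := (Matrix.mul_smul _ _ _).symm
    _ = P * cj P ((P * N * P⁻¹).map g) := by rw [hc]
    _ = (P * cj P ((P * N * P⁻¹).map g) * P⁻¹) * P := by
      rw [Matrix.mul_assoc (P * _), Matrix.nonsing_inv_mul _ hu, Matrix.mul_one]
    _ = (P * N * P⁻¹).map g * P := by rw [inv_cj hd]

/-- The traceless matrices have no Lie subalgebra defined over the algebraic numbers on both
sides. -/
theorem sub1_top (hF : ∀ x ∈ F, IsAlgebraic ℚ x) (hK : ∀ x ∈ K, IsAlgebraic ℚ x) {P : M2}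
    (hP : Indep1 P) (hd : P.det ≠ 0) {L : Submodule ℂ M2} (h : Sub1 F K P L) {x₀ : M2}
    (hx₀ : x₀ ∈ L) (h0 : x₀ ≠ 0) {s : M2} (hs : s.trace = 0) : s ∈ L := by
  by_contra hsL
  -- the trace form
  have ha : ∀ x ∈ L, ∀ y ∈ L, ∀ z ∈ L, (br x y * z).trace = 0 := by
    intro x hx y hy z hz
    by_contra hne
    obtain ⟨a, b, c, rfl⟩ := span_of_tr (h.tr x hx) (h.tr y hy) (h.tr z hz) hne hs
    exact hsL (L.add_mem (L.add_mem (L.smul_mem _ hx) (L.smul_mem _ hy)) (L.smul_mem _ hz))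
  by_cases hab : ∀ x ∈ L, ∀ y ∈ L, br x y = 0
  · exact sub_line_false hF hK hP hd h.tr h.betti h.dr hx₀ h0 fun x hx y hy hx0 =>
      prop_of_comm (h.tr x hx) (h.tr y hy) hx0 (hab x hx y hy)
  · push Not at hab
    obtain ⟨x, hx, y, hy, hxy⟩ := hab
    -- the radical
    obtain ⟨D, hD⟩ : ∃ D : Submodule ℂ M2, ∀ z, z ∈ D ↔ z ∈ L ∧ ∀ w ∈ L, (z * w).trace = 0 :=
      ⟨{ carrier := {z | z ∈ L ∧ ∀ w ∈ L, (z * w).trace = 0}
         zero_mem' := ⟨L.zero_mem, fun w _ => by rw [Matrix.zero_mul, Matrix.trace_zero]⟩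
         add_mem' := by
          intro a b ha hb
          exact ⟨L.add_mem ha.1 hb.1, fun w hw => by
            rw [Matrix.add_mul, Matrix.trace_add, ha.2 w hw, hb.2 w hw, add_zero]⟩
         smul_mem' := by
          intro c a ha
          exact ⟨L.smul_mem c ha.1, fun w hw => by
            rw [Matrix.smul_mul, Matrix.trace_smul, ha.2 w hw, smul_zero]⟩ },
        fun z => Iff.rfl⟩
    refine sub_line_false (F := F) (K := K) (P := P) (L := D) hF hK hP hd
      (fun x hx => h.tr x ((hD x).1 hx).1) ?_ ?_ (x₀ := br x y)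
      ((hD _).2 ⟨h.lie x hx y hy, ha x hx y hy⟩) hxy ?_
    · intro f z hz
      rw [hD] at hz ⊢
      refine ⟨h.betti f z hz.1, fun w hw => ?_⟩
      have h1 := mat_coords L h.betti hw
      have hzw := hz.2
      clear hw
      induction h1 using Submodule.span_induction with
      | mem w h2 =>
        rw [map_mul_right h2.2, tr_map, hzw w h2.1, map_zero]
      | zero => rw [Matrix.mul_zero, Matrix.trace_zero]
      | add u v _ _ hu hv => rw [Matrix.mul_add, Matrix.trace_add, hu, hv, add_zero]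
      | smul c u _ hu => rw [Matrix.mul_smul, Matrix.trace_smul, hu, smul_zero]
    · intro f z hz
      rw [hD] at hz ⊢
      refine ⟨h.dr f z hz.1, fun w hw => ?_⟩
      obtain ⟨L', hL'⟩ : ∃ L' : Submodule ℂ M2, L' = L.comap (cj P) := ⟨_, rfl⟩
      have hmem : ∀ u, u ∈ L' ↔ cj P u ∈ L := fun u => by
        rw [hL']
        exact Submodule.mem_comap
      have hw' : P * w * P⁻¹ ∈ L' := by
        rw [hmem, cj_inv hd]
        exact hw
      have h1 := mat_coords (K := K) L' (fun f u hu => by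
        rw [hmem] at hu ⊢
        exact h.dr f u hu) hw'
      have h3 : (cj P (z.map f) * w).trace = (z.map f * (P * w * P⁻¹)).trace := by
        rw [← tr_cj hd (z.map f * (P * w * P⁻¹)), cj_mul hd, cj_inv hd]
      rw [h3]
      have hzw := hz.2
      clear h3 hw'
      generalize P * w * P⁻¹ = w' at h1
      induction h1 using Submodule.span_induction with
      | mem w h2 =>
        have h4 : (z * w).trace = 0 := by
          rw [← tr_cj hd (z * w), cj_mul hd]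
          exact hzw _ ((hmem w).1 h2.1)
        rw [map_mul_right h2.2, tr_map, h4, map_zero]
      | zero => rw [Matrix.mul_zero, Matrix.trace_zero]
      | add u v _ _ hu hv => rw [Matrix.mul_add, Matrix.trace_add, hu, hv, add_zero]
      | smul c u _ hu => rw [Matrix.mul_smul, Matrix.trace_smul, hu, smul_zero]
    · intro u hu v hv hu0
      rw [hD] at hu hv
      exact prop_of_nilp (h.tr u hu.1) (h.tr v hv.1) hu0 (hu.2 u hu.1) (hv.2 v hv.1) (hu.2 v hv.1)

/-- The same for pairs. -/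
structure Sub2 (F K : Subfield ℂ) (P Q : M2) (L : Submodule ℂ (M2 × M2)) : Prop where
  tr : ∀ x ∈ L, x.1.trace = 0 ∧ x.2.trace = 0
  lie : ∀ x ∈ L, ∀ y ∈ L, br x y ∈ L
  betti : ∀ f : ℂ →ₗ[F] ℂ, ∀ x ∈ L, (x.1.map f, x.2.map f) ∈ L
  dr : ∀ f : ℂ →ₗ[K] ℂ, ∀ y z, (cj P y, cj Q z) ∈ L → (cj P (y.map f), cj Q (z.map f)) ∈ L

theorem indep1_left {P Q : M2} (h : Indep2 P Q) : Indep1 P := fun c hc h1 =>
  (h c 0 hc (fun _ _ => isAlgebraic_zero) (by
    rw [h1, zero_add]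
    simp)).1

theorem indep1_right {P Q : M2} (h : Indep2 P Q) : Indep1 Q := fun c hc h1 =>
  (h 0 c (fun _ _ => isAlgebraic_zero) hc (by
    rw [h1, add_zero]
    simp)).2

theorem map_zero' {α β : Type*} (f : ℂ →ₗ[K] ℂ) : (0 : Matrix α β ℂ).map f = 0 := by
  ext a b
  rw [Matrix.map_apply, Matrix.zero_apply, map_zero]

theorem sub2_top (hF : ∀ x ∈ F, IsAlgebraic ℚ x) (hK : ∀ x ∈ K, IsAlgebraic ℚ x) {P Q : M2}
    (hP : Indep2 P Q) (hd : P.det = Q.det) (hd0 : P.det ≠ 0) {L : Submodule ℂ (M2 × M2)}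
    (h : Sub2 F K P Q L) {x₀ y₀ : M2 × M2} (hx₀ : x₀ ∈ L) (h0 : x₀.1 ≠ 0) (hy₀ : y₀ ∈ L)
    (h0' : y₀.2 ≠ 0) {s t : M2} (hs : s.trace = 0) (ht : t.trace = 0) : (s, t) ∈ L := by
  have hd0' : Q.det ≠ 0 := by rwa [← hd]
  have huQ : IsUnit Q.det := isUnit_iff_ne_zero.2 hd0'
  have huP : IsUnit P.det := isUnit_iff_ne_zero.2 hd0
  -- the projections
  have s1 : Sub1 F K P (L.map (LinearMap.fst ℂ M2 M2)) := by
    refine ⟨?_, ?_, ?_, ?_⟩
    · rintro _ ⟨x, hx, rfl⟩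
      exact (h.tr x hx).1
    · rintro _ ⟨x, hx, rfl⟩ _ ⟨y, hy, rfl⟩
      exact ⟨_, h.lie x hx y hy, rfl⟩
    · rintro f _ ⟨x, hx, rfl⟩
      exact ⟨_, h.betti f x hx, rfl⟩
    · rintro f y ⟨⟨a, b⟩, hx, hxy⟩
      change a = _ at hxy
      subst hxy
      have h1 := h.dr f y (Q * b * Q⁻¹) (by rwa [cj_inv hd0'])
      exact ⟨_, h1, rfl⟩
  have s2 : Sub1 F K Q (L.map (LinearMap.snd ℂ M2 M2)) := by
    refine ⟨?_, ?_, ?_, ?_⟩
    · rintro _ ⟨x, hx, rfl⟩
      exact (h.tr x hx).2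
    · rintro _ ⟨x, hx, rfl⟩ _ ⟨y, hy, rfl⟩
      exact ⟨_, h.lie x hx y hy, rfl⟩
    · rintro f _ ⟨x, hx, rfl⟩
      exact ⟨_, h.betti f x hx, rfl⟩
    · rintro f y ⟨⟨a, b⟩, hx, hxy⟩
      change b = _ at hxy
      subst hxy
      have h1 := h.dr f (P * a * P⁻¹) y (by rwa [cj_inv hd0])
      exact ⟨_, h1, rfl⟩
  have p1 : ∀ s : M2, s.trace = 0 → ∃ t, (s, t) ∈ L := by
    intro s hs
    obtain ⟨⟨a, b⟩, hx, hxy⟩ := sub1_top hF hK (indep1_left hP) hd0 s1 ⟨x₀, hx₀, rfl⟩ h0 hs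
    change a = s at hxy
    subst hxy
    exact ⟨b, hx⟩
  have p2 : ∀ t : M2, t.trace = 0 → ∃ s, (s, t) ∈ L := by
    intro s hs
    obtain ⟨⟨a, b⟩, hx, hxy⟩ := sub1_top hF hK (indep1_right hP) hd0' s2 ⟨y₀, hy₀, rfl⟩ h0' hs
    change b = s at hxy
    subst hxy
    exact ⟨a, hx⟩
  -- the kernels
  have k1 : Sub1 F K P (L.comap (LinearMap.inl ℂ M2 M2)) := by
    refine ⟨?_, ?_, ?_, ?_⟩
    · intro x hx
      exact (h.tr _ hx).1
    · intro x hx y hy
      have h1 := h.lie _ hx _ hy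
      have h2 : br ((LinearMap.inl ℂ M2 M2) x) ((LinearMap.inl ℂ M2 M2) y) =
          (LinearMap.inl ℂ M2 M2) (br x y) := by
        refine Prod.ext rfl ?_
        change br (0 : M2) 0 = 0
        unfold br
        simp
      rwa [h2] at h1
    · intro f x hx
      have h1 := h.betti f _ hx
      have h2 : (((LinearMap.inl ℂ M2 M2) x).1.map f, ((LinearMap.inl ℂ M2 M2) x).2.map f) =
          (LinearMap.inl ℂ M2 M2) (x.map f) := Prod.ext rfl (map_zero' f)
      rwa [h2] at h1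
    · intro f y hy
      have h1 := h.dr f y 0 (by rw [map_zero]; exact hy)
      rw [map_zero', map_zero] at h1
      exact h1
  have k2 : Sub1 F K Q (L.comap (LinearMap.inr ℂ M2 M2)) := by
    refine ⟨?_, ?_, ?_, ?_⟩
    · intro x hx
      exact (h.tr _ hx).2
    · intro x hx y hy
      have h1 := h.lie _ hx _ hy
      have h2 : br ((LinearMap.inr ℂ M2 M2) x) ((LinearMap.inr ℂ M2 M2) y) =
          (LinearMap.inr ℂ M2 M2) (br x y) := by
        refine Prod.ext ?_ rfl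
        change br (0 : M2) 0 = 0
        unfold br
        simp
      rwa [h2] at h1
    · intro f x hx
      have h1 := h.betti f _ hx
      have h2 : (((LinearMap.inr ℂ M2 M2) x).1.map f, ((LinearMap.inr ℂ M2 M2) x).2.map f) =
          (LinearMap.inr ℂ M2 M2) (x.map f) := Prod.ext (map_zero' f) rfl
      rwa [h2] at h1
    · intro f y hy
      have h1 := h.dr f 0 y (by rw [map_zero]; exact hy)
      rw [map_zero', map_zero] at h1
      exact h1
  by_cases hk1 : ∃ u, (u, (0 : M2)) ∈ L ∧ u ≠ 0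
  · obtain ⟨u, hu, hu0⟩ := hk1
    obtain ⟨s', hs'⟩ := p2 t ht
    have ht' : (s - s').trace = 0 := by
      rw [Matrix.trace_sub, hs, (h.tr _ hs').1, sub_zero]
    have h1 : (s - s', (0 : M2)) ∈ L := sub1_top hF hK (indep1_left hP) hd0 k1 (x₀ := u) hu hu0 ht'
    have h2 := L.add_mem h1 hs'
    rwa [Prod.mk_add_mk, sub_add_cancel, zero_add] at h2
  exfalso
  push Not at hk1
  have hk2 : ∀ u, ((0 : M2), u) ∈ L → u = 0 := by
    intro u hu
    by_contra hu0
    have h1 : (x₀.1, (0 : M2)) ∈ L := by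
      have h2 : ((0 : M2), x₀.2) ∈ L := sub1_top hF hK (indep1_right hP) hd0' k2 (x₀ := u) hu hu0
        (h.tr _ hx₀).2
      have h3 := L.sub_mem hx₀ h2
      have h4 : x₀ - (0, x₀.2) = (x₀.1, 0) := by
        refine Prod.ext ?_ ?_
        · exact sub_zero _
        · exact sub_self _
      rwa [h4] at h3
    exact h0 (hk1 _ h1)
  -- the intertwiner
  obtain ⟨n₀, hn₀, hn₀L⟩ := exists_intertwiner L h.tr h.lie p1 p2 hk1 hk2
  -- a rational intertwiner
  obtain ⟨f, hf, hfn⟩ := exists_map_ne F hn₀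
  have hnL : ∀ x ∈ L, x.1 * n₀.map f = n₀.map f * x.2 := by
    intro x hx
    have h1 := pair_coords L h.betti hx
    clear hx
    induction h1 using Submodule.span_induction with
    | mem x h2 => rw [map_mul_left h2.2.1, map_mul_right h2.2.2, hn₀L x h2.1]
    | zero => rw [Prod.fst_zero, Prod.snd_zero, Matrix.zero_mul, Matrix.mul_zero]
    | add u v _ _ hu hv => rw [Prod.fst_add, Prod.snd_add, Matrix.add_mul, Matrix.mul_add, hu, hv]
    | smul c u _ hu => rw [Prod.smul_fst, Prod.smul_snd, Matrix.smul_mul, Matrix.mul_smul, hu]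
  obtain ⟨n, hn⟩ : ∃ n, n = n₀.map f := ⟨_, rfl⟩
  rw [← hn] at hfn hnL
  have hnF : ∀ a b, n a b ∈ F := fun a b => by
    rw [hn]
    exact hf _
  -- the de Rham side
  have hm0 : P * n * Q⁻¹ ≠ 0 := by
    intro h1
    apply hfn
    have h2 : P⁻¹ * (P * n * Q⁻¹) * Q = n := by
      simp only [Matrix.mul_assoc]
      rw [Matrix.nonsing_inv_mul _ huQ, Matrix.mul_one, ← Matrix.mul_assoc,
        Matrix.nonsing_inv_mul _ huP, Matrix.one_mul]
    rw [← h2, h1, Matrix.mul_zero, Matrix.zero_mul]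
  obtain ⟨g, hg, hgm⟩ := exists_map_ne K hm0
  obtain ⟨m, hm⟩ : ∃ m, m = (P * n * Q⁻¹).map g := ⟨_, rfl⟩
  rw [← hm] at hgm
  -- the other side of the Lie algebra
  obtain ⟨L', hL'⟩ : ∃ L' : Submodule ℂ (M2 × M2), L' = L.comap ((cj P).prodMap (cj Q)) :=
    ⟨_, rfl⟩
  have hmem : ∀ u, u ∈ L' ↔ (cj P u.1, cj Q u.2) ∈ L := fun u => by
    rw [hL']
    exact Submodule.mem_comap
  have hml : ∀ u ∈ L', u.1 * m = m * u.2 := by
    intro u hu
    have h1 := pair_coords (K := K) L' (fun f u hu => by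
      rw [hmem] at hu ⊢
      exact h.dr f _ _ hu) hu
    clear hu
    induction h1 using Submodule.span_induction with
    | mem u h2 =>
      have h3 := hnL _ ((hmem u).1 h2.1)
      have h4 : u.1 * (P * n * Q⁻¹) = P * n * Q⁻¹ * u.2 := by
        have h5 : P * (cj P u.1 * n) * Q⁻¹ = u.1 * (P * n * Q⁻¹) := by
          rw [cj_apply]
          simp only [← Matrix.mul_assoc]
          rw [Matrix.mul_nonsing_inv _ huP, Matrix.one_mul]
        have h6 : P * (n * cj Q u.2) * Q⁻¹ = P * n * Q⁻¹ * u.2 := by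
          rw [cj_apply]
          simp only [Matrix.mul_assoc]
          rw [Matrix.mul_nonsing_inv _ huQ, Matrix.mul_one]
        rw [← h5, ← h6]
        change P * ((cj P u.1, cj Q u.2).1 * n) * Q⁻¹ = P * (n * (cj P u.1, cj Q u.2).2) * Q⁻¹
        rw [h3]
      rw [hm, map_mul_left h2.2.1, map_mul_right h2.2.2, h4]
    | zero => rw [Prod.fst_zero, Prod.snd_zero, Matrix.zero_mul, Matrix.mul_zero]
    | add u v _ _ hu hv => rw [Prod.fst_add, Prod.snd_add, Matrix.add_mul, Matrix.mul_add, hu, hv]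
    | smul c u _ hu => rw [Prod.smul_fst, Prod.smul_snd, Matrix.smul_mul, Matrix.mul_smul, hu]
  have hml' : ∀ x ∈ L, x.1 * (P⁻¹ * m * Q) = P⁻¹ * m * Q * x.2 := by
    intro x hx
    have h1 := hml (P * x.1 * P⁻¹, Q * x.2 * Q⁻¹) ((hmem _).2 (by
      change (cj P (P * x.1 * P⁻¹), cj Q (Q * x.2 * Q⁻¹)) ∈ L
      rwa [cj_inv hd0, cj_inv hd0']))
    change P * x.1 * P⁻¹ * m = m * (Q * x.2 * Q⁻¹) at h1
    calc x.1 * (P⁻¹ * m * Q) = P⁻¹ * (P * x.1 * P⁻¹ * m) * Q := by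
          simp only [← Matrix.mul_assoc]
          rw [Matrix.nonsing_inv_mul _ huP, Matrix.one_mul]
      _ = P⁻¹ * m * Q * x.2 := by
          rw [h1]
          simp only [Matrix.mul_assoc]
          rw [Matrix.nonsing_inv_mul _ huQ, Matrix.mul_one]
  obtain ⟨c, hc⟩ := prop_of_intertwiner hfn hnL hml' p2
  have hmQ : m * Q = c • (P * n) := by
    calc m * Q = P * (P⁻¹ * m * Q) := by
          simp only [← Matrix.mul_assoc]
          rw [Matrix.mul_nonsing_inv _ huP, Matrix.one_mul]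
      _ = c • (P * n) := by rw [hc, Matrix.mul_smul]
  have hc0 : c ≠ 0 := by
    rintro rfl
    rw [zero_smul] at hmQ
    apply hgm
    rw [← Matrix.mul_one m, ← Matrix.mul_nonsing_inv _ huQ, ← Matrix.mul_assoc, hmQ,
      Matrix.zero_mul]
  exact pair_false hP hd hd0 (fun a b => hF _ (hnF a b)) (fun a b => by
    rw [hm]
    exact hK _ (hg _)) (det_ne_of_intertwiner hfn hnL p2) hc0 hmQ.symm

end Pool.Agent.TH128.GZ
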