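import Mathlib
import Pool.Agent.TH128.GZ.Obj

/-!
# Lie algebras acting on the periods of several elliptic curves and of a variety
-/

set_option linter.unusedSectionVars false

namespace Pool.Agent.TH128.GZ

open Matrix Pool.Agent.TH119.DR

variable {F K : Subfield ℂ} {J B D : Type*} [Fintype B] [DecidableEq B]

/-- The algebra of endomorphisms. -/
abbrev LA (J B : Type*) : Type _ := (J → M2) × Matrix B B ℂ

/-- The coordinatewise map. -/
def mp (f : ℂ → ℂ) (x : LA J B) : LA J B := (fun j => (x.1 j).map f, x.2.map f)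

/-- Conjugation by the periods. -/
noncomputable def cjL (P : J → M2) (Q : Matrix B B ℂ) (y : LA J B) : LA J B :=
  (fun j => cj (P j) (y.1 j), Q⁻¹ * y.2 * Q)

/-- The inverse of the conjugation by the periods. -/
noncomputable def icj (P : J → M2) (Q : Matrix B B ℂ) (x : LA J B) : LA J B :=
  (fun j => P j * x.1 j * (P j)⁻¹, Q * x.2 * Q⁻¹)

theorem cjL_icj {P : J → M2} {Q : Matrix B B ℂ} (hP : ∀ j, (P j).det ≠ 0) (hQ : Q.det ≠ 0)
    (x : LA J B) : cjL P Q (icj P Q x) = x := by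
  have hu : IsUnit Q.det := isUnit_iff_ne_zero.2 hQ
  refine Prod.ext (funext fun j => cj_inv (hP j) _) ?_
  change Q⁻¹ * (Q * x.2 * Q⁻¹) * Q = x.2
  simp only [Matrix.mul_assoc]
  rw [Matrix.nonsing_inv_mul _ hu, Matrix.mul_one, ← Matrix.mul_assoc,
    Matrix.nonsing_inv_mul _ hu, Matrix.one_mul]

/-- The Lie algebras which are defined over `F` on the Betti side and over `K` on the de Rham
side. -/
structure SubL (F K : Subfield ℂ) (P : J → M2) (Q : Matrix B B ℂ) (deg : B → D) (C : J → M2)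
    (L : Submodule ℂ (LA J B)) : Prop where
  tr : ∀ x ∈ L, ∀ j, (x.1 j).trace = 0
  cm : ∀ x ∈ L, ∀ j, C j ≠ 0 → ∃ c : ℂ, x.1 j = c • C j
  blk : ∀ x ∈ L, ∀ a b, deg a ≠ deg b → x.2 a b = 0
  lie : ∀ x ∈ L, ∀ y ∈ L, br x y ∈ L
  betti : ∀ f : ℂ →ₗ[F] ℂ, ∀ x ∈ L, mp f x ∈ L
  dr : ∀ f : ℂ →ₗ[K] ℂ, ∀ y, cjL P Q y ∈ L → cjL P Q (mp f y) ∈ L

/-- A coordinate. -/
def ev (j : J) : LA J B →ₗ[ℂ] M2 := (LinearMap.proj j) ∘ₗ (LinearMap.fst ℂ (J → M2) (Matrix B B ℂ))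

theorem ev_apply (j : J) (x : LA J B) : ev j x = x.1 j := rfl

section

variable {P : J → M2} {Q : Matrix B B ℂ} {deg : B → D} {C : J → M2} {L : Submodule ℂ (LA J B)}
  (hP0 : ∀ j, (P j).det ≠ 0) (hQ0 : Q.det ≠ 0)
  (hL : SubL F K P Q deg C L)

include hP0 hQ0 hL

theorem SubL.one (j : J) : Sub1 F K (P j) (L.map (ev j)) := by
  refine ⟨?_, ?_, ?_, ?_⟩
  · rintro _ ⟨x, hx, rfl⟩
    exact hL.tr x hx j
  · rintro _ ⟨x, hx, rfl⟩ _ ⟨y, hy, rfl⟩
    exact ⟨_, hL.lie x hx y hy, rfl⟩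
  · rintro f _ ⟨x, hx, rfl⟩
    exact ⟨_, hL.betti f x hx, rfl⟩
  · rintro f y ⟨x, hx, hxy⟩
    have h1 : cjL P Q (icj P Q x) ∈ L := by rwa [cjL_icj hP0 hQ0]
    refine ⟨_, hL.dr f _ h1, ?_⟩
    change cj (P j) ((P j * x.1 j * (P j)⁻¹).map f) = _
    rw [ev_apply] at hxy
    rw [hxy, inv_cj (hP0 j)]

theorem SubL.two (i j : J) : Sub2 F K (P i) (P j) (L.map ((ev i).prod (ev j))) := by
  refine ⟨?_, ?_, ?_, ?_⟩
  · rintro _ ⟨x, hx, rfl⟩
    exact ⟨hL.tr x hx i, hL.tr x hx j⟩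
  · rintro _ ⟨x, hx, rfl⟩ _ ⟨y, hy, rfl⟩
    exact ⟨_, hL.lie x hx y hy, rfl⟩
  · rintro f _ ⟨x, hx, rfl⟩
    exact ⟨_, hL.betti f x hx, rfl⟩
  · rintro f y z ⟨x, hx, hxy⟩
    have h1 : cjL P Q (icj P Q x) ∈ L := by rwa [cjL_icj hP0 hQ0]
    refine ⟨_, hL.dr f _ h1, ?_⟩
    have e1 : x.1 i = cj (P i) y := congrArg Prod.fst hxy
    have e2 : x.1 j = cj (P j) z := congrArg Prod.snd hxy
    refine Prod.ext ?_ ?_
    · change cj (P i) ((P i * x.1 i * (P i)⁻¹).map f) = _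
      rw [e1, inv_cj (hP0 i)]
    · change cj (P j) ((P j * x.1 j * (P j)⁻¹).map f) = _
      rw [e2, inv_cj (hP0 j)]

variable (hF : ∀ x ∈ F, IsAlgebraic ℚ x) (hK : ∀ x ∈ K, IsAlgebraic ℚ x)
  (hdet : ∀ i j, (P i).det = (P j).det)
  (hI1 : ∀ i, C i = 0 → Indep1 (P i)) (hI2 : ∀ i j, C i = 0 → C j = 0 → i ≠ j → Indep2 (P i) (P j))
  (hne : ∀ j, C j = 0 → ∃ x ∈ L, x.1 j ≠ 0)

include hF hK hdet hI1 hI2 hne

/-- Goursat. -/
theorem SubL.exists_vanish {j : J} (hj : C j = 0) (A : Finset J) (hA : ∀ i ∈ A, C i = 0)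
    (hjA : j ∉ A) : ∀ s : M2, s.trace = 0 → ∃ x ∈ L, x.1 j = s ∧ ∀ i ∈ A, x.1 i = 0 := by
  classical
  induction A using Finset.induction_on with
  | empty =>
    intro s hs
    obtain ⟨x₀, hx₀, h0⟩ := hne j hj
    obtain ⟨x, hx, hxs⟩ := sub1_top hF hK (hI1 j hj) (hP0 j) (hL.one hP0 hQ0 j)
      (x₀ := x₀.1 j) ⟨x₀, hx₀, rfl⟩ h0 hs
    exact ⟨x, hx, hxs, fun i hi => absurd hi (Finset.notMem_empty i)⟩
  | insert i A hiA ih =>
    have hij : i ≠ j := by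
      rintro rfl
      exact hjA (Finset.mem_insert_self _ _)
    have ih' := ih (fun i hi => hA i (Finset.mem_insert_of_mem hi))
      (fun h => hjA (Finset.mem_insert_of_mem h))
    -- pairs
    have hpair : ∀ t : M2, t.trace = 0 → ∃ y ∈ L, y.1 j = t ∧ y.1 i = 0 := by
      intro t ht
      obtain ⟨x₀, hx₀, h0⟩ := hne i (hA i (Finset.mem_insert_self _ _))
      obtain ⟨y₀, hy₀, h0'⟩ := hne j hj
      obtain ⟨y, hy, hyt⟩ := sub2_top hF hK
        (hI2 i j (hA i (Finset.mem_insert_self _ _)) hj hij) (hdet i j) (hP0 i)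
        (hL.two hP0 hQ0 i j) (x₀ := (x₀.1 i, x₀.1 j)) (y₀ := (y₀.1 i, y₀.1 j)) ⟨x₀, hx₀, rfl⟩ h0
        ⟨y₀, hy₀, rfl⟩ h0' (s := 0) (t := t) (Matrix.trace_zero _ _) ht
      exact ⟨y, hy, congrArg Prod.snd hyt, congrArg Prod.fst hyt⟩
    have hbr : ∀ a b : M2, a.trace = 0 → b.trace = 0 → ∃ x ∈ L, x.1 j = br a b ∧
        ∀ k ∈ insert i A, x.1 k = 0 := by
      intro a b ha hb
      obtain ⟨x, hx, hxj, hxA⟩ := ih' a ha
      obtain ⟨y, hy, hyj, hyi⟩ := hpair b hb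
      refine ⟨br x y, hL.lie x hx y hy, ?_, fun k hk => ?_⟩
      · change br (x.1 j) (y.1 j) = _
        rw [hxj, hyj]
      · change br (x.1 k) (y.1 k) = 0
        unfold br
        rcases Finset.mem_insert.1 hk with rfl | hk
        · rw [hyi, Matrix.mul_zero, Matrix.zero_mul, sub_zero]
        · rw [hxA k hk, Matrix.mul_zero, Matrix.zero_mul, sub_zero]
    intro s hs
    obtain ⟨a, b, c, d, ha, hb, hc, hd, rfl⟩ := sum_br hs
    obtain ⟨x, hx, hxj, hxA⟩ := hbr a b ha hb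
    obtain ⟨y, hy, hyj, hyA⟩ := hbr c d hc hd
    refine ⟨x + y, L.add_mem hx hy, ?_, fun k hk => ?_⟩
    · change x.1 j + y.1 j = _
      rw [hxj, hyj]
    · change x.1 k + y.1 k = 0
      rw [hxA k hk, hyA k hk, add_zero]

/-- Goursat: one coordinate. -/
theorem SubL.exists_single [Fintype J] {j : J} (hj : C j = 0) {s : M2} (hs : s.trace = 0) :
    ∃ x ∈ L, x.1 j = s ∧ ∀ i, C i = 0 → i ≠ j → x.1 i = 0 := by
  classical
  obtain ⟨x, hx, hxj, hxA⟩ := hL.exists_vanish hP0 hQ0 hF hK hdet hI1 hI2 hne hj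
    (Finset.univ.filter fun i => C i = 0 ∧ i ≠ j) (fun i hi => (Finset.mem_filter.1 hi).2.1)
    (fun h => (Finset.mem_filter.1 h).2.2 rfl) s hs
  exact ⟨x, hx, hxj, fun i hi hij => hxA i (Finset.mem_filter.2 ⟨Finset.mem_univ _, hi, hij⟩)⟩

/-- Goursat: all coordinates. -/
theorem SubL.exists_all [Fintype J] (hC : ∀ j, C j = 0) (S : J → M2) (hS : ∀ j, (S j).trace = 0) :
    ∃ x ∈ L, x.1 = S := by
  classical
  have h1 : ∀ j, ∃ x ∈ L, x.1 = Pi.single j (S j) := by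
    intro j
    obtain ⟨x, hx, hxj, hxA⟩ := hL.exists_single hP0 hQ0 hF hK hdet hI1 hI2 hne (hC j) (hS j)
    refine ⟨x, hx, funext fun i => ?_⟩
    by_cases hij : i = j
    · subst hij
      rw [hxj, Pi.single_eq_same]
    · rw [hxA i (hC i) hij, Pi.single_eq_of_ne hij]
  choose x hx hxj using h1
  refine ⟨∑ j, x j, L.sum_mem fun j _ => hx j, ?_⟩
  rw [Prod.fst_sum, Finset.sum_congr rfl (fun j _ => hxj j), Finset.univ_sum_single]

end

end Pool.Agent.TH128.GZ
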