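import Mathlib
import Pool.Agent.TH128.GZ.Gour

/-!
# The exceptional elliptic curves
-/

set_option linter.unusedSectionVars false

namespace Pool.Agent.TH128.GZ

open Matrix Pool.Agent.TH119.DR

variable {F K : Subfield ℂ} {J B D : Type*} [Fintype B] [DecidableEq B]

/-- The logarithmic derivative of the periods, made traceless. -/
noncomputable def dM (δ : Derivation ℚ ℂ ℂ) (P : M2) : M2 :=
  P⁻¹ * P.map δ - ((P⁻¹ * P.map δ).trace / 2) • (1 : M2)

theorem tr_dM (δ : Derivation ℚ ℂ ℂ) (P : M2) : (dM δ P).trace = 0 := by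
  unfold dM
  rw [Matrix.trace_sub, Matrix.trace_smul, Matrix.trace_one, Fintype.card_fin, smul_eq_mul]
  push_cast
  ring

/-- The derivative of all the periods. -/
noncomputable def dL (δ : Derivation ℚ ℂ ℂ) (P : J → M2) (Q : Matrix B B ℂ) : LA J B :=
  (fun j => dM δ (P j), Q⁻¹ * Q.map δ)

/-- If the derivatives vanish, then the ratios of the periods are algebraic. -/
theorem ratio_alg {P : M2} (hP : P.det ≠ 0) (h : ∀ δ, dM δ P = 0) (a b c d : Fin 2)
    (h0 : P c d ≠ 0) : IsAlgebraic ℚ (P a b / P c d) := by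
  by_contra htr
  obtain ⟨δ, hδ⟩ := exists_deriv htr
  apply hδ
  obtain ⟨t, ht⟩ : ∃ t, t = (P⁻¹ * P.map δ).trace / 2 := ⟨_, rfl⟩
  have h1 : P⁻¹ * P.map δ = t • (1 : M2) := by
    have := h δ
    unfold dM at this
    rw [← ht] at this
    exact sub_eq_zero.1 this
  have h2 : P.map δ = t • P := by
    calc P.map δ = P * (P⁻¹ * P.map δ) := by
          rw [← Matrix.mul_assoc, Matrix.mul_nonsing_inv _ (isUnit_iff_ne_zero.2 hP),
            Matrix.one_mul]
      _ = t • P := by rw [h1, Matrix.mul_smul, Matrix.mul_one]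
  have h3 : ∀ a b, δ (P a b) = t * P a b := fun a b => by
    have := congrFun (congrFun h2 a) b
    rw [Matrix.map_apply, Matrix.smul_apply, smul_eq_mul] at this
    exact this
  rw [div_eq_mul_inv, Derivation.leibniz, Derivation.leibniz_inv, h3, h3]
  simp only [smul_eq_mul]
  field_simp
  ring

theorem exists_dM_ne {P : M2} (hP : P.det ≠ 0) (hI : Indep1 P) : ∃ δ, dM δ P ≠ 0 := by
  by_contra hcon
  push Not at hcon
  have h00 : P 0 0 ≠ 0 := by
    intro h0
    have h1 := hI !![1, 0; 0, 0] (by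
      intro i j
      fin_cases i <;> fin_cases j
      · exact isAlgebraic_one
      · exact isAlgebraic_zero
      · exact isAlgebraic_zero
      · exact isAlgebraic_zero) (by
      simp [Fin.sum_univ_two, h0])
    have h2 := congrFun (congrFun h1 0) 0
    exact one_ne_zero (α := ℂ) h2
  have hr := ratio_alg hP hcon 0 1 0 0 h00
  have h1 := hI !![-(P 0 1 / P 0 0), 1; 0, 0] (by
      intro i j
      fin_cases i <;> fin_cases j
      · exact hr.neg
      · exact isAlgebraic_one
      · exact isAlgebraic_zero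
      · exact isAlgebraic_zero) (by
      simp only [Fin.sum_univ_two, Matrix.of_apply, Matrix.cons_val', Matrix.cons_val_zero,
        Matrix.cons_val_one, Matrix.cons_val_fin_one]
      field_simp
      ring)
  have h2 := congrFun (congrFun h1 0) 1
  exact one_ne_zero (α := ℂ) h2

/-- The elliptic curve with the period matrix `P` is exceptional with respect to the periods `Q`:
there is a Lie algebra on which the elliptic curve is seen by `Q`. -/
def Exc (F K : Subfield ℂ) (Q : Matrix B B ℂ) (deg : B → D) (P : M2) : Prop :=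
  ∃ L : Submodule ℂ (LA Unit B), SubL F K (fun _ => P) Q deg (fun _ => 0) L ∧
    (∀ δ, dL δ (fun _ => P) Q ∈ L) ∧ ∀ x ∈ L, x.2 = 0 → x.1 = 0

/-- Forgetting the other coordinates. -/
def res (j : J) : LA J B →ₗ[ℂ] LA Unit B where
  toFun x := (fun _ => x.1 j, x.2)
  map_add' _ _ := rfl
  map_smul' _ _ := rfl

theorem res_apply (j : J) (x : LA J B) : res j x = (fun _ => x.1 j, x.2) := rfl

theorem res_br (j : J) (x y : LA J B) : res j (br x y) = br (res j x) (res j y) := rfl

theorem res_mp (j : J) (f : ℂ → ℂ) (x : LA J B) : res j (mp f x) = mp f (res j x) := rfl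

theorem res_cj (j : J) (P : J → M2) (Q : Matrix B B ℂ) (y : LA J B) :
    res j (cjL P Q y) = cjL (fun _ => P j) Q (res j y) := rfl

theorem fin3_eq {x : M2} (hx : x.trace = 0) (h : (![x 0 0, x 0 1, x 1 0] : Fin 3 → ℂ) = 0) :
    x = 0 := by
  have h0 : x 0 0 = 0 := congrFun h 0
  have h1 : x 0 1 = 0 := congrFun h 1
  have h2 : x 1 0 = 0 := congrFun h 2
  apply m2_ext
  · exact h0
  · exact h1
  · exact h2
  · rw [tr_zero hx, h0, neg_zero]
    rfl

/-- There are few exceptional elliptic curves. -/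
theorem exc_card (hF : ∀ x ∈ F, IsAlgebraic ℚ x) (hK : ∀ x ∈ K, IsAlgebraic ℚ x)
    {Q : Matrix B B ℂ} {deg : B → D} [DecidableEq D] (hQ0 : Q.det ≠ 0) {ι : Type*} {P : ι → M2}
    (hP0 : ∀ i, (P i).det ≠ 0) (hdet : ∀ i j, (P i).det = (P j).det) (T : Finset ι)
    (hI1 : ∀ i ∈ T, Indep1 (P i)) (hI2 : ∀ i ∈ T, ∀ j ∈ T, i ≠ j → Indep2 (P i) (P j))
    (hE : ∀ i ∈ T, Exc F K Q deg (P i)) :
    3 * T.card ≤ Fintype.card {p : B × B // deg p.1 = deg p.2} := by
  classical
  rcases T.eq_empty_or_nonempty with rfl | ⟨i₀, hi₀⟩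
  · simp
  obtain ⟨P', hP'⟩ : ∃ P' : T → M2, P' = fun j : T => P j := ⟨_, rfl⟩
  have hE' : ∀ j : T, ∃ L : Submodule ℂ (LA Unit B), SubL F K (fun _ => P' j) Q deg (fun _ => 0) L ∧
      (∀ δ, dL δ (fun _ => P' j) Q ∈ L) ∧ ∀ x ∈ L, x.2 = 0 → x.1 = 0 := fun j => by
    rw [hP']
    exact hE j j.2
  choose L hL hLδ hL0 using hE'
  obtain ⟨H, hH⟩ : ∃ H : Submodule ℂ (LA T B), ∀ x, x ∈ H ↔ ∀ j, res j x ∈ L j :=
    ⟨⨅ j, (L j).comap (res j), fun x => by simp [Submodule.mem_iInf]⟩
  have hsub : SubL F K P' Q deg (fun _ => 0) H := by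
    refine ⟨?_, fun _ _ _ h => absurd rfl h, ?_, ?_, ?_, ?_⟩
    · intro x hx j
      exact (hL j).tr _ ((hH x).1 hx j) ()
    · intro x hx a b hab
      exact (hL ⟨i₀, hi₀⟩).blk _ ((hH x).1 hx ⟨i₀, hi₀⟩) a b hab
    · intro x hx y hy
      rw [hH]
      intro j
      rw [res_br]
      exact (hL j).lie _ ((hH x).1 hx j) _ ((hH y).1 hy j)
    · intro f x hx
      rw [hH]
      intro j
      rw [res_mp]
      exact (hL j).betti f _ ((hH x).1 hx j)
    · intro f y hy
      rw [hH] at hy ⊢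
      intro j
      rw [res_cj, res_mp]
      exact (hL j).dr f (res j y) (by
        rw [← res_cj]
        exact hy j)
  have hP0' : ∀ j, (P' j).det ≠ 0 := fun j => by
    rw [hP']
    exact hP0 _
  have hI1' : ∀ j, Indep1 (P' j) := fun j => by
    rw [hP']
    exact hI1 j j.2
  have hsurj : ∀ S : T → M2, (∀ j, (S j).trace = 0) → ∃ x ∈ H, x.1 = S := by
    intro S hS
    refine hsub.exists_all hP0' hQ0 hF hK (fun i j => by rw [hP']; exact hdet _ _)
      (fun i _ => hI1' i) (fun i j _ _ hij => by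
        rw [hP']
        exact hI2 i i.2 j j.2 (fun h => hij (Subtype.ext h))) ?_ (fun _ => rfl) S hS
    intro j _
    obtain ⟨δ, hδ⟩ := exists_dM_ne (hP0' j) (hI1' j)
    refine ⟨dL δ P' Q, ?_, hδ⟩
    rw [hH]
    intro j
    exact hLδ j δ
  -- the dimensions
  obtain ⟨α, hα⟩ : ∃ α : H →ₗ[ℂ] (T → Fin 3 → ℂ), ∀ x, α x = fun j =>
      ![(x : LA T B).1 j 0 0, (x : LA T B).1 j 0 1, (x : LA T B).1 j 1 0] :=
    ⟨{ toFun := fun x j => ![(x : LA T B).1 j 0 0, (x : LA T B).1 j 0 1, (x : LA T B).1 j 1 0]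
       map_add' := fun x y => by
        funext j k
        fin_cases k <;> rfl
       map_smul' := fun c x => by
        funext j k
        fin_cases k <;> rfl }, fun _ => rfl⟩
  obtain ⟨β, hβ⟩ : ∃ β : H →ₗ[ℂ] ({p : B × B // deg p.1 = deg p.2} → ℂ), ∀ x, β x = fun p =>
      (x : LA T B).2 p.1.1 p.1.2 :=
    ⟨{ toFun := fun x p => (x : LA T B).2 p.1.1 p.1.2
       map_add' := fun x y => rfl
       map_smul' := fun c x => rfl }, fun _ => rfl⟩
  have hαs : Function.Surjective α := by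
    intro v
    obtain ⟨x, hx, hxS⟩ := hsurj (fun j => !![v j 0, v j 1; v j 2, -v j 0]) (fun j => by
      simp [tr_eq])
    refine ⟨⟨x, hx⟩, ?_⟩
    rw [hα]
    funext j k
    have h1 : (x : LA T B).1 j = !![v j 0, v j 1; v j 2, -v j 0] := congrFun hxS j
    change (![x.1 j 0 0, x.1 j 0 1, x.1 j 1 0] : Fin 3 → ℂ) k = v j k
    rw [h1]
    fin_cases k <;> rfl
  have hβi : Function.Injective β := by
    rw [injective_iff_map_eq_zero]
    rintro ⟨x, hx⟩ h0
    rw [hβ] at h0
    have h1 : x.2 = 0 := by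
      ext a b
      by_cases hab : deg a = deg b
      · exact congrFun h0 ⟨(a, b), hab⟩
      · exact hsub.blk x hx a b hab
    have h2 : x.1 = 0 := by
      funext j
      exact congrFun (hL0 j _ ((hH x).1 hx j) h1) ()
    exact Subtype.ext (Prod.ext h2 h1)
  have hβf : Module.Finite ℂ H := Module.Finite.of_injective β hβi
  have h1 := LinearMap.finrank_le_finrank_of_surjective hαs
  have h2 := LinearMap.finrank_le_finrank_of_injective hβi
  rw [Module.finrank_pi_fintype] at h1
  simp only [Module.finrank_fintype_fun_eq_card, Fintype.card_fin, Finset.sum_const,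
    Finset.card_univ, Fintype.card_coe, smul_eq_mul] at h1 h2
  omega

end Pool.Agent.TH128.GZ
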