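import Mathlib
import Pool.Agent.TH119.DR.Line
import Pool.Agent.TH128.GZ.Exc

/-!
# The stabilizer of a de Rham-Betti class
-/

set_option linter.unusedSectionVars false
set_option linter.unusedSimpArgs false

namespace Pool.Agent.TH128.GZ

open Matrix Pool.Agent.TH119.DR Pool.Agent.W437.HK

variable {F K : Subfield ℂ} {J B D κ : Type*} [Fintype B] [DecidableEq B] [Fintype J]
  [DecidableEq J] [Fintype κ] [DecidableEq κ] [DecidableEq D]

/-- The indices of the bases. -/
abbrev RR (J B : Type*) : Type _ := (Fin 2 × J) ⊕ B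

/-- The matrix acting on everything. -/
def Ph (x : LA J B) : Matrix (RR J B) (RR J B) ℂ := fromBlocks (blockDiagonal x.1) 0 0 x.2

theorem Ph_mul (x y : LA J B) : Ph (x * y) = Ph x * Ph y := by
  unfold Ph
  rw [fromBlocks_multiply]
  simp only [Matrix.mul_zero, Matrix.zero_mul, add_zero, zero_add]
  rw [← blockDiagonal_mul]
  rfl

theorem Ph_add (x y : LA J B) : Ph (x + y) = Ph x + Ph y := by
  unfold Ph
  rw [fromBlocks_add, Prod.fst_add, Prod.snd_add, blockDiagonal_add, add_zero, add_zero]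

theorem Ph_smul (c : ℂ) (x : LA J B) : Ph (c • x) = c • Ph x := by
  unfold Ph
  rw [fromBlocks_smul, Prod.smul_fst, Prod.smul_snd, blockDiagonal_smul, smul_zero, smul_zero]

theorem Ph_sub (x y : LA J B) : Ph (x - y) = Ph x - Ph y := by
  rw [sub_eq_add_neg, sub_eq_add_neg, Ph_add, ← neg_one_smul ℂ y, Ph_smul, neg_one_smul]

theorem Ph_br (x y : LA J B) : Ph (br x y) = Ph x * Ph y - Ph y * Ph x := by
  unfold br
  rw [Ph_sub, Ph_mul, Ph_mul]

theorem Ph_one : Ph (1 : LA J B) = 1 := by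
  unfold Ph
  rw [Prod.fst_one, Prod.snd_one, blockDiagonal_one, fromBlocks_one]

theorem Ph_map (f : ℂ → ℂ) (hf : f 0 = 0) (x : LA J B) : Ph (mp f x) = (Ph x).map f := by
  unfold Ph mp
  rw [fromBlocks_map, blockDiagonal_map _ _ hf, Matrix.map_zero _ hf, Matrix.map_zero _ hf]

/-- The inverse of the periods. -/
noncomputable def iv (P : J → M2) (Q : Matrix B B ℂ) : LA J B := (fun j => (P j)⁻¹, Q⁻¹)

section

variable {P : J → M2} {Q : Matrix B B ℂ} (hP0 : ∀ j, (P j).det ≠ 0) (hQ0 : Q.det ≠ 0)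

include hP0 hQ0

theorem mul_iv : ((P, Q) : LA J B) * iv P Q = 1 :=
  Prod.ext (funext fun j => Matrix.mul_nonsing_inv _ (isUnit_iff_ne_zero.2 (hP0 j)))
    (Matrix.mul_nonsing_inv _ (isUnit_iff_ne_zero.2 hQ0))

theorem iv_mul : iv P Q * ((P, Q) : LA J B) = 1 :=
  Prod.ext (funext fun j => Matrix.nonsing_inv_mul _ (isUnit_iff_ne_zero.2 (hP0 j)))
    (Matrix.nonsing_inv_mul _ (isUnit_iff_ne_zero.2 hQ0))

theorem E_iv : Ph (P, Q) * Ph (iv P Q) = 1 := by
  rw [← Ph_mul, mul_iv hP0 hQ0, Ph_one]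

theorem iv_E : Ph (iv P Q) * Ph (P, Q) = 1 := by
  rw [← Ph_mul, iv_mul hP0 hQ0, Ph_one]

theorem cjL_eq (y : LA J B) : cjL P Q y = iv P Q * y * (P, Q) := rfl

theorem E_cjL (y : LA J B) : Ph (P, Q) * Ph (cjL P Q y) = Ph y * Ph (P, Q) := by
  rw [cjL_eq hP0 hQ0, Ph_mul, Ph_mul, ← Matrix.mul_assoc, ← Matrix.mul_assoc, E_iv hP0 hQ0,
    Matrix.one_mul]

end

/-- The type of a basis vector. -/
def cl : RR J B → Option J := Sum.elim (fun p => some p.2) (fun _ => none)

theorem Ph_scal (s : J → ℂ) :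
    Ph ((fun j => s j • (1 : M2), 0) : LA J B) = dg (cl : RR J B → Option J) (fun o => o.elim 0 s) := by
  unfold Ph dg
  ext a b
  rcases a with ⟨a, i⟩ | a <;> rcases b with ⟨b, j⟩ | b
  · rw [fromBlocks_apply₁₁, blockDiagonal_apply, diagonal_apply]
    by_cases hij : i = j
    · subst hij
      rw [if_pos rfl]
      change (s i • (1 : M2)) a b = _
      rw [Matrix.smul_apply, Matrix.one_apply]
      by_cases hab : a = b
      · subst hab
        rw [if_pos rfl, if_pos rfl]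
        simp [cl]
      · rw [if_neg hab, if_neg (by
          intro h
          apply hab
          simpa using h), smul_zero]
    · rw [if_neg hij, if_neg (by
        intro h
        apply hij
        have := Sum.inl.inj h
        exact congrArg Prod.snd this)]
  · rw [fromBlocks_apply₁₂, diagonal_apply_ne _ (by simp)]
    rfl
  · rw [fromBlocks_apply₂₁, diagonal_apply_ne _ (by simp)]
    rfl
  · rw [fromBlocks_apply₂₂, diagonal_apply]
    split_ifs <;> simp [cl]

/-- The CM endomorphisms are defined over the fields. -/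
structure IsCM (F K : Subfield ℂ) (P C : M2) : Prop where
  betti : ∀ a b, C a b ∈ F
  dr : ∀ a b, (P * C * P⁻¹) a b ∈ K
  tr : C.trace = 0

section

variable {P : J → M2} {Q : Matrix B B ℂ} (hP0 : ∀ j, (P j).det ≠ 0) (hQ0 : Q.det ≠ 0)
  {deg : B → D} (hdeg : ∀ a b, deg a ≠ deg b → Q a b = 0) {C : J → M2}
  (hC : ∀ j, IsCM F K (P j) (C j)) (hF : ∀ x ∈ F, IsAlgebraic ℚ x)
  (hK : ∀ x ∈ K, IsAlgebraic ℚ x) {t t' : (κ → RR J B) → ℂ} {μ : ℂ}
  (htF : ∀ I, t I ∈ F) (htK : ∀ I, t' I ∈ K) (ht : t = μ • pull (Ph (P, Q)) t')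
  {τ : κ → Option J} (hτ : ∀ I, t I ≠ 0 → ∀ k, cl (I k) = τ k)

/-- The stabilizer. -/
def stb (deg : B → D) (C : J → M2) (t : (κ → RR J B) → ℂ) : Submodule ℂ (LA J B) where
  carrier := {x | (∀ j, (x.1 j).trace = 0) ∧ (∀ j, C j ≠ 0 → ∃ c : ℂ, x.1 j = c • C j) ∧
    (∀ a b, deg a ≠ deg b → x.2 a b = 0) ∧ ∃ a : ℂ, act (Ph x) t = a • t}
  zero_mem' := by
    refine ⟨fun j => Matrix.trace_zero _ _, fun j _ => ⟨0, ?_⟩, fun _ _ _ => rfl, 0, ?_⟩
    · rw [zero_smul]
      rfl
    · have h1 : Ph (0 : LA J B) = 0 := by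
        rw [← zero_smul ℂ (0 : LA J B), Ph_smul, zero_smul]
      rw [h1, act_zero_left, zero_smul]
  add_mem' := by
    rintro x y ⟨h1, h2, h3, a, h4⟩ ⟨k1, k2, k3, b, k4⟩
    refine ⟨fun j => ?_, fun j hj => ?_, fun i j hij => ?_, a + b, ?_⟩
    · change (x.1 j + y.1 j).trace = 0
      rw [Matrix.trace_add, h1 j, k1 j, add_zero]
    · obtain ⟨c, hc⟩ := h2 j hj
      obtain ⟨d, hd⟩ := k2 j hj
      refine ⟨c + d, ?_⟩
      change x.1 j + y.1 j = _
      rw [hc, hd, add_smul]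
    · change x.2 i j + y.2 i j = 0
      rw [h3 i j hij, k3 i j hij, add_zero]
    · rw [Ph_add, act_add_left, h4, k4, add_smul]
  smul_mem' := by
    rintro c x ⟨h1, h2, h3, a, h4⟩
    refine ⟨fun j => ?_, fun j hj => ?_, fun i j hij => ?_, c * a, ?_⟩
    · change (c • x.1 j).trace = 0
      rw [Matrix.trace_smul, h1 j, smul_zero]
    · obtain ⟨e, he⟩ := h2 j hj
      refine ⟨c * e, ?_⟩
      change c • x.1 j = _
      rw [he, smul_smul]
    · change c * x.2 i j = 0
      rw [h3 i j hij, mul_zero]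
    · rw [Ph_smul, act_smul_left, h4, smul_smul]

theorem mem_stb {x : LA J B} : x ∈ stb deg C t ↔ (∀ j, (x.1 j).trace = 0) ∧
    (∀ j, C j ≠ 0 → ∃ c : ℂ, x.1 j = c • C j) ∧
    (∀ a b, deg a ≠ deg b → x.2 a b = 0) ∧ ∃ a : ℂ, act (Ph x) t = a • t := Iff.rfl

theorem blk_dvd {M : Matrix B B ℂ} : (∀ a b, deg a ≠ deg b → M a b = 0) ↔ Blk deg M := Iff.rfl

/-- The stabilizer of a line which is defined over a field. -/
theorem line_map {R : Type*} [Fintype R] [DecidableEq R] {u : (κ → R) → ℂ} (hu : ∀ I, u I ∈ F)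
    {X : Matrix R R ℂ} {a : ℂ} (h : act X u = a • u) (f : ℂ →ₗ[F] ℂ) :
    ∃ b : ℂ, act (X.map f) u = b • u := by
  have h1 : DefOver F (Submodule.span ℂ {u}) := by
    rw [DefOver, Submodule.span_le, Set.singleton_subset_iff]
    exact Submodule.subset_span ⟨Submodule.mem_span_singleton_self u, hu⟩
  have h2 := stab_map h1 (M := 1) (fun x y => by
    rw [Matrix.one_apply]
    split_ifs
    · exact F.one_mem
    · exact F.zero_mem) f (S := X) (fun v hv => by
      obtain ⟨c, rfl⟩ := Submodule.mem_span_singleton.1 hv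
      rw [Matrix.one_mul, act_smul_right, h]
      exact Submodule.smul_mem _ _ (Submodule.smul_mem _ _ (Submodule.mem_span_singleton_self u)))
    u (Submodule.mem_span_singleton_self u)
  rw [Matrix.one_mul] at h2
  obtain ⟨b, hb⟩ := Submodule.mem_span_singleton.1 h2
  exact ⟨b, hb.symm⟩

theorem pull_inj (hP0 : ∀ j, (P j).det ≠ 0) (hQ0 : Q.det ≠ 0) {u v : (κ → RR J B) → ℂ}
    (h : pull (Ph (P, Q)) u = pull (Ph (P, Q)) v) : u = v := by
  have h1 : ∀ w : (κ → RR J B) → ℂ, pull (Ph (iv P Q)) (pull (Ph (P, Q)) w) = w := by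
    intro w
    rw [pull_pull, E_iv hP0 hQ0, pull_one]
  rw [← h1 u, h, h1]

include hP0 hQ0 hdeg hC hF hK htF htK ht

theorem stb_sub : SubL F K P Q deg C (stb deg C t) := by
  have hbQ : Blk deg Q := hdeg
  have hbQ' : Blk deg Q⁻¹ := blk_inv hbQ (Matrix.mul_nonsing_inv _ (isUnit_iff_ne_zero.2 hQ0))
    (Matrix.nonsing_inv_mul _ (isUnit_iff_ne_zero.2 hQ0))
  refine ⟨fun x hx => (mem_stb.1 hx).1, fun x hx => (mem_stb.1 hx).2.1,
    fun x hx => (mem_stb.1 hx).2.2.1, ?_, ?_, ?_⟩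
  · intro x hx y hy
    obtain ⟨h1, h2, h3, a, h4⟩ := mem_stb.1 hx
    obtain ⟨k1, k2, k3, b, k4⟩ := mem_stb.1 hy
    refine mem_stb.2 ⟨fun j => tr_br _ _, fun j hj => ?_, ?_, 0, ?_⟩
    · obtain ⟨c, hc⟩ := h2 j hj
      obtain ⟨d, hd⟩ := k2 j hj
      refine ⟨0, ?_⟩
      change br (x.1 j) (y.1 j) = _
      unfold br
      rw [hc, hd, zero_smul, Matrix.smul_mul, Matrix.mul_smul, Matrix.smul_mul, Matrix.mul_smul,
        smul_comm, sub_self]
    · exact blk_sub (blk_mul h3 k3) (blk_mul k3 h3)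
    · rw [Ph_br, zero_smul]
      exact comm_kill k4 h4
  · intro f x hx
    obtain ⟨h1, h2, h3, a, h4⟩ := mem_stb.1 hx
    refine mem_stb.2 ⟨fun j => ?_, fun j hj => ?_, fun i j hij => ?_, ?_⟩
    · change ((x.1 j).map f).trace = 0
      rw [tr_map, h1 j, map_zero]
    · obtain ⟨c, hc⟩ := h2 j hj
      refine ⟨f c, ?_⟩
      change (x.1 j).map f = _
      rw [hc]
      ext a b
      rw [Matrix.map_apply, Matrix.smul_apply, Matrix.smul_apply, smul_eq_mul, smul_eq_mul,
        lin_mul' f ((hC j).betti a b)]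
    · change f (x.2 i j) = 0
      rw [h3 i j hij, map_zero]
    · rw [Ph_map _ (map_zero f)]
      exact line_map htF h4 f
  · intro f y hy
    obtain ⟨h1, h2, h3, a, h4⟩ := mem_stb.1 hy
    refine mem_stb.2 ⟨fun j => ?_, fun j hj => ?_, ?_, ?_⟩
    · have h5 := h1 j
      change (cj (P j) (y.1 j)).trace = 0 at h5
      change (cj (P j) ((y.1 j).map f)).trace = 0
      rw [tr_cj (hP0 j)] at h5 ⊢
      rw [tr_map, h5, map_zero]
    · obtain ⟨c, hc⟩ := h2 j hj
      change cj (P j) (y.1 j) = _ at hc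
      refine ⟨f c, ?_⟩
      change cj (P j) ((y.1 j).map f) = _
      have h5 : y.1 j = c • (P j * C j * (P j)⁻¹) := by
        rw [← inv_cj (hP0 j) (y.1 j), hc, Matrix.mul_smul, Matrix.smul_mul]
      have h6 : (y.1 j).map f = f c • (P j * C j * (P j)⁻¹) := by
        rw [h5]
        ext a b
        rw [Matrix.map_apply, Matrix.smul_apply, Matrix.smul_apply, smul_eq_mul, smul_eq_mul,
          lin_mul' f ((hC j).dr a b)]
      rw [h6, map_smul, cj_inv (hP0 j)]
    · have h5 : Blk deg y.2 := by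
        have h6 : y.2 = Q * (Q⁻¹ * y.2 * Q) * Q⁻¹ := by
          simp only [Matrix.mul_assoc]
          rw [Matrix.mul_nonsing_inv _ (isUnit_iff_ne_zero.2 hQ0), Matrix.mul_one,
            ← Matrix.mul_assoc, Matrix.mul_nonsing_inv _ (isUnit_iff_ne_zero.2 hQ0),
            Matrix.one_mul]
        rw [h6]
        exact blk_mul (blk_mul hbQ h3) hbQ'
      have h7 : Blk deg (y.2.map f) := fun i j hij => by
        rw [Matrix.map_apply, h5 i j hij, map_zero]
      exact blk_mul (blk_mul hbQ' h7) hbQ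
    · by_cases hμ : μ = 0
      · refine ⟨0, ?_⟩
        rw [ht, hμ, zero_smul, act_zero_right, smul_zero]
      have h5 : act (Ph y) t' = a • t' := by
        apply pull_inj hP0 hQ0
        rw [← act_pull (E_cjL hP0 hQ0 y), pull_smul]
        rw [ht, act_smul_right, smul_comm] at h4
        exact smul_right_injective _ hμ h4
      obtain ⟨b, hb⟩ := line_map htK h5 f
      refine ⟨b, ?_⟩
      rw [ht, act_smul_right, act_pull (E_cjL hP0 hQ0 (mp f y)), Ph_map _ (map_zero f), hb,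
        pull_smul, smul_comm]

/-- The derivatives of the periods lie in the stabilizer. -/
theorem dL_mem (hτ : ∀ I, t I ≠ 0 → ∀ k, cl (I k) = τ k) (δ : Derivation ℚ ℂ ℂ) :
    dL δ P Q ∈ stb deg C t := by
  have hbQ : Blk deg Q := hdeg
  have hbQ' : Blk deg Q⁻¹ := blk_inv hbQ (Matrix.mul_nonsing_inv _ (isUnit_iff_ne_zero.2 hQ0))
    (Matrix.nonsing_inv_mul _ (isUnit_iff_ne_zero.2 hQ0))
  refine mem_stb.2 ⟨fun j => tr_dM δ (P j), fun j hj => ?_, ?_, ?_⟩
  · -- the derivative commutes with the complex multiplication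
    obtain ⟨C', hC'⟩ : ∃ C', C' = P j * C j * (P j)⁻¹ := ⟨_, rfl⟩
    have hu : IsUnit (P j).det := isUnit_iff_ne_zero.2 (hP0 j)
    have h1 : P j * C j = C' * P j := by
      rw [hC', Matrix.mul_assoc, Matrix.nonsing_inv_mul _ hu, Matrix.mul_one]
    have hCδ : ∀ a b, δ (C j a b) = 0 := fun a b => deriv_alg δ (hF _ ((hC j).betti a b))
    have hC'δ : ∀ a b, δ (C' a b) = 0 := fun a b => deriv_alg δ (hK _ (by
      rw [hC']
      exact (hC j).dr a b))
    have h2 : (P j).map δ * C j = C' * (P j).map δ := by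
      ext a b
      have h3 := congrArg (fun M : M2 => δ (M a b)) h1
      simp only [m2_mul, map_add, Derivation.leibniz, hCδ, hC'δ, smul_zero, zero_add, add_zero,
        smul_eq_mul] at h3
      rw [m2_mul, m2_mul, Matrix.map_apply, Matrix.map_apply, Matrix.map_apply, Matrix.map_apply]
      linear_combination h3
    have h3 : br (C j) ((P j)⁻¹ * (P j).map δ) = 0 := by
      have h4 : C j * (P j)⁻¹ = (P j)⁻¹ * C' := by
        rw [hC', ← Matrix.mul_assoc, ← Matrix.mul_assoc, Matrix.nonsing_inv_mul _ hu,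
          Matrix.one_mul]
      unfold br
      rw [← Matrix.mul_assoc, h4, Matrix.mul_assoc, Matrix.mul_assoc, h2, sub_self]
    refine prop_of_comm (hC j).tr (tr_dM δ (P j)) hj ?_
    have h5 : br (C j) (dM δ (P j)) = br (C j) ((P j)⁻¹ * (P j).map δ) := by
      unfold dM br
      rw [Matrix.mul_sub, Matrix.sub_mul, Matrix.mul_smul, Matrix.smul_mul, Matrix.mul_one,
        Matrix.one_mul]
      abel
    exact h5.trans h3
  · have h1 : Blk deg (Q.map δ) := fun i j hij => by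
      rw [Matrix.map_apply, hbQ i j hij, map_zero]
    exact blk_mul hbQ' h1
  · obtain ⟨X, hX⟩ : ∃ X : LA J B, X = (fun j => (P j)⁻¹ * (P j).map δ, Q⁻¹ * Q.map δ) := ⟨_, rfl⟩
    obtain ⟨s, hs⟩ : ∃ s : J → ℂ, s = fun j => ((P j)⁻¹ * (P j).map δ).trace / 2 := ⟨_, rfl⟩
    have h1 : dL δ P Q = X - (fun j => s j • (1 : M2), 0) := by
      rw [hX, hs]
      refine Prod.ext rfl ?_
      exact (sub_zero _).symm
    have h2 : Ph (P, Q) * Ph X = (Ph (P, Q)).map δ := by
      have h3 : ((P, Q) : LA J B) * X = mp δ (P, Q) := by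
        rw [hX]
        refine Prod.ext (funext fun j => ?_) ?_
        · change P j * ((P j)⁻¹ * (P j).map δ) = (P j).map δ
          rw [← Matrix.mul_assoc, Matrix.mul_nonsing_inv _ (isUnit_iff_ne_zero.2 (hP0 j)),
            Matrix.one_mul]
        · change Q * (Q⁻¹ * Q.map δ) = Q.map δ
          rw [← Matrix.mul_assoc, Matrix.mul_nonsing_inv _ (isUnit_iff_ne_zero.2 hQ0),
            Matrix.one_mul]
      rw [← Ph_mul, h3, Ph_map _ (map_zero δ)]
    have h3 := deriv_pull δ h2 (c := t') (fun J => deriv_alg δ (hK _ (htK J)))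
    obtain ⟨a, ha⟩ : ∃ a : ℂ, act (Ph X) t = a • t := by
      by_cases hμ : μ = 0
      · refine ⟨0, ?_⟩
        rw [ht, hμ, zero_smul, act_zero_right, smul_zero]
      refine ⟨-(δ μ / μ), ?_⟩
      rw [ht, act_smul_right, ← h3]
      funext I
      have h4 : δ (t I) = 0 := deriv_alg δ (hF _ (htF I))
      rw [ht, Pi.smul_apply, smul_eq_mul, Derivation.leibniz, smul_eq_mul, smul_eq_mul] at h4
      simp only [Pi.smul_apply, smul_eq_mul]
      field_simp
      linear_combination h4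
    refine ⟨a - ∑ k, (τ k).elim 0 s, ?_⟩
    rw [h1, Ph_sub, act_sub_left, ha, Ph_scal, act_dg _ hτ, sub_smul]

end

end Pool.Agent.TH128.GZ
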