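import Mathlib
import Pool.Agent.TH128.GZ.Stab

/-!
# The elliptic curves which are not exceptional kill the de Rham-Betti classes
-/

set_option linter.unusedSectionVars false

namespace Pool.Agent.TH128.GZ

open Matrix Pool.Agent.TH119.DR Pool.Agent.W437.HK

variable {F K : Subfield ℂ} {J B D κ : Type*} [Fintype B] [DecidableEq B] [Fintype J]
  [DecidableEq J] [Fintype κ] [DecidableEq κ] [DecidableEq D]

/-- A single coordinate. -/
def sg (j : J) : M2 →ₗ[ℂ] LA J B where
  toFun s := (Pi.single j s, 0)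
  map_add' x y := by
    refine Prod.ext ?_ (add_zero _).symm
    exact Pi.single_add (f := fun _ => M2) j x y
  map_smul' c x := by
    refine Prod.ext ?_ (smul_zero _).symm
    exact Pi.single_smul (f := fun _ => M2) j c x

theorem sg_apply (j : J) (s : M2) : (sg j s : LA J B) = (Pi.single j s, 0) := rfl

theorem sg_br (j : J) (x y : M2) : (sg j (br x y) : LA J B) = br (sg j x) (sg j y) := by
  refine Prod.ext ?_ ?_
  · funext i
    change (Pi.single j (br x y) : J → M2) i =
      br ((Pi.single j x : J → M2) i) ((Pi.single j y : J → M2) i)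
    by_cases hij : i = j
    · subst hij
      rw [Pi.single_eq_same, Pi.single_eq_same, Pi.single_eq_same]
    · rw [Pi.single_eq_of_ne hij, Pi.single_eq_of_ne hij]
      unfold br
      rw [Matrix.zero_mul, Matrix.mul_zero, sub_zero]
  · change (0 : Matrix B B ℂ) = br 0 0
    unfold br
    rw [Matrix.zero_mul, sub_zero]

theorem exists_br_ne {x : M2} (hx : x.trace = 0) (h0 : x ≠ 0) :
    ∃ s : M2, s.trace = 0 ∧ br s x ≠ 0 := by
  by_contra hcon
  push Not at hcon
  obtain ⟨c, hc⟩ := scalar_of_comm (m := x) fun s hs => by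
    have := hcon s hs
    unfold br at this
    exact (sub_eq_zero.1 this).symm
  rw [hc, Matrix.trace_smul, Matrix.trace_one, Fintype.card_fin, smul_eq_mul] at hx
  have hc0 : c = 0 := by
    have h11 : c * (2 : ℂ) = 0 := by exact_mod_cast hx
    exact (mul_eq_zero.1 h11).resolve_right two_ne_zero
  exact h0 (by rw [hc, hc0, zero_smul])

section

variable {P : J → M2} {Q : Matrix B B ℂ} (hP0 : ∀ j, (P j).det ≠ 0) (hQ0 : Q.det ≠ 0)
  {deg : B → D} {C : J → M2} (hF : ∀ x ∈ F, IsAlgebraic ℚ x)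
  (hK : ∀ x ∈ K, IsAlgebraic ℚ x) {H : Submodule ℂ (LA J B)} (hH : SubL F K P Q deg C H)
  (hdet : ∀ i j, (P i).det = (P j).det)
  (hI1 : ∀ i, C i = 0 → Indep1 (P i)) (hI2 : ∀ i j, C i = 0 → C j = 0 → i ≠ j → Indep2 (P i) (P j))
  (hδ : ∀ δ, dL δ P Q ∈ H)

include hP0 hQ0 hF hK hH hdet hI1 hI2 hδ

/-- A Lie algebra contains the factors which are not exceptional. -/
theorem single_mem {j : J} (hj : C j = 0) (hE : ¬ Exc F K Q deg (P j)) {s : M2}
    (hs : s.trace = 0) : sg j s ∈ H := by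
  have hne : ∀ i, C i = 0 → ∃ x ∈ H, x.1 i ≠ 0 := by
    intro i hi
    obtain ⟨δ, hδ'⟩ := exists_dM_ne (hP0 i) (hI1 i hi)
    exact ⟨_, hδ δ, hδ'⟩
  -- the projection
  obtain ⟨x, hx, hx2, hx1⟩ : ∃ x ∈ H, x.2 = 0 ∧ x.1 j ≠ 0 := by
    by_contra hcon
    push Not at hcon
    apply hE
    refine ⟨H.map (res j), ⟨?_, fun _ _ _ h => absurd rfl h, ?_, ?_, ?_, ?_⟩, ?_, ?_⟩
    · rintro _ ⟨x, hx, rfl⟩ _
      exact hH.tr x hx j
    · rintro _ ⟨x, hx, rfl⟩
      exact hH.blk x hx
    · rintro _ ⟨x, hx, rfl⟩ _ ⟨y, hy, rfl⟩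
      exact ⟨_, hH.lie x hx y hy, res_br j x y⟩
    · rintro f _ ⟨x, hx, rfl⟩
      exact ⟨_, hH.betti f x hx, res_mp j f x⟩
    · rintro f y ⟨x, hx, hxy⟩
      have h1 : cjL P Q (icj P Q x) ∈ H := by rwa [cjL_icj hP0 hQ0]
      refine ⟨_, hH.dr f _ h1, ?_⟩
      have e1 : x.1 j = cj (P j) (y.1 ()) := congrFun (congrArg Prod.fst hxy) ()
      have e2 : x.2 = Q⁻¹ * y.2 * Q := congrArg Prod.snd hxy
      refine Prod.ext (funext fun _ => ?_) ?_
      · change cj (P j) ((P j * x.1 j * (P j)⁻¹).map f) = cj (P j) ((y.1 ()).map f)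
        rw [e1, inv_cj (hP0 j)]
      · change Q⁻¹ * (Q * x.2 * Q⁻¹).map f * Q = Q⁻¹ * y.2.map f * Q
        have hu : IsUnit Q.det := isUnit_iff_ne_zero.2 hQ0
        have e3 : Q * x.2 * Q⁻¹ = y.2 := by
          rw [e2]
          simp only [Matrix.mul_assoc]
          rw [Matrix.mul_nonsing_inv _ hu, Matrix.mul_one, ← Matrix.mul_assoc,
            Matrix.mul_nonsing_inv _ hu, Matrix.one_mul]
        rw [e3]
    · intro δ
      exact ⟨_, hδ δ, rfl⟩
    · rintro _ ⟨x, hx, rfl⟩ h2
      funext _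
      exact hcon x hx h2
  -- a commutator
  obtain ⟨s', hs', hsx⟩ := exists_br_ne (hH.tr x hx j) hx1
  obtain ⟨y, hy, hyj, hyi⟩ := hH.exists_single hP0 hQ0 hF hK hdet hI1 hI2 hne hj hs'
  have hmem : sg j (br s' (x.1 j)) ∈ H := by
    have h1 := hH.lie y hy x hx
    have h2 : br y x = sg j (br s' (x.1 j)) := by
      refine Prod.ext (funext fun i => ?_) ?_
      · change br (y.1 i) (x.1 i) = (Pi.single j (br s' (x.1 j)) : J → M2) i
        by_cases hij : i = j
        · subst hij
          rw [Pi.single_eq_same, hyj]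
        · rw [Pi.single_eq_of_ne hij]
          by_cases hi : C i = 0
          · rw [hyi i hi hij]
            unfold br
            rw [Matrix.zero_mul, Matrix.mul_zero, sub_zero]
          · obtain ⟨c, hc⟩ := hH.cm x hx i hi
            obtain ⟨d, hd⟩ := hH.cm y hy i hi
            unfold br
            rw [hc, hd, Matrix.smul_mul, Matrix.mul_smul, Matrix.smul_mul, Matrix.mul_smul,
              smul_comm, sub_self]
      · change y.2 * x.2 - x.2 * y.2 = 0
        rw [hx2, Matrix.mul_zero, Matrix.zero_mul, sub_zero]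
    rwa [h2] at h1
  have hsub : Sub1 F K (P j) (H.comap (sg j)) := by
    refine ⟨?_, ?_, ?_, ?_⟩
    · intro x hx
      have h1 := hH.tr _ hx j
      have h2 : (sg j x : LA J B).1 j = x := Pi.single_eq_same (M := fun _ => M2) j x
      rwa [h2] at h1
    · intro x hx y hy
      rw [Submodule.mem_comap, sg_br]
      exact hH.lie _ hx _ hy
    · intro f x hx
      have h1 := hH.betti f _ hx
      rw [Submodule.mem_comap]
      have h2 : mp f (sg j x : LA J B) = sg j (x.map f) := by
        refine Prod.ext (funext fun i => ?_) (map_zero' f)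
        change ((Pi.single j x : J → M2) i).map f = (Pi.single j (x.map f) : J → M2) i
        by_cases hij : i = j
        · subst hij
          rw [Pi.single_eq_same, Pi.single_eq_same]
        · rw [Pi.single_eq_of_ne hij, Pi.single_eq_of_ne hij, map_zero']
      rwa [← h2]
    · intro f y hy
      rw [Submodule.mem_comap] at hy ⊢
      have h1 : ∀ z : M2, cjL P Q (sg j z) = sg j (cj (P j) z) := by
        intro z
        refine Prod.ext (funext fun i => ?_) ?_
        · change cj (P i) ((Pi.single j z : J → M2) i) = (Pi.single j (cj (P j) z) : J → M2) i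
          by_cases hij : i = j
          · subst hij
            rw [Pi.single_eq_same, Pi.single_eq_same]
          · rw [Pi.single_eq_of_ne hij, Pi.single_eq_of_ne hij, map_zero]
        · change Q⁻¹ * (0 : Matrix B B ℂ) * Q = 0
          rw [Matrix.mul_zero, Matrix.zero_mul]
      have h2 : mp f (sg j y : LA J B) = sg j (y.map f) := by
        refine Prod.ext (funext fun i => ?_) (map_zero' f)
        change ((Pi.single j y : J → M2) i).map f = (Pi.single j (y.map f) : J → M2) i
        by_cases hij : i = j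
        · subst hij
          rw [Pi.single_eq_same, Pi.single_eq_same]
        · rw [Pi.single_eq_of_ne hij, Pi.single_eq_of_ne hij, map_zero']
      rw [← h1] at hy ⊢
      have h3 := hH.dr f _ hy
      rwa [h2] at h3
  exact sub1_top hF hK (hI1 j hj) (hP0 j) hsub (x₀ := br s' (x.1 j)) hmem hsx hs

end

section

variable {P : J → M2} {Q : Matrix B B ℂ} (hP0 : ∀ j, (P j).det ≠ 0) (hQ0 : Q.det ≠ 0)
  {deg : B → D} (hdeg : ∀ a b, deg a ≠ deg b → Q a b = 0) {C : J → M2}
  (hC : ∀ j, IsCM F K (P j) (C j)) (hF : ∀ x ∈ F, IsAlgebraic ℚ x)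
  (hK : ∀ x ∈ K, IsAlgebraic ℚ x) {t t' : (κ → RR J B) → ℂ} {μ : ℂ}
  (htF : ∀ I, t I ∈ F) (htK : ∀ I, t' I ∈ K) (ht : t = μ • pull (Ph (P, Q)) t')
  {τ : κ → Option J} (hτ : ∀ I, t I ≠ 0 → ∀ k, cl (I k) = τ k)
  (hdet : ∀ i j, (P i).det = (P j).det)
  (hI1 : ∀ i, C i = 0 → Indep1 (P i)) (hI2 : ∀ i j, C i = 0 → C j = 0 → i ≠ j → Indep2 (P i) (P j))

include hP0 hQ0 hdeg hC hF hK htF htK ht hτ hdet hI1 hI2

/-- The class is killed by the factors which are not exceptional. -/
theorem kill {j : J} (hj : C j = 0) (hE : ¬ Exc F K Q deg (P j)) {s : M2} (hs : s.trace = 0) :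
    act (Ph (sg j s : LA J B)) t = 0 := by
  have hH := stb_sub hP0 hQ0 hdeg hC hF hK htF htK ht
  have hδ := dL_mem hP0 hQ0 hdeg hC hF hK htF htK ht hτ
  have h1 : ∀ a b : M2, a.trace = 0 → b.trace = 0 → act (Ph (sg j (br a b) : LA J B)) t = 0 := by
    intro a b ha hb
    obtain ⟨_, _, _, u, hu⟩ := mem_stb.1
      (single_mem hP0 hQ0 hF hK hH hdet hI1 hI2 hδ hj hE ha)
    obtain ⟨_, _, _, v, hv⟩ := mem_stb.1
      (single_mem hP0 hQ0 hF hK hH hdet hI1 hI2 hδ hj hE hb)
    rw [sg_br, Ph_br]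
    exact comm_kill hv hu
  obtain ⟨a, b, c, d, ha, hb, hc, hd, rfl⟩ := sum_br hs
  rw [map_add, Ph_add, act_add_left, h1 a b ha hb, h1 c d hc hd, add_zero]

end

end Pool.Agent.TH128.GZ
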