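import Mathlib
import Pool.Agent.TH128.GZ.Kill

/-!
# Matrices acting on the slots, and gluing
-/

set_option linter.unusedSectionVars false

namespace Pool.Agent.TH128.GZ

open Matrix Pool.Agent.TH119.DR Pool.Agent.W437.HK

section dep

variable {β κ : Type*} [Fintype β] [DecidableEq β] [Fintype κ] [DecidableEq κ]

/-- The action of matrices which depend on the slot. -/
def actd (X : κ → Matrix β β ℂ) (c : (κ → β) → ℂ) : (κ → β) → ℂ :=
  fun I => ∑ k, ∑ j, X k j (I k) * c (Function.update I k j)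

/-- The change of coordinates with matrices which depend on the slot. -/
def pulld (E : κ → Matrix β β ℂ) (c : (κ → β) → ℂ) : (κ → β) → ℂ :=
  fun I => ∑ J : κ → β, (∏ k, E k (J k) (I k)) * c J

theorem evalF_actd (X : κ → Matrix β β ℂ) (c : (κ → β) → ℂ) (x : κ → β → ℂ) :
    evalF (actd X c) x = ∑ k, evalF c (Function.update x k (X k *ᵥ (x k))) := by
  classical
  simp only [evalF, actd, Finset.sum_mul]
  rw [Finset.sum_comm]
  refine Finset.sum_congr rfl fun k _ => ?_
  have h1 : ∀ I : κ → β, c I * ∏ l, Function.update x k (X k *ᵥ (x k)) l (I l) =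
      ∑ i, X k (I k) i * c I * (x k i * ∏ l ∈ Finset.univ.erase k, x l (I l)) := by
    intro I
    rw [← Finset.mul_prod_erase _ _ (Finset.mem_univ k), Function.update_self]
    have h2 : ∏ l ∈ Finset.univ.erase k, Function.update x k (X k *ᵥ (x k)) l (I l) =
        ∏ l ∈ Finset.univ.erase k, x l (I l) := by
      refine Finset.prod_congr rfl fun l hl => ?_
      rw [Function.update_of_ne (Finset.ne_of_mem_erase hl)]
    rw [h2]
    simp only [Matrix.mulVec, dotProduct, Finset.sum_mul, Finset.mul_sum]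
    refine Finset.sum_congr rfl fun i _ => by ring
  rw [Finset.sum_congr rfl (fun I _ => h1 I)]
  have h3 : ∀ I : κ → β, ∏ l, x l (I l) = x k (I k) * ∏ l ∈ Finset.univ.erase k, x l (I l) :=
    fun I => (Finset.mul_prod_erase _ _ (Finset.mem_univ k)).symm
  simp only [h3]
  rw [← Finset.sum_product', ← Finset.sum_product']
  refine Finset.sum_bij' (fun p _ => (Function.update p.1 k p.2, p.1 k))
    (fun p _ => (Function.update p.1 k p.2, p.1 k)) ?_ ?_ ?_ ?_ ?_
  · intro p _; simp
  · intro p _; simp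
  · intro p _; simp
  · intro p _; simp
  · intro p _
    simp only [Function.update_self]
    have h4 : ∏ l ∈ Finset.univ.erase k, x l (Function.update p.1 k p.2 l) =
        ∏ l ∈ Finset.univ.erase k, x l (p.1 l) := by
      refine Finset.prod_congr rfl fun l hl => ?_
      rw [Function.update_of_ne (Finset.ne_of_mem_erase hl)]
    rw [h4]

theorem evalF_pulld (E : κ → Matrix β β ℂ) (c : (κ → β) → ℂ) (x : κ → β → ℂ) :
    evalF (pulld E c) x = evalF c (fun k => E k *ᵥ x k) := by
  unfold evalF pulld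
  simp only [Finset.sum_mul]
  rw [Finset.sum_comm]
  refine Finset.sum_congr rfl fun J _ => ?_
  have h1 : ∏ k, (E k *ᵥ x k) (J k) = ∑ I : κ → β, ∏ k, E k (J k) (I k) * x k (I k) := by
    simp only [mulVec, dotProduct]
    rw [Finset.prod_univ_sum, Fintype.piFinset_univ]
  rw [h1, Finset.mul_sum]
  refine Finset.sum_congr rfl fun I _ => ?_
  rw [Finset.prod_mul_distrib]
  ring

theorem actd_pulld {E X Y : κ → Matrix β β ℂ} (h : ∀ k, E k * X k = Y k * E k)
    (c : (κ → β) → ℂ) : actd X (pulld E c) = pulld E (actd Y c) := by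
  refine evalF_ext fun x => ?_
  rw [evalF_actd, evalF_pulld, evalF_actd]
  refine Finset.sum_congr rfl fun k _ => ?_
  rw [evalF_pulld]
  congr 1
  funext l
  by_cases hl : l = k
  · subst hl
    rw [Function.update_self, Function.update_self, mulVec_mulVec, mulVec_mulVec, h]
  · rw [Function.update_of_ne hl, Function.update_of_ne hl]

theorem pulld_pulld (E E' : κ → Matrix β β ℂ) (c : (κ → β) → ℂ) :
    pulld E' (pulld E c) = pulld (fun k => E k * E' k) c := by
  refine evalF_ext fun x => ?_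
  rw [evalF_pulld, evalF_pulld, evalF_pulld]
  congr 1
  funext k
  rw [mulVec_mulVec]

theorem pulld_one (c : (κ → β) → ℂ) : pulld (fun _ => (1 : Matrix β β ℂ)) c = c := by
  refine evalF_ext fun x => ?_
  rw [evalF_pulld]
  congr 1
  funext k
  rw [one_mulVec]

theorem act_eq_actd (X : Matrix β β ℂ) (c : (κ → β) → ℂ) : act X c = actd (fun _ => X) c := rfl

theorem pull_eq_pulld (E : Matrix β β ℂ) (c : (κ → β) → ℂ) : pull E c = pulld (fun _ => E) c := rfl

/-- The change of coordinates as a linear map. -/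
def pulldL (E : κ → Matrix β β ℂ) : ((κ → β) → ℂ) →ₗ[ℂ] ((κ → β) → ℂ) where
  toFun := pulld E
  map_add' c d := by
    funext I
    simp [pulld, mul_add, Finset.sum_add_distrib]
  map_smul' a c := by
    funext I
    simp only [pulld, Pi.smul_apply, smul_eq_mul, Finset.mul_sum, RingHom.id_apply]
    exact Finset.sum_congr rfl fun J _ => by ring

theorem pulldL_apply (E : κ → Matrix β β ℂ) (c : (κ → β) → ℂ) : pulldL E c = pulld E c := rfl

end dep

section glue

variable {J B κ₀ κ₁ : Type*} [Fintype B] [DecidableEq B] [Fintype J] [DecidableEq J]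
  [Fintype κ₀] [DecidableEq κ₀] [Fintype κ₁] [DecidableEq κ₁] (τ : κ₁ → J)

/-- The type of the slots. -/
def ty : κ₀ ⊕ κ₁ → Option J := Sum.elim (fun _ => none) (fun k => some (τ k))

/-- Gluing indices. -/
def glue (I : κ₀ → B) (I' : κ₁ → Fin 2) : κ₀ ⊕ κ₁ → RR J B :=
  Sum.elim (fun k => Sum.inr (I k)) (fun k => Sum.inl (I' k, τ k))

theorem glue_inl (I : κ₀ → B) (I' : κ₁ → Fin 2) (k : κ₀) :
    glue τ I I' (Sum.inl k) = Sum.inr (I k) := rfl

theorem glue_inr (I : κ₀ → B) (I' : κ₁ → Fin 2) (k : κ₁) :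
    glue τ I I' (Sum.inr k) = Sum.inl (I' k, τ k) := rfl

theorem glue_inj {I₁ I₂ : κ₀ → B} {I₁' I₂' : κ₁ → Fin 2} :
    glue τ I₁ I₁' = glue τ I₂ I₂' ↔ I₁ = I₂ ∧ I₁' = I₂' := by
  constructor
  · intro h
    refine ⟨funext fun k => ?_, funext fun k => ?_⟩
    · exact Sum.inr.inj (congrFun h (Sum.inl k))
    · exact congrArg Prod.fst (Sum.inl.inj (congrFun h (Sum.inr k)))
  · rintro ⟨rfl, rfl⟩
    rfl

theorem cl_glue (I : κ₀ → B) (I' : κ₁ → Fin 2) (k : κ₀ ⊕ κ₁) :
    cl (glue τ I I' k) = ty τ k := by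
  rcases k with k | k <;> rfl

theorem exists_glue {I : κ₀ ⊕ κ₁ → RR J B} (h : ∀ k, cl (I k) = ty τ k) :
    ∃ (I₀ : κ₀ → B) (I₁ : κ₁ → Fin 2), I = glue τ I₀ I₁ := by
  have h0 : ∀ k : κ₀, ∃ b : B, I (Sum.inl k) = Sum.inr b := by
    intro k
    have h1 := h (Sum.inl k)
    rcases hI : I (Sum.inl k) with p | b
    · rw [hI] at h1
      simp [cl, ty] at h1
    · exact ⟨b, rfl⟩
  have h1 : ∀ k : κ₁, ∃ a : Fin 2, I (Sum.inr k) = Sum.inl (a, τ k) := by
    intro k
    have h1 := h (Sum.inr k)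
    rcases hI : I (Sum.inr k) with ⟨a, j⟩ | b
    · rw [hI] at h1
      simp only [cl, ty, Sum.elim_inl, Sum.elim_inr, Option.some.injEq] at h1
      exact ⟨a, by rw [h1]⟩
    · rw [hI] at h1
      simp [cl, ty] at h1
  choose I₀ hI₀ using h0
  choose I₁ hI₁ using h1
  refine ⟨I₀, I₁, funext fun k => ?_⟩
  rcases k with k | k
  · exact hI₀ k
  · exact hI₁ k

/-- The extension of a tensor to a form on the sum of everything. -/
def ext (T : (κ₀ → B) → (κ₁ → Fin 2) → ℂ) (I : κ₀ ⊕ κ₁ → RR J B) : ℂ :=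
  ∑ I₀, ∑ I₁, if I = glue τ I₀ I₁ then T I₀ I₁ else 0

theorem ext_glue (T : (κ₀ → B) → (κ₁ → Fin 2) → ℂ) (I : κ₀ → B) (I' : κ₁ → Fin 2) :
    ext τ T (glue τ I I') = T I I' := by
  unfold ext
  rw [Finset.sum_eq_single I, Finset.sum_eq_single I']
  · rw [if_pos rfl]
  · intro b _ hb
    rw [if_neg]
    rw [glue_inj]
    rintro ⟨_, h⟩
    exact hb h.symm
  · intro h
    exact absurd (Finset.mem_univ _) h
  · intro b _ hb
    refine Finset.sum_eq_zero fun c _ => ?_
    rw [if_neg]
    rw [glue_inj]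
    rintro ⟨h, _⟩
    exact hb h.symm
  · intro h
    exact absurd (Finset.mem_univ _) h

theorem ext_ne {T : (κ₀ → B) → (κ₁ → Fin 2) → ℂ} {I : κ₀ ⊕ κ₁ → RR J B} (h : ext τ T I ≠ 0) :
    ∃ I₀ I₁, I = glue τ I₀ I₁ := by
  by_contra hcon
  push Not at hcon
  apply h
  unfold ext
  exact Finset.sum_eq_zero fun a _ => Finset.sum_eq_zero fun b _ => if_neg (hcon a b)

theorem ext_type {T : (κ₀ → B) → (κ₁ → Fin 2) → ℂ} (I : κ₀ ⊕ κ₁ → RR J B) (h : ext τ T I ≠ 0)
    (k : κ₀ ⊕ κ₁) : cl (I k) = ty τ k := by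
  obtain ⟨I₀, I₁, rfl⟩ := ext_ne τ h
  exact cl_glue τ I₀ I₁ k

theorem ext_prop {p : ℂ → Prop} (h0 : p 0) {T : (κ₀ → B) → (κ₁ → Fin 2) → ℂ}
    (h : ∀ a b, p (T a b)) (I : κ₀ ⊕ κ₁ → RR J B) : p (ext τ T I) := by
  by_cases hI : ext τ T I = 0
  · rw [hI]
    exact h0
  · obtain ⟨I₀, I₁, rfl⟩ := ext_ne τ hI
    rw [ext_glue]
    exact h _ _

/-- The action in terms of the tensor. -/
theorem act_glue (x : LA J B) (t : (κ₀ ⊕ κ₁ → RR J B) → ℂ) (I : κ₀ → B) (I' : κ₁ → Fin 2) :
    act (Ph x) t (glue τ I I') = act x.2 (fun I₀ => t (glue τ I₀ I')) I +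
      actd (fun k => x.1 (τ k)) (fun I₁ => t (glue τ I I₁)) I' := by
  unfold act actd
  rw [Fintype.sum_sum_type]
  congr 1
  · refine Finset.sum_congr rfl fun k _ => ?_
    rw [Fintype.sum_sum_type, Finset.sum_eq_zero, zero_add]
    · refine Finset.sum_congr rfl fun b _ => ?_
      rw [glue_inl]
      unfold Ph
      rw [fromBlocks_apply₂₂]
      congr 2
      funext l
      rcases l with l | l
      · rw [glue_inl]
        by_cases hl : l = k
        · subst hl
          rw [Function.update_self, Function.update_self]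
        · rw [Function.update_of_ne hl, Function.update_of_ne (by simpa using hl), glue_inl]
      · rw [Function.update_of_ne (by simp), glue_inr, glue_inr]
    · intro p _
      rw [glue_inl]
      unfold Ph
      rw [fromBlocks_apply₁₂, Matrix.zero_apply, zero_mul]
  · refine Finset.sum_congr rfl fun k _ => ?_
    rw [Fintype.sum_sum_type, add_comm, Finset.sum_eq_zero, zero_add]
    · rw [Fintype.sum_prod_type]
      refine Finset.sum_congr rfl fun a _ => ?_
      rw [Finset.sum_eq_single (τ k)]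
      · rw [glue_inr]
        unfold Ph
        rw [fromBlocks_apply₁₁, blockDiagonal_apply, if_pos rfl]
        congr 2
        funext l
        rcases l with l | l
        · rw [Function.update_of_ne (by simp), glue_inl, glue_inl]
        · rw [glue_inr]
          by_cases hl : l = k
          · subst hl
            rw [Function.update_self, Function.update_self]
          · rw [Function.update_of_ne hl, Function.update_of_ne (by simpa using hl), glue_inr]
      · intro j _ hj
        rw [glue_inr]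
        unfold Ph
        rw [fromBlocks_apply₁₁, blockDiagonal_apply, if_neg hj, zero_mul]
      · intro h
        exact absurd (Finset.mem_univ _) h
    · intro b _
      rw [glue_inr]
      unfold Ph
      rw [fromBlocks_apply₂₁, Matrix.zero_apply, zero_mul]

/-- A block matrix has no entries between different types. -/
theorem Ph_ne {x : LA J B} {a b : RR J B} (h : Ph x a b ≠ 0) : cl a = cl b := by
  unfold Ph at h
  rcases a with ⟨a, i⟩ | a <;> rcases b with ⟨b, j⟩ | b
  · rw [fromBlocks_apply₁₁, blockDiagonal_apply] at h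
    by_cases hij : i = j
    · subst hij
      rfl
    · rw [if_neg hij] at h
      exact absurd rfl h
  · rw [fromBlocks_apply₁₂] at h
    exact absurd rfl h
  · rw [fromBlocks_apply₂₁] at h
    exact absurd rfl h
  · rfl

/-- The product of the periods. -/
theorem prod_glue (x : LA J B) (I₀ I₀' : κ₀ → B) (I₁ I₁' : κ₁ → Fin 2) :
    ∏ k, Ph x (glue τ I₀ I₁ k) (glue τ I₀' I₁' k) =
      (∏ k, x.2 (I₀ k) (I₀' k)) * ∏ k, x.1 (τ k) (I₁ k) (I₁' k) := by
  rw [Fintype.prod_sum_type]
  congr 1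
  refine Finset.prod_congr rfl fun k _ => ?_
  rw [glue_inr, glue_inr]
  unfold Ph
  rw [fromBlocks_apply₁₁, blockDiagonal_apply, if_pos rfl]

/-- The pullback in terms of tensors. -/
theorem pull_ext (x : LA J B) (T : (κ₀ → B) → (κ₁ → Fin 2) → ℂ) :
    pull (Ph x) (ext τ T) = ext τ (fun I₀ I₁ => ∑ J₀, ∑ J₁,
      ((∏ k, x.2 (J₀ k) (I₀ k)) * ∏ k, x.1 (τ k) (J₁ k) (I₁ k)) * T J₀ J₁) := by
  funext I
  have h1 : pull (Ph x) (ext τ T) I = ∑ J₀, ∑ J₁,
      (∏ k, Ph x (glue τ J₀ J₁ k) (I k)) * T J₀ J₁ := by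
    unfold pull ext
    simp only [Finset.mul_sum, mul_ite, mul_zero]
    rw [Finset.sum_comm]
    refine Finset.sum_congr rfl fun a _ => ?_
    rw [Finset.sum_comm]
    refine Finset.sum_congr rfl fun b _ => ?_
    rw [Finset.sum_ite_eq' Finset.univ (glue τ a b), if_pos (Finset.mem_univ _)]
  rw [h1]
  by_cases hI : ∀ k, cl (I k) = ty τ k
  · obtain ⟨I₀, I₁, rfl⟩ := exists_glue τ hI
    rw [ext_glue]
    refine Finset.sum_congr rfl fun a _ => Finset.sum_congr rfl fun b _ => ?_
    rw [prod_glue]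
  · push Not at hI
    obtain ⟨k, hk⟩ := hI
    rw [Finset.sum_eq_zero]
    · symm
      by_contra h2
      exact hk (ext_type τ I h2 k)
    · intro a _
      refine Finset.sum_eq_zero fun b _ => ?_
      rw [Finset.prod_eq_zero (Finset.mem_univ k), zero_mul]
      by_contra h3
      apply hk
      rw [← Ph_ne h3, cl_glue]

end glue

end Pool.Agent.TH128.GZ
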