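import Mathlib

/-!
# Square roots of rational numbers and the roots of a rational polynomial
-/

set_option linter.unusedSectionVars false

namespace Pool.Agent.TH128.GZ

open Polynomial

/-- The field of algebraic numbers. -/
noncomputable abbrev AA : IntermediateField ℚ ℂ := algebraicClosure ℚ ℂ

instance : IsAlgClosure ℚ AA := algebraicClosure.isAlgClosure ℚ ℂ

instance : IsGalois ℚ AA := IsAlgClosure.isGalois ℚ AA

theorem aut_smul (σ : AA ≃ₐ[ℚ] AA) (a : ℚ) (x : AA) : σ (a • x) = a • σ x :=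
  map_rat_smul σ a x

theorem sign_of_sq {x : AA} (hx : ∃ q : ℚ, x ^ 2 = algebraMap ℚ AA q) (σ : AA ≃ₐ[ℚ] AA) :
    σ x = x ∨ σ x = -x := by
  obtain ⟨q, hq⟩ := hx
  have h1 : (σ x) ^ 2 = x ^ 2 := by
    rw [← map_pow, hq, AlgEquiv.commutes]
  exact sq_eq_sq_iff_eq_or_eq_neg.1 h1

theorem exists_conj {x : AA} (hx : ∃ q : ℚ, x ^ 2 = algebraMap ℚ AA q)
    (h : ∀ q : ℚ, x ≠ algebraMap ℚ AA q) : ∃ σ : AA ≃ₐ[ℚ] AA, σ x = -x := by
  by_contra hcon
  push Not at hcon
  have h1 : x ∈ Set.range (algebraMap ℚ AA) := by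
    rw [InfiniteGalois.mem_range_algebraMap_iff_fixed]
    intro σ
    exact (sign_of_sq hx σ).resolve_right (hcon σ)
  obtain ⟨q, hq⟩ := h1
  exact h q hq.symm

/-- Separation of the square roots in a subspace which is stable under the Galois group. -/
theorem sep {Λ : Submodule ℚ AA} (hΛ : ∀ σ : AA ≃ₐ[ℚ] AA, ∀ x ∈ Λ, σ x ∈ Λ) {ι : Type*}
    [DecidableEq ι] {ω : ι → AA} {j : ι} (hjs : ∃ q : ℚ, ω j ^ 2 = algebraMap ℚ AA q)
    (hj : ∀ q : ℚ, ω j ≠ algebraMap ℚ AA q) (s : Finset ι)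
    (hs : ∀ i ∈ s, ∃ q : ℚ, ω i ^ 2 = algebraMap ℚ AA q)
    (hp : ∀ i ∈ s, ∀ q : ℚ, ω i * ω j ≠ algebraMap ℚ AA q) :
    ∀ (q a : ℚ) (r : ι → ℚ), algebraMap ℚ AA q + a • ω j + ∑ i ∈ s, r i • ω i ∈ Λ →
      a • ω j ∈ Λ := by
  induction s using Finset.induction_on with
  | empty =>
    intro q a r h
    rw [Finset.sum_empty, add_zero] at h
    obtain ⟨σ, hσ⟩ := exists_conj hjs hj
    have h1 := Λ.sub_mem h (hΛ σ _ h)
    rw [map_add, AlgEquiv.commutes, aut_smul, hσ] at h1
    have h2 : algebraMap ℚ AA q + a • ω j - (algebraMap ℚ AA q + a • (-ω j)) =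
        (2 : ℚ) • (a • ω j) := by
      rw [smul_neg, two_smul]
      ring
    rw [h2] at h1
    have h3 := Λ.smul_mem (2⁻¹ : ℚ) h1
    rwa [smul_smul, inv_mul_cancel₀ two_ne_zero, one_smul] at h3
  | insert i s his ih =>
    intro q a r h
    rw [Finset.sum_insert his] at h
    obtain ⟨σ, hσ⟩ : ∃ σ : AA ≃ₐ[ℚ] AA, σ (ω i * ω j) = -(ω i * ω j) := by
      refine exists_conj ?_ (hp i (Finset.mem_insert_self _ _))
      obtain ⟨u, hu⟩ := hs i (Finset.mem_insert_self _ _)
      obtain ⟨v, hv⟩ := hjs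
      exact ⟨u * v, by rw [mul_pow, hu, hv, map_mul]⟩
    have hi0 : ω i ≠ 0 := by
      intro h0
      apply hp i (Finset.mem_insert_self _ _) 0
      rw [h0, zero_mul, map_zero]
    have hj0 : ω j ≠ 0 := by
      intro h0
      apply hj 0
      rw [h0, map_zero]
    have key : ∀ x : AA, (∃ q : ℚ, x ^ 2 = algebraMap ℚ AA q) →
        ∃ e : ℚ, (e = 1 ∨ e = -1) ∧ σ x = e • x := by
      intro x hx
      rcases sign_of_sq hx σ with h1 | h1
      · exact ⟨1, Or.inl rfl, by rw [h1, one_smul]⟩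
      · exact ⟨-1, Or.inr rfl, by rw [h1, neg_one_smul]⟩
    obtain ⟨ei, hei, hei'⟩ := key (ω i) (hs i (Finset.mem_insert_self _ _))
    have hek : ∀ k, ∃ e : ℚ, k ∈ s → σ (ω k) = e • ω k := by
      intro k
      by_cases hk : k ∈ s
      · obtain ⟨e, _, he⟩ := key (ω k) (hs k (Finset.mem_insert_of_mem hk))
        exact ⟨e, fun _ => he⟩
      · exact ⟨0, fun h => absurd h hk⟩
    choose e he using hek
    have hee : ei * ei = 1 := by rcases hei with rfl | rfl <;> norm_num
    have hσj : σ (ω j) = (-ei) • ω j := by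
      rw [map_mul, hei', smul_mul_assoc] at hσ
      have h2 : ω i * (ei • σ (ω j)) = ω i * (-ω j) := by
        rw [mul_smul_comm, hσ]
        ring
      have h3 := mul_left_cancel₀ hi0 h2
      have h4 : ei • (ei • σ (ω j)) = ei • (-ω j) := by rw [h3]
      rw [smul_smul, hee, one_smul, smul_neg, ← neg_smul] at h4
      exact h4
    have h1 := Λ.sub_mem (hΛ σ _ h) (Λ.smul_mem ei h)
    have h2 : σ (algebraMap ℚ AA q + a • ω j + (r i • ω i + ∑ k ∈ s, r k • ω k)) -
        ei • (algebraMap ℚ AA q + a • ω j + (r i • ω i + ∑ k ∈ s, r k • ω k)) =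
        algebraMap ℚ AA (q - ei * q) + (-(2 * ei * a)) • ω j +
          ∑ k ∈ s, (r k * (e k - ei)) • ω k := by
      have h3 : ∑ k ∈ s, (r k * (e k - ei)) • ω k =
          ∑ k ∈ s, r k • σ (ω k) - ei • ∑ k ∈ s, r k • ω k := by
        rw [Finset.smul_sum, ← Finset.sum_sub_distrib]
        refine Finset.sum_congr rfl fun k hk => ?_
        rw [he k hk]
        module
      have h4 : ∀ x : ℚ, ei • algebraMap ℚ AA x = algebraMap ℚ AA (ei * x) := by
        intro x
        rw [map_mul, Algebra.smul_def]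
      rw [h3, map_add, map_add, map_add, AlgEquiv.commutes, map_sum, aut_smul, aut_smul, hσj, hei',
        map_sub]
      simp only [aut_smul, smul_add, h4]
      module
    rw [h2] at h1
    have h5 := ih (fun k hk => hs k (Finset.mem_insert_of_mem hk))
      (fun k hk => hp k (Finset.mem_insert_of_mem hk)) _ _ _ h1
    have h6 := Λ.smul_mem (-(ei / 2) : ℚ) h5
    rw [smul_smul] at h6
    have h7 : -(ei / 2) * -(2 * ei * a) = a := by
      linear_combination a * hee
    rwa [h7] at h6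

/-- The rational span of the eigenvalues of a rational matrix. -/
noncomputable def Lam {B : Type*} [Fintype B] [DecidableEq B] (Y : Matrix B B ℚ) : Submodule ℚ AA :=
  Submodule.span ℚ (Y.charpoly.rootSet AA)

theorem Lam_stable {B : Type*} [Fintype B] [DecidableEq B] (Y : Matrix B B ℚ) (σ : AA ≃ₐ[ℚ] AA)
    (x : AA) (hx : x ∈ Lam Y) : σ x ∈ Lam Y := by
  unfold Lam at hx ⊢
  induction hx using Submodule.span_induction with
  | mem x hx =>
    apply Submodule.subset_span
    rw [mem_rootSet] at hx ⊢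
    refine ⟨hx.1, ?_⟩
    rw [← AlgEquiv.coe_toAlgHom, aeval_algHom_apply, hx.2, map_zero]
  | zero =>
    rw [map_zero]
    exact Submodule.zero_mem _
  | add x y _ _ hx hy =>
    rw [map_add]
    exact Submodule.add_mem _ hx hy
  | smul c x _ hx =>
    rw [aut_smul]
    exact Submodule.smul_mem _ _ hx

/-- The number of quadratic fields which are seen by a rational matrix. -/
theorem card_le {B : Type*} [Fintype B] [DecidableEq B] (Y : Matrix B B ℚ) {ι : Type*}
    [DecidableEq ι] {ω : ι → AA} (T : Finset ι)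
    (hs : ∀ i ∈ T, ∃ q : ℚ, ω i ^ 2 = algebraMap ℚ AA q)
    (h1 : ∀ i ∈ T, ∀ q : ℚ, ω i ≠ algebraMap ℚ AA q)
    (hp : ∀ i ∈ T, ∀ j ∈ T, i ≠ j → ∀ q : ℚ, ω i * ω j ≠ algebraMap ℚ AA q)
    (hY : ∀ i ∈ T, ω i ∈ Lam Y) : T.card ≤ Fintype.card B := by
  classical
  have hfin : (Y.charpoly.rootSet AA).Finite := Polynomial.rootSet_finite _ _
  have hli : LinearIndependent ℚ (fun i : T => ω i) := by
    rw [Fintype.linearIndependent_iff]
    intro g hg j
    obtain ⟨r, hr⟩ : ∃ r : ι → ℚ, r = fun i => if h : i ∈ T then g ⟨i, h⟩ else 0 := ⟨_, rfl⟩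
    have hr' : ∀ i : T, g i = r i := fun i => by
      rw [hr]
      simp
    have h2 : ∑ i ∈ T, r i • ω i = 0 := by
      rw [← hg, ← Finset.sum_coe_sort]
      refine Finset.sum_congr rfl fun i _ => ?_
      rw [hr']
    rw [← Finset.add_sum_erase _ _ j.2] at h2
    have h3 := sep (Λ := ⊥) (fun σ x hx => by
      rw [Submodule.mem_bot] at hx ⊢
      rw [hx, map_zero]) (hs j j.2) (h1 j j.2) (T.erase j)
      (fun i hi => hs i (Finset.mem_of_mem_erase hi))
      (fun i hi => hp i (Finset.mem_of_mem_erase hi) j j.2 (Finset.ne_of_mem_erase hi)) 0 (r j) r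
      (by rw [map_zero, zero_add, h2]; exact Submodule.zero_mem _)
    rw [Submodule.mem_bot, smul_eq_zero] at h3
    rw [hr']
    refine h3.resolve_right fun h0 => h1 j j.2 0 ?_
    rw [h0, map_zero]
  have hsp : Submodule.span ℚ (Set.range fun i : T => ω i) ≤ Lam Y := by
    rw [Submodule.span_le]
    rintro _ ⟨i, rfl⟩
    exact hY i i.2
  have hfd : Module.Finite ℚ (Lam Y) := Module.Finite.span_of_finite ℚ hfin
  have h2 := Submodule.finrank_mono hsp
  rw [finrank_span_eq_card hli, Fintype.card_coe] at h2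
  have h3 : Module.finrank ℚ (Lam Y) ≤ hfin.toFinset.card := by
    have h4 : Lam Y = Submodule.span ℚ (hfin.toFinset : Set AA) := by
      unfold Lam
      rw [Set.Finite.coe_toFinset]
    rw [h4]
    exact finrank_span_finset_le_card _
  have h4 : hfin.toFinset.card ≤ Fintype.card B := by
    have h5 : hfin.toFinset.card ≤ Y.charpoly.natDegree := by
      have h6 : hfin.toFinset ⊆ (Y.charpoly.aroots AA).toFinset := by
        intro x hx
        rw [Set.Finite.mem_toFinset, mem_rootSet'] at hx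
        rw [Multiset.mem_toFinset, mem_aroots']
        exact hx
      refine (Finset.card_le_card h6).trans ((Multiset.toFinset_card_le _).trans ?_)
      exact (Polynomial.card_roots' _).trans (Polynomial.natDegree_map_le)
    rwa [Matrix.charpoly_natDegree_eq_dim] at h5
  omega

end Pool.Agent.TH128.GZ
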