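import Mathlib
import Pool.Agent.TH128.GZ.Dep
import Pool.Agent.TH128.GZ.Gal

/-!
# Eigenvalues on tensor powers
-/

set_option linter.unusedSectionVars false

namespace Pool.Agent.TH128.GZ

open Matrix Pool.Agent.TH119.DR Pool.Agent.W437.HK

variable {B κ : Type*} [Fintype B] [DecidableEq B] [Fintype κ] [DecidableEq κ]

/-- The action in one slot as an endomorphism. -/
noncomputable def actkE (Y : Matrix B B ℂ) (k : κ) : Module.End ℂ ((κ → B) → ℂ) where
  toFun c := actk Y k c
  map_add' c d := actk_add Y k c d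
  map_smul' a c := by
    funext I
    simp only [actk, Pi.smul_apply, smul_eq_mul, Finset.mul_sum, RingHom.id_apply]
    exact Finset.sum_congr rfl fun j _ => by ring

theorem actkE_apply (Y : Matrix B B ℂ) (k : κ) (c : (κ → B) → ℂ) : actkE Y k c = actk Y k c := rfl

theorem actk_commute (Y : Matrix B B ℂ) (k l : κ) (c : (κ → B) → ℂ) :
    actk Y k (actk Y l c) = actk Y l (actk Y k c) := by
  by_cases hkl : k = l
  · rw [hkl]
  · exact actk_comm Y Y hkl c

/-- A common eigenvector. -/
theorem exists_common (Y : Matrix B B ℂ) {z : ℂ} {u : (κ → B) → ℂ} (hu : act Y u = z • u)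
    (h0 : u ≠ 0) (s : Finset κ) : ∃ V : Submodule ℂ ((κ → B) → ℂ), V ≠ ⊥ ∧
      (∀ v ∈ V, act Y v = z • v) ∧ (∀ k, ∀ v ∈ V, actk Y k v ∈ V) ∧
      ∃ y : κ → ℂ, ∀ k ∈ s, ∀ v ∈ V, actk Y k v = y k • v := by
  induction s using Finset.induction_on with
  | empty =>
    obtain ⟨V, hV⟩ : ∃ V : Submodule ℂ ((κ → B) → ℂ), ∀ v, v ∈ V ↔ act Y v = z • v :=
      ⟨{ carrier := {v | act Y v = z • v}
         zero_mem' := by
          change act Y 0 = z • 0
          rw [act_zero_right, smul_zero]
         add_mem' := by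
          intro a b ha hb
          change act Y (a + b) = z • (a + b)
          rw [act_add_right, ha, hb, smul_add]
         smul_mem' := by
          intro c a ha
          change act Y (c • a) = z • (c • a)
          rw [act_smul_right, ha, smul_comm] }, fun v => Iff.rfl⟩
    refine ⟨V, ?_, fun v hv => (hV v).1 hv, fun k v hv => ?_, 0, fun k hk => ?_⟩
    · intro h
      apply h0
      rw [← Submodule.mem_bot ℂ, ← h, hV]
      exact hu
    · rw [hV] at hv ⊢
      have h1 : act Y (actk Y k v) = actk Y k (act Y v) := by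
        rw [act_eq_sum, act_eq_sum, actk_sum]
        exact Finset.sum_congr rfl fun l _ => actk_commute Y l k v
      rw [h1, hv]
      exact (actkE Y k).map_smul z v
    · exact absurd hk (Finset.notMem_empty k)
  | insert k s hks ih =>
    obtain ⟨V, hV0, hVz, hVs, y, hy⟩ := ih
    have hmaps : ∀ v ∈ V, actkE Y k v ∈ V := fun v hv => hVs k v hv
    have hnt : Nontrivial V := Submodule.nontrivial_iff_ne_bot.2 hV0
    obtain ⟨c, hc⟩ := Module.End.exists_eigenvalue ((actkE Y k).restrict hmaps)
    obtain ⟨v, hv⟩ := hc.exists_hasEigenvector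
    have hv1 : actk Y k (v : (κ → B) → ℂ) = c • (v : (κ → B) → ℂ) := by
      have := congrArg Subtype.val hv.apply_eq_smul
      exact this
    have hv0 : (v : (κ → B) → ℂ) ≠ 0 := by
      intro h
      exact hv.2 (Subtype.ext h)
    obtain ⟨V', hV'⟩ : ∃ V' : Submodule ℂ ((κ → B) → ℂ), ∀ w, w ∈ V' ↔ w ∈ V ∧
        actk Y k w = c • w :=
      ⟨{ carrier := {w | w ∈ V ∧ actk Y k w = c • w}
         zero_mem' := ⟨V.zero_mem, by
          rw [smul_zero]
          exact (actkE Y k).map_zero⟩
         add_mem' := by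
          intro a b ha hb
          exact ⟨V.add_mem ha.1 hb.1, by rw [actk_add, ha.2, hb.2, smul_add]⟩
         smul_mem' := by
          intro d a ha
          refine ⟨V.smul_mem d ha.1, ?_⟩
          have := (actkE Y k).map_smul d a
          rw [actkE_apply, actkE_apply] at this
          rw [this, ha.2, smul_comm] }, fun v => Iff.rfl⟩
    refine ⟨V', ?_, fun w hw => hVz w ((hV' w).1 hw).1, fun l w hw => ?_,
      Function.update y k c, fun l hl w hw => ?_⟩
    · intro h
      apply hv0
      rw [← Submodule.mem_bot ℂ, ← h, hV']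
      exact ⟨v.2, hv1⟩
    · rw [hV'] at hw ⊢
      refine ⟨hVs l w hw.1, ?_⟩
      rw [actk_commute, hw.2]
      exact (actkE Y l).map_smul c w
    · rw [hV'] at hw
      rcases Finset.mem_insert.1 hl with rfl | hl
      · rw [Function.update_self, hw.2]
      · have hlk : l ≠ k := by
          intro h
          rw [h] at hl
          exact hks hl
        rw [Function.update_of_ne hlk, hy l hl w hw.1]

/-- An eigenvalue of a matrix in one slot is an eigenvalue of the matrix. -/
theorem root_of_actk {Y : Matrix B B ℂ} {k : κ} {y : ℂ} {v : (κ → B) → ℂ} (h : actk Y k v = y • v)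
    (h0 : v ≠ 0) : Y.charpoly.eval y = 0 := by
  obtain ⟨I, hI⟩ := Function.ne_iff.1 h0
  rw [Matrix.eval_charpoly]
  rw [← Matrix.exists_vecMul_eq_zero_iff]
  refine ⟨fun b => v (Function.update I k b), ?_, ?_⟩
  · intro h1
    apply hI
    have h2 := congrFun h1 (I k)
    rw [Function.update_eq_self] at h2
    exact h2
  · funext b
    have h1 := congrFun h (Function.update I k b)
    unfold actk at h1
    rw [Function.update_self, Pi.smul_apply, smul_eq_mul] at h1
    simp only [Function.update_idem] at h1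
    rw [Matrix.vecMul_sub, Pi.sub_apply, Pi.zero_apply, sub_eq_zero]
    have h2 : (vecMul (fun b => v (Function.update I k b)) Y) b =
        ∑ j, Y j b * v (Function.update I k j) := by
      unfold vecMul dotProduct
      exact Finset.sum_congr rfl fun j _ => mul_comm _ _
    rw [h2, h1]
    simp [Matrix.scalar_apply, Matrix.vecMul_diagonal, mul_comm]

/-- The eigenvalues on the tensor power are sums of eigenvalues. -/
theorem eig_sum {Y : Matrix B B ℂ} {z : ℂ} {u : (κ → B) → ℂ} (hu : act Y u = z • u)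
    (h0 : u ≠ 0) : ∃ y : κ → ℂ, (∀ k, Y.charpoly.eval (y k) = 0) ∧ z = ∑ k, y k := by
  obtain ⟨V, hV0, hVz, _, y, hy⟩ := exists_common Y hu h0 Finset.univ
  obtain ⟨v, hv, hv0⟩ := Submodule.exists_mem_ne_zero_of_ne_bot hV0
  refine ⟨y, fun k => root_of_actk (hy k (Finset.mem_univ _) v hv) hv0, ?_⟩
  have h1 := hVz v hv
  rw [act_eq_sum, Finset.sum_congr rfl (fun k _ => hy k (Finset.mem_univ _) v hv),
    ← Finset.sum_smul] at h1
  exact (smul_left_injective ℂ hv0 h1).symm

/-- An eigenvalue of a rational matrix on a tensor power lies in the span of its eigenvalues. -/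
theorem eig_mem {Y : Matrix B B ℚ} {z : ℂ} {u : (κ → B) → ℂ}
    (hu : act (Y.map (algebraMap ℚ ℂ)) u = z • u) (h0 : u ≠ 0) : ∃ x ∈ Lam Y, (x : ℂ) = z := by
  obtain ⟨y, hy, rfl⟩ := eig_sum hu h0
  have hk : ∀ k, ∃ x : AA, x ∈ Lam Y ∧ (x : ℂ) = y k := by
    intro k
    have h1 := hy k
    rw [Matrix.charpoly_map, Polynomial.eval_map_algebraMap] at h1
    have h2 : IsAlgebraic ℚ (y k) := ⟨_, (Matrix.charpoly_monic Y).ne_zero, h1⟩
    refine ⟨⟨y k, mem_algebraicClosure_iff.2 h2⟩, ?_, rfl⟩
    apply Submodule.subset_span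
    rw [Polynomial.mem_rootSet]
    refine ⟨(Matrix.charpoly_monic Y).ne_zero, ?_⟩
    apply Subtype.ext
    have h3 := Polynomial.aeval_algebraMap_apply ℂ (⟨y k, mem_algebraicClosure_iff.2 h2⟩ : AA)
      Y.charpoly
    exact h3.symm.trans h1
  choose x hx hxy using hk
  refine ⟨∑ k, x k, Submodule.sum_mem _ fun k _ => hx k, ?_⟩
  rw [← Finset.sum_congr rfl fun k _ => hxy k]
  exact map_sum (algebraMap AA ℂ) _ _

end Pool.Agent.TH128.GZ
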