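import Mathlib
import Pool.Agent.TH119.DR.Fam
import Pool.Agent.TH128.GZ.Eig

/-!
# Elliptic curves with complex multiplication
-/

set_option linter.unusedSectionVars false

namespace Pool.Agent.TH128.GZ

open Matrix Pool.Agent.TH119.DR Pool.Agent.W437.HK

variable {F K : Subfield ℂ} {J B D κ κ₀ κ₁ : Type*} [Fintype B] [DecidableEq B] [Fintype J]
  [DecidableEq J] [Fintype κ] [DecidableEq κ] [DecidableEq D] [Fintype κ₀] [DecidableEq κ₀]
  [Fintype κ₁] [DecidableEq κ₁]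

theorem SubL.map_res {P : J → M2} {Q : Matrix B B ℂ} {deg : B → D} {C : J → M2}
    {H : Submodule ℂ (LA J B)} (hP0 : ∀ j, (P j).det ≠ 0) (hQ0 : Q.det ≠ 0)
    (hH : SubL F K P Q deg C H) (j : J) :
    SubL F K (fun _ => P j) Q deg (fun _ => C j) (H.map (res j)) := by
  refine ⟨?_, ?_, ?_, ?_, ?_, ?_⟩
  · rintro _ ⟨x, hx, rfl⟩ _
    exact hH.tr x hx j
  · rintro _ ⟨x, hx, rfl⟩ _ hj
    exact hH.cm x hx j hj
  · rintro _ ⟨x, hx, rfl⟩
    exact hH.blk x hx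
  · rintro _ ⟨x, hx, rfl⟩ _ ⟨y, hy, rfl⟩
    exact ⟨_, hH.lie x hx y hy, res_br j x y⟩
  · rintro f _ ⟨x, hx, rfl⟩
    exact ⟨_, hH.betti f x hx, res_mp j f x⟩
  · rintro f y ⟨x, hx, hxy⟩
    have h1 : cjL P Q (icj P Q x) ∈ H := by rwa [cjL_icj hP0 hQ0]
    refine ⟨_, hH.dr f _ h1, ?_⟩
    have e1 : x.1 j = cj (P j) (y.1 ()) := congrFun (congrArg Prod.fst hxy) ()
    have e2 : x.2 = Q⁻¹ * y.2 * Q := congrArg Prod.snd hxy
    refine Prod.ext (funext fun _ => ?_) ?_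
    · change cj (P j) ((P j * x.1 j * (P j)⁻¹).map f) = cj (P j) ((y.1 ()).map f)
      rw [e1, inv_cj (hP0 j)]
    · change Q⁻¹ * (Q * x.2 * Q⁻¹).map f * Q = Q⁻¹ * y.2.map f * Q
      have hu : IsUnit Q.det := isUnit_iff_ne_zero.2 hQ0
      have e3 : Q * x.2 * Q⁻¹ = y.2 := by
        rw [e2]
        simp only [Matrix.mul_assoc]
        rw [Matrix.mul_nonsing_inv _ hu, Matrix.mul_one, ← Matrix.mul_assoc,
          Matrix.mul_nonsing_inv _ hu, Matrix.one_mul]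
      rw [e3]

/-- The imaginary quadratic field of an elliptic curve is seen by the periods `Q`. -/
def ExcC (K : Subfield ℂ) (Q : Matrix B B ℂ) (deg : B → D) (P C : M2) (ω : AA) : Prop :=
  ∃ L : Submodule ℂ (LA Unit B), SubL QQ K (fun _ => P) Q deg (fun _ => C) L ∧
    (∀ δ, dL δ (fun _ => P) Q ∈ L) ∧ ∀ (c : ℚ) (Y : Matrix B B ℚ),
      ((fun _ => (c : ℂ) • C, Y.map (algebraMap ℚ ℂ)) : LA Unit B) ∈ L → c • ω ∈ Lam Y

/-- A rational linear form. -/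
theorem exists_form : ∃ f : ℂ →ₗ[QQ] ℂ, (∀ z, f z ∈ QQ) ∧ ∀ q : ℚ, f (q : ℂ) = q := by
  obtain ⟨J, t, e, f, hf, hz⟩ := exists_coords QQ {1}
  obtain ⟨j, hj⟩ : ∃ j, f j 1 ≠ 0 := by
    by_contra hcon
    push Not at hcon
    apply one_ne_zero (α := ℂ)
    rw [hz _ (Finset.mem_singleton_self _)]
    exact Finset.sum_eq_zero fun j _ => by rw [hcon, mul_zero]
  have hc : (f j 1)⁻¹ ∈ QQ := QQ.inv_mem (hf j 1)
  refine ⟨(LinearMap.mulLeft QQ ((f j 1)⁻¹)) ∘ₗ f j, fun z => ?_, fun q => ?_⟩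
  · change (f j 1)⁻¹ * f j z ∈ QQ
    exact QQ.mul_mem hc (hf j z)
  · change (f j 1)⁻¹ * f j q = q
    have h1 := lin_mul (f j) (mem_QQ q) 1
    rw [mul_one] at h1
    rw [h1]
    field_simp

theorem rat_of_mem {z : ℂ} (hz : z ∈ QQ) : ∃ q : ℚ, (q : ℂ) = z := by
  obtain ⟨q, hq⟩ := hz
  exact ⟨q, hq⟩

theorem mat_rat {α β : Type*} {M : Matrix α β ℂ} (h : ∀ a b, M a b ∈ QQ) :
    ∃ N : Matrix α β ℚ, M = N.map (algebraMap ℚ ℂ) := by
  choose q hq using fun a b => rat_of_mem (h a b)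
  refine ⟨Matrix.of q, ?_⟩
  ext a b
  exact (hq a b).symm

theorem map_rat {α β : Type*} {f : ℂ →ₗ[QQ] ℂ} (hf : ∀ q : ℚ, f (q : ℂ) = q)
    {M : Matrix α β ℂ} (h : ∀ a b, M a b ∈ QQ) : M.map f = M := by
  ext a b
  rw [Matrix.map_apply]
  obtain ⟨q, hq⟩ := rat_of_mem (h a b)
  rw [← hq, hf]

/-- A matrix diagonalizing the complex multiplication. -/
theorem exists_diag {C : M2} (hC : ∀ a b, C a b ∈ QQ) (ht : C.trace = 0) {ω : AA}
    (hω : (ω : ℂ) ^ 2 = -C.det) (hω0 : ∀ q : ℚ, ω ≠ algebraMap ℚ AA q) :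
    ∃ R : M2, R.det ≠ 0 ∧ C * R = R * diagonal ![(ω : ℂ), -(ω : ℂ)] := by
  have htr := tr_zero ht
  rw [det_fin_two, htr] at hω
  have hb : C 0 1 ≠ 0 := by
    intro hb
    obtain ⟨a, ha⟩ := rat_of_mem (hC 0 0)
    rw [hb, ← ha] at hω
    have h1 : (ω : ℂ) ^ 2 = ((a : ℚ) : ℂ) ^ 2 := by rw [hω]; ring
    rcases sq_eq_sq_iff_eq_or_eq_neg.1 h1 with h2 | h2
    · exact hω0 a (Subtype.ext h2)
    · refine hω0 (-a) (Subtype.ext ?_)
      rw [h2]
      change -((a : ℚ) : ℂ) = ((-a : ℚ) : ℂ)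
      push_cast
      rfl
  have hw : (ω : ℂ) ≠ 0 := by
    intro h
    refine hω0 0 (Subtype.ext ?_)
    rw [h]
    change (0 : ℂ) = ((0 : ℚ) : ℂ)
    norm_num
  refine ⟨!![C 0 1, C 0 1; (ω : ℂ) - C 0 0, -(ω : ℂ) - C 0 0], ?_, ?_⟩
  · rw [det_fin_two]
    simp only [Matrix.of_apply, Matrix.cons_val', Matrix.cons_val_zero, Matrix.cons_val_one,
      Matrix.cons_val_fin_one]
    have h1 : C 0 1 * (-(ω : ℂ) - C 0 0) - C 0 1 * ((ω : ℂ) - C 0 0) = -2 * (C 0 1 * ω) := by ring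
    rw [h1]
    exact mul_ne_zero (by norm_num) (mul_ne_zero hb hw)
  · apply m2_ext <;> simp only [m2_mul, Matrix.of_apply, Matrix.cons_val', Matrix.cons_val_zero,
      Matrix.cons_val_one, Matrix.cons_val_fin_one, Matrix.diagonal_apply_eq, ne_eq, zero_ne_one,
      not_false_eq_true, Matrix.diagonal_apply_ne, one_ne_zero, htr]
    · ring
    · ring
    · linear_combination -hω
    · linear_combination -hω

/-- The action of diagonal matrices. -/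
theorem actd_diag {β : Type*} [Fintype β] [DecidableEq β] (d : κ → β → ℂ) (c : (κ → β) → ℂ)
    (I : κ → β) : actd (fun k => diagonal (d k)) c I = (∑ k, d k (I k)) * c I := by
  unfold actd
  rw [Finset.sum_mul]
  refine Finset.sum_congr rfl fun k _ => ?_
  rw [Finset.sum_eq_single (I k)]
  · change (diagonal (d k) : Matrix β β ℂ) (I k) (I k) * _ = _
    rw [Matrix.diagonal_apply_eq, Function.update_eq_self]
  · intro j _ hj
    change (diagonal (d k) : Matrix β β ℂ) j (I k) * _ = _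
    rw [Matrix.diagonal_apply_ne _ hj, zero_mul]
  · intro h
    exact absurd (Finset.mem_univ _) h

theorem act_mem_field {R : Type*} [Fintype R] [DecidableEq R] {X : Matrix R R ℂ}
    (hX : ∀ a b, X a b ∈ F) {t : (κ → R) → ℂ} (ht : ∀ I, t I ∈ F) (I : κ → R) :
    act X t I ∈ F := by
  unfold act
  exact F.sum_mem fun k _ => F.sum_mem fun j _ => F.mul_mem (hX _ _) (ht _)

end Pool.Agent.TH128.GZ
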