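import Mathlib
import Pool.Agent.TH128.GZ.Cm

/-!
# Elliptic curves with complex multiplication kill the de Rham-Betti classes
-/

set_option linter.unusedSectionVars false

namespace Pool.Agent.TH128.GZ

open Matrix Pool.Agent.TH119.DR Pool.Agent.W437.HK

variable {F K : Subfield ℂ} {J B D κ κ₀ κ₁ : Type*} [Fintype B] [DecidableEq B] [Fintype J]
  [DecidableEq J] [Fintype κ] [DecidableEq κ] [DecidableEq D] [Fintype κ₀] [DecidableEq κ₀]
  [Fintype κ₁] [DecidableEq κ₁]

theorem pulld_zero (E : κ → Matrix B B ℂ) : pulld E 0 = 0 := (pulldL E).map_zero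

/-- The change of coordinates in the second variable commutes with the action in the first. -/
theorem act_pulld_comm (Y : Matrix B B ℂ) (R : κ₁ → M2) (T : (κ₀ → B) → (κ₁ → Fin 2) → ℂ)
    (I₀ : κ₀ → B) (I₁ : κ₁ → Fin 2) :
    act Y (fun a => pulld R (T a) I₁) I₀ = pulld R (fun b => act Y (fun a => T a b) I₀) I₁ := by
  unfold act pulld
  simp only [Finset.mul_sum]
  have h1 : ∀ k : κ₀, ∑ j, ∑ b : κ₁ → Fin 2, Y j (I₀ k) * ((∏ l, R l (b l) (I₁ l)) *
      T (Function.update I₀ k j) b) = ∑ b : κ₁ → Fin 2, ∑ j, (∏ l, R l (b l) (I₁ l)) *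
      (Y j (I₀ k) * T (Function.update I₀ k j) b) := by
    intro k
    rw [Finset.sum_comm]
    refine Finset.sum_congr rfl fun b _ => Finset.sum_congr rfl fun j _ => ?_
    ring
  rw [Finset.sum_congr rfl (fun k _ => h1 k), Finset.sum_comm]

section

variable {P : J → M2} {Q : Matrix B B ℂ} (hP0 : ∀ j, (P j).det ≠ 0) (hQ0 : Q.det ≠ 0)
  {deg : B → D} (hdeg : ∀ a b, deg a ≠ deg b → Q a b = 0) {C : J → M2}
  (hC : ∀ j, IsCM QQ K (P j) (C j))
  (hK : ∀ x ∈ K, IsAlgebraic ℚ x) (τ : κ₁ → J) {T T' : (κ₀ → B) → (κ₁ → Fin 2) → ℂ} {μ : ℂ}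
  (htF : ∀ a b, T a b ∈ QQ) (htK : ∀ a b, T' a b ∈ K)
  (ht : ext τ T = μ • pull (Ph (P, Q)) (ext τ T'))
  (hdet : ∀ i j, (P i).det = (P j).det)
  (hI1 : ∀ i, C i = 0 → Indep1 (P i)) (hI2 : ∀ i j, C i = 0 → C j = 0 → i ≠ j → Indep2 (P i) (P j))
  {ω : J → AA} (hω : ∀ j, C j ≠ 0 → (ω j : ℂ) ^ 2 = -(C j).det)
  (hω1 : ∀ j, C j ≠ 0 → ∀ q : ℚ, ω j ≠ algebraMap ℚ AA q)
  (hω2 : ∀ i j, C i ≠ 0 → C j ≠ 0 → i ≠ j → ∀ q : ℚ, ω i * ω j ≠ algebraMap ℚ AA q)

theorem sq_rat {C : M2} (hC : ∀ a b, C a b ∈ QQ) {ω : AA} (hω : (ω : ℂ) ^ 2 = -C.det) :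
    ∃ q : ℚ, ω ^ 2 = algebraMap ℚ AA q := by
  have h1 : -C.det ∈ QQ := by
    rw [det_fin_two]
    exact QQ.neg_mem (QQ.sub_mem (QQ.mul_mem (hC _ _) (hC _ _)) (QQ.mul_mem (hC _ _) (hC _ _)))
  obtain ⟨q, hq⟩ := rat_of_mem h1
  refine ⟨q, Subtype.ext ?_⟩
  rw [← hq] at hω
  exact hω

include hP0 hQ0 hdeg hC hK htF htK ht hdet hI1 hI2

/-- The class is killed by the factors which are not exceptional: tensors. -/
theorem killT {j : J} (hj : C j = 0) (hE : ¬ Exc QQ K Q deg (P j)) {s : M2} (hs : s.trace = 0)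
    (I₀ : κ₀ → B) : actd (fun k => (Pi.single j s : J → M2) (τ k)) (T I₀) = 0 := by
  have h1 := kill (F := QQ) hP0 hQ0 hdeg hC QQ_alg hK (t := ext τ T) (t' := ext τ T')
    (ext_prop τ (p := fun z => z ∈ QQ) QQ.zero_mem htF)
    (ext_prop τ (p := fun z => z ∈ K) K.zero_mem htK) ht (ext_type τ) hdet hI1 hI2 hj hE hs
  funext I₁
  have h2 := congrFun h1 (glue τ I₀ I₁)
  rw [act_glue] at h2
  simp only [ext_glue] at h2
  have h3 : act ((sg j s : LA J B).2) (fun a => T a I₁) I₀ = 0 := by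
    change act (0 : Matrix B B ℂ) _ _ = 0
    rw [act_zero_left]
    rfl
  rw [h3, zero_add] at h2
  exact h2

include hω hω1 hω2

/-- The class is killed by the complex multiplications which are not exceptional. -/
theorem killC (hEn : ∀ i, C i = 0 → ¬ Exc QQ K Q deg (P i)) {j : J} (hj : C j ≠ 0)
    (hE : ¬ ExcC K Q deg (P j) (C j) (ω j)) (I₀ : κ₀ → B) :
    actd (fun k => (Pi.single j (C j) : J → M2) (τ k)) (T I₀) = 0 := by
  classical
  have hlF := ext_prop τ (p := fun z => z ∈ QQ) QQ.zero_mem htF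
  have hlK := ext_prop τ (p := fun z => z ∈ K) K.zero_mem htK
  have hH := stb_sub (F := QQ) hP0 hQ0 hdeg hC QQ_alg hK hlF hlK ht
  have hδ := dL_mem (F := QQ) hP0 hQ0 hdeg hC QQ_alg hK hlF hlK ht (ext_type τ)
  -- a rational element
  obtain ⟨c, Y, hmem, hcY⟩ : ∃ (c : ℚ) (Y : Matrix B B ℚ),
      ((fun _ => (c : ℂ) • C j, Y.map (algebraMap ℚ ℂ)) : LA Unit B) ∈
        (stb deg C (ext τ T)).map (res j) ∧ c • ω j ∉ Lam Y := by
    by_contra hcon
    push Not at hcon
    exact hE ⟨_, hH.map_res hP0 hQ0 j, fun δ => ⟨_, hδ δ, rfl⟩, hcon⟩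
  obtain ⟨x, hx, hxr⟩ := hmem
  obtain ⟨f, hf, hf1⟩ := exists_form
  have hxj : x.1 j = (c : ℂ) • C j := congrFun (congrArg Prod.fst hxr) ()
  have hx2 : x.2 = Y.map (algebraMap ℚ ℂ) := congrArg Prod.snd hxr
  have hcCF : ∀ a b, ((c : ℂ) • C j) a b ∈ QQ := fun a b => QQ.mul_mem (mem_QQ c) ((hC j).betti a b)
  have hYF : ∀ a b, (Y.map (algebraMap ℚ ℂ)) a b ∈ QQ := fun a b => mem_QQ _
  obtain ⟨x', hx'⟩ : ∃ x' : LA J B, x' = mp f x := ⟨_, rfl⟩
  have hx'H : x' ∈ stb deg C (ext τ T) := by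
    rw [hx']
    exact hH.betti f x hx
  have hx'j : x'.1 j = (c : ℂ) • C j := by
    rw [hx']
    change (x.1 j).map f = _
    rw [hxj, map_rat hf1 hcCF]
  have hx'2 : x'.2 = Y.map (algebraMap ℚ ℂ) := by
    rw [hx']
    change x.2.map f = _
    rw [hx2, map_rat hf1 hYF]
  have hx'F : ∀ i a b, x'.1 i a b ∈ QQ := fun i a b => by
    rw [hx']
    exact hf _
  -- remove the factors without complex multiplication
  obtain ⟨y, hy⟩ : ∃ y : LA J B, y = x' - ∑ i ∈ Finset.univ.filter (fun i => C i = 0),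
      sg i (x'.1 i) := ⟨_, rfl⟩
  have hyH : y ∈ stb deg C (ext τ T) := by
    rw [hy]
    refine Submodule.sub_mem _ hx'H (Submodule.sum_mem _ fun i hi => ?_)
    have hi' := (Finset.mem_filter.1 hi).2
    exact single_mem hP0 hQ0 QQ_alg hK hH hdet hI1 hI2 hδ hi' (hEn i hi') (hH.tr _ hx'H i)
  have hy1 : ∀ i, y.1 i = if C i = 0 then 0 else x'.1 i := by
    intro i
    rw [hy]
    have h1 : (x' - ∑ i ∈ Finset.univ.filter (fun i => C i = 0), sg i (x'.1 i) : LA J B).1 i =
        x'.1 i - ∑ l ∈ Finset.univ.filter (fun i => C i = 0), (Pi.single l (x'.1 l) : J → M2) i := by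
      rw [Prod.fst_sub, Prod.fst_sum, Pi.sub_apply, Finset.sum_apply]
      rfl
    rw [h1]
    by_cases hi : C i = 0
    · rw [if_pos hi, Finset.sum_eq_single i]
      · rw [Pi.single_eq_same, sub_self]
      · intro l _ hl
        rw [Pi.single_eq_of_ne (Ne.symm hl)]
      · intro h
        exact (h (Finset.mem_filter.2 ⟨Finset.mem_univ i, hi⟩)).elim
    · rw [if_neg hi, Finset.sum_eq_zero, sub_zero]
      intro l hl
      rw [Pi.single_eq_of_ne]
      rintro rfl
      exact hi (Finset.mem_filter.1 hl).2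
  have hy2 : y.2 = Y.map (algebraMap ℚ ℂ) := by
    rw [hy, Prod.snd_sub, Prod.snd_sum, hx'2, Finset.sum_eq_zero, sub_zero]
    intro i _
    rfl
  have hyF : ∀ i a b, y.1 i a b ∈ QQ := by
    intro i a b
    rw [hy1]
    split_ifs
    · exact QQ.zero_mem
    · exact hx'F i a b
  have hPhF : ∀ a b, Ph y a b ∈ QQ := by
    intro a b
    unfold Ph
    rcases a with ⟨a, i⟩ | a <;> rcases b with ⟨b, i'⟩ | b
    · rw [fromBlocks_apply₁₁, blockDiagonal_apply]
      split_ifs
      · exact hyF _ _ _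
      · exact QQ.zero_mem
    · exact QQ.zero_mem
    · exact QQ.zero_mem
    · rw [fromBlocks_apply₂₂, hy2]
      exact hYF _ _
  -- the rational multiples
  have hr : ∀ i, ∃ r : ℚ, y.1 i = (r : ℂ) • C i := by
    intro i
    by_cases hi : C i = 0
    · refine ⟨0, ?_⟩
      rw [hy1, if_pos hi, hi, smul_zero]
    · obtain ⟨d, hd⟩ := hH.cm _ hyH i hi
      obtain ⟨a, b, hab⟩ : ∃ a b, C i a b ≠ 0 := by
        by_contra hcon
        push Not at hcon
        exact hi (by
          ext a b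
          exact hcon a b)
      have h1 : d = y.1 i a b * (C i a b)⁻¹ := by
        rw [hd, Matrix.smul_apply, smul_eq_mul]
        field_simp
      obtain ⟨r, hr⟩ := rat_of_mem (z := d) (by
        rw [h1]
        exact QQ.mul_mem (hyF i a b) (QQ.inv_mem ((hC i).betti a b)))
      exact ⟨r, by rw [hd, hr]⟩
  choose r hr using hr
  have hrj : r j = c := by
    have h1 := hr j
    rw [hy1, if_neg hj, hx'j] at h1
    have h2 := smul_left_injective ℂ hj h1
    exact_mod_cast h2.symm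
  -- the eigenvalue is rational
  obtain ⟨_, _, _, lam, hlam⟩ := mem_stb.1 hyH
  by_cases hT0 : T = 0
  · rw [hT0]
    funext I
    simp [actd]
  obtain ⟨q, hq⟩ : ∃ q : ℚ, (q : ℂ) = lam := by
    obtain ⟨a, ha⟩ := Function.ne_iff.1 hT0
    obtain ⟨b, hb⟩ := Function.ne_iff.1 ha
    have hb' : T a b ≠ 0 := hb
    have h1 := congrFun hlam (glue τ a b)
    rw [Pi.smul_apply, ext_glue, smul_eq_mul] at h1
    have h2 : lam = act (Ph y) (ext τ T) (glue τ a b) * (T a b)⁻¹ := by
      rw [h1]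
      field_simp
    apply rat_of_mem
    rw [h2]
    exact QQ.mul_mem (act_mem_field hPhF hlF _) (QQ.inv_mem (htF a b))
  -- diagonalization
  have hR : ∀ i, ∃ R : M2, R.det ≠ 0 ∧
      C i * R = R * diagonal (fun a => if C i = 0 then 0 else (![(ω i : ℂ), -(ω i : ℂ)] : Fin 2 → ℂ) a) := by
    intro i
    by_cases hi : C i = 0
    · refine ⟨1, by rw [det_one]; exact one_ne_zero, ?_⟩
      rw [hi, Matrix.zero_mul, Matrix.one_mul]
      simp only [if_true]
      exact diagonal_zero.symm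
    · obtain ⟨R, hR0, hR⟩ := exists_diag (hC i).betti (hC i).tr (hω i hi) (hω1 i hi)
      refine ⟨R, hR0, ?_⟩
      simp only [if_neg hi]
      exact hR
  choose R hR0 hR using hR
  obtain ⟨dd, hdd⟩ : ∃ dd : J → Fin 2 → ℂ, dd = fun i a =>
      if C i = 0 then 0 else (![(ω i : ℂ), -(ω i : ℂ)] : Fin 2 → ℂ) a := ⟨_, rfl⟩
  have hR' : ∀ i, R i * diagonal (dd i) = C i * R i := fun i => by
    rw [hdd]
    exact (hR i).symm
  -- the equation in the new coordinates
  obtain ⟨U, hU⟩ : ∃ U : (κ₀ → B) → (κ₁ → Fin 2) → ℂ, U = fun a => pulld (fun k => R (τ k)) (T a) :=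
    ⟨_, rfl⟩
  have hact : ∀ a b, act (Y.map (algebraMap ℚ ℂ)) (fun a => U a b) a +
      (∑ k, (r (τ k) : ℂ) * dd (τ k) (b k)) * U a b = lam * U a b := by
    intro a b
    have h1 : ∀ b, act (Y.map (algebraMap ℚ ℂ)) (fun a => T a b) a +
        actd (fun k => (r (τ k) : ℂ) • C (τ k)) (T a) b = lam * T a b := by
      intro b
      have h2 := congrFun hlam (glue τ a b)
      rw [act_glue, Pi.smul_apply, ext_glue, hy2, smul_eq_mul] at h2
      simp only [ext_glue] at h2
      rw [← h2]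
      congr 2
      funext k
      exact (hr (τ k)).symm
    have h3 : actd (fun k => diagonal fun a => (r (τ k) : ℂ) * dd (τ k) a)
        (pulld (fun k => R (τ k)) (T a)) =
        pulld (fun k => R (τ k)) (actd (fun k => (r (τ k) : ℂ) • C (τ k)) (T a)) := by
      refine actd_pulld (fun k => ?_) (T a)
      have h4 : (diagonal fun a => (r (τ k) : ℂ) * dd (τ k) a) =
          (r (τ k) : ℂ) • diagonal (dd (τ k)) := by
        rw [← diagonal_smul]
        rfl
      rw [h4, Matrix.mul_smul, hR', Matrix.smul_mul]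
    have h5 : U a = pulld (fun k => R (τ k)) (T a) := by rw [hU]
    have h6 : (fun a => U a b) = fun a => pulld (fun k => R (τ k)) (T a) b := by
      rw [hU]
    have h3' := congrFun h3 b
    rw [actd_diag] at h3'
    rw [h6, act_pulld_comm, h5, h3']
    have h7 := (pulldL (fun k => R (τ k))).map_add
      (fun b => act (Y.map (algebraMap ℚ ℂ)) (fun a => T a b) a)
      (actd (fun k => (r (τ k) : ℂ) • C (τ k)) (T a))
    have h8 := congrFun h7 b
    rw [pulldL_apply, pulldL_apply, pulldL_apply, Pi.add_apply] at h8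
    rw [← h8]
    have h9 : (fun b => act (Y.map (algebraMap ℚ ℂ)) (fun a => T a b) a) +
        actd (fun k => (r (τ k) : ℂ) • C (τ k)) (T a) = lam • T a := by
      funext b
      exact h1 b
    rw [h9]
    have h10 := congrFun ((pulldL (fun k => R (τ k))).map_smul lam (T a)) b
    exact h10
  -- the weights
  have hwt : ∀ b : κ₁ → Fin 2, ∃ m : J → ℚ, (∀ i, ∑ k, (Pi.single i (dd i) : J → Fin 2 → ℂ) (τ k)
      (b k) = (m i : ℂ) * (if C i = 0 then 0 else (ω i : ℂ))) ∧
      ∑ k, (r (τ k) : ℂ) * dd (τ k) (b k) =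
        ∑ i, ((r i * m i : ℚ) : ℂ) * (if C i = 0 then 0 else (ω i : ℂ)) := by
    intro b
    obtain ⟨m, hm⟩ : ∃ m : J → ℚ, m = fun i => ∑ k ∈ Finset.univ.filter (fun k => τ k = i),
        (![1, -1] : Fin 2 → ℚ) (b k) := ⟨_, rfl⟩
    have h1 : ∀ i, ∀ a : Fin 2, dd i a = (((![1, -1] : Fin 2 → ℚ) a : ℚ) : ℂ) *
        (if C i = 0 then 0 else (ω i : ℂ)) := by
      intro i a
      rw [hdd]
      by_cases hi : C i = 0
      · simp only [if_pos hi, mul_zero]
      · simp only [if_neg hi]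
        fin_cases a
        · simp
        · simp
    refine ⟨m, fun i => ?_, ?_⟩
    · rw [hm]
      simp only
      rw [Rat.cast_sum, Finset.sum_mul, Finset.sum_filter]
      refine Finset.sum_congr rfl fun k _ => ?_
      by_cases hk : τ k = i
      · rw [if_pos hk, hk, Pi.single_eq_same, h1]
      · rw [if_neg hk, Pi.single_eq_of_ne hk]
        rfl
    · rw [← Finset.sum_fiberwise_of_maps_to (s := Finset.univ) (t := Finset.univ) (g := τ)
        (fun _ _ => Finset.mem_univ _)]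
      refine Finset.sum_congr rfl fun i _ => ?_
      rw [hm]
      simp only
      rw [Rat.cast_mul, Rat.cast_sum, Finset.mul_sum, Finset.sum_mul]
      refine Finset.sum_congr rfl fun k hk => ?_
      rw [(Finset.mem_filter.1 hk).2, h1]
      ring
  -- vanishing
  have hvan : ∀ b : κ₁ → Fin 2, (∑ k, (Pi.single j (dd j) : J → Fin 2 → ℂ) (τ k) (b k)) ≠ 0 →
      ∀ a, U a b = 0 := by
    intro b hb a
    by_contra hne
    obtain ⟨m, hm1, hm2⟩ := hwt b
    rw [hm1 j, if_neg hj] at hb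
    have hmj : m j ≠ 0 := by
      intro h0
      apply hb
      rw [h0, Rat.cast_zero, zero_mul]
    have h1 : act (Y.map (algebraMap ℚ ℂ)) (fun a => U a b) =
        (lam - ∑ i, ((r i * m i : ℚ) : ℂ) * (if C i = 0 then 0 else (ω i : ℂ))) •
          (fun a => U a b) := by
      funext a
      have h2 := hact a b
      rw [hm2] at h2
      rw [Pi.smul_apply, smul_eq_mul]
      linear_combination h2
    obtain ⟨z, hz, hz'⟩ := eig_mem h1 (fun h => hne (congrFun h a))
    -- separate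
    obtain ⟨S, hS⟩ : ∃ S : Finset J, S = (Finset.univ.filter fun i => C i ≠ 0).erase j := ⟨_, rfl⟩
    have hSi : ∀ i ∈ S, i ≠ j ∧ C i ≠ 0 := fun i hi => by
      rw [hS] at hi
      exact ⟨Finset.ne_of_mem_erase hi, (Finset.mem_filter.1 (Finset.mem_of_mem_erase hi)).2⟩
    have h3 := sep (Lam_stable Y) (sq_rat (hC j).betti (hω j hj)) (hω1 j hj) S
      (fun i hi => sq_rat (hC i).betti (hω i (hSi i hi).2))
      (fun i hi => hω2 i j (hSi i hi).2 hj (hSi i hi).1) q (-(r j * m j)) (fun i => -(r i * m i)) (by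
        have h4 : algebraMap ℚ AA q + (-(r j * m j)) • ω j + ∑ i ∈ S, (-(r i * m i)) • ω i = z := by
          apply Subtype.ext
          rw [hz']
          have h5 : ((algebraMap ℚ AA q + (-(r j * m j)) • ω j +
              ∑ i ∈ S, (-(r i * m i)) • ω i : AA) : ℂ) =
              (q : ℂ) + ((-(r j * m j) : ℚ) : ℂ) * ω j +
                ∑ i ∈ S, ((-(r i * m i) : ℚ) : ℂ) * ω i := by
            have e1 : ∀ (x : ℚ) (w : AA), ((x • w : AA) : ℂ) = (x : ℂ) * w := by
              intro x w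
              rw [Algebra.smul_def]
              rfl
            rw [AddMemClass.coe_add, AddMemClass.coe_add, e1]
            have e2 : ((∑ i ∈ S, (-(r i * m i)) • ω i : AA) : ℂ) =
                ∑ i ∈ S, (((-(r i * m i)) • ω i : AA) : ℂ) := map_sum (algebraMap AA ℂ) _ _
            rw [e2]
            simp only [e1]
            rfl
          rw [h5, hq]
          have h6 : ∑ i, ((r i * m i : ℚ) : ℂ) * (if C i = 0 then 0 else (ω i : ℂ)) =
              ((r j * m j : ℚ) : ℂ) * ω j + ∑ i ∈ S, ((r i * m i : ℚ) : ℂ) * ω i := by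
            have h7 : ∑ i, ((r i * m i : ℚ) : ℂ) * (if C i = 0 then 0 else (ω i : ℂ)) =
                ∑ i ∈ Finset.univ.filter (fun i => C i ≠ 0), ((r i * m i : ℚ) : ℂ) * ω i := by
              rw [Finset.sum_filter]
              refine Finset.sum_congr rfl fun i _ => ?_
              by_cases hi : C i = 0
              · rw [if_pos hi, if_neg (fun h => h hi), mul_zero]
              · rw [if_neg hi, if_pos hi]
            rw [h7, hS, Finset.add_sum_erase _ (fun i => ((r i * m i : ℚ) : ℂ) * (ω i : ℂ))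
              (Finset.mem_filter.2 ⟨Finset.mem_univ _, hj⟩)]
          rw [h6]
          have h8 : ∑ i ∈ S, ((-(r i * m i) : ℚ) : ℂ) * (ω i : ℂ) =
              -∑ i ∈ S, ((r i * m i : ℚ) : ℂ) * ω i := by
            rw [← Finset.sum_neg_distrib]
            refine Finset.sum_congr rfl fun i _ => ?_
            push_cast
            ring
          rw [h8]
          push_cast
          ring
        rw [h4]
        exact hz)
    apply hcY
    have h9 := (Lam Y).smul_mem (-(m j)⁻¹) h3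
    rw [smul_smul, hrj] at h9
    have h10 : -(m j)⁻¹ * -(c * m j) = c := by field_simp
    rwa [h10] at h9
  -- conclusion
  have hfin : pulld (fun k => R (τ k))
      (actd (fun k => (Pi.single j (C j) : J → M2) (τ k)) (T I₀)) = 0 := by
    rw [← actd_pulld (X := fun k => diagonal ((Pi.single j (dd j) : J → Fin 2 → ℂ) (τ k)))]
    · funext b
      rw [actd_diag]
      by_cases hb : (∑ k, (Pi.single j (dd j) : J → Fin 2 → ℂ) (τ k) (b k)) = 0
      · rw [hb, zero_mul]
        rfl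
      · have h1 := hvan b hb I₀
        have h2 : pulld (fun k => R (τ k)) (T I₀) b = U I₀ b := by rw [hU]
        rw [h2, h1, mul_zero]
        rfl
    · intro k
      by_cases hk : τ k = j
      · rw [hk, Pi.single_eq_same, Pi.single_eq_same]
        exact hR' j
      · rw [Pi.single_eq_of_ne hk, Pi.single_eq_of_ne hk, Matrix.zero_mul]
        have h1 : diagonal (0 : Fin 2 → ℂ) = (0 : M2) := diagonal_zero
        rw [h1, Matrix.mul_zero]
  have hinv : ∀ c : (κ₁ → Fin 2) → ℂ,
      pulld (fun k => (R (τ k))⁻¹) (pulld (fun k => R (τ k)) c) = c := by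
    intro c
    rw [pulld_pulld]
    have h1 : (fun k => R (τ k) * (R (τ k))⁻¹) = fun _ : κ₁ => (1 : M2) := by
      funext k
      exact Matrix.mul_nonsing_inv _ (isUnit_iff_ne_zero.2 (hR0 _))
    rw [h1, pulld_one]
  rw [← hinv (actd _ (T I₀)), hfin, pulld_zero]

end

end Pool.Agent.TH128.GZ
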