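import Mathlib
import Pool.Agent.TH128.GZ.CmKill

/-!
# There are few exceptional imaginary quadratic fields
-/

set_option linter.unusedSectionVars false

namespace Pool.Agent.TH128.GZ

open Matrix Pool.Agent.TH119.DR Pool.Agent.W437.HK

variable {K : Subfield ℂ} {B D : Type*} [Fintype B] [DecidableEq B] [DecidableEq D]

/-- There are few exceptional elliptic curves with complex multiplication. -/
theorem excC_card {Q : Matrix B B ℂ} {deg : B → D} {ι : Type*} {P C : ι → M2} {ω : ι → AA}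
    (T : Finset ι) (hC : ∀ i ∈ T, IsCM QQ K (P i) (C i)) (hC0 : ∀ i ∈ T, C i ≠ 0)
    (hω : ∀ i ∈ T, (ω i : ℂ) ^ 2 = -(C i).det)
    (hω1 : ∀ i ∈ T, ∀ q : ℚ, ω i ≠ algebraMap ℚ AA q)
    (hω2 : ∀ i ∈ T, ∀ j ∈ T, i ≠ j → ∀ q : ℚ, ω i * ω j ≠ algebraMap ℚ AA q)
    (htr : ∀ i ∈ T, ∃ δ, dM δ (P i) ≠ 0)
    (hE : ∀ i ∈ T, ExcC K Q deg (P i) (C i) (ω i)) : T.card ≤ Fintype.card B := by
  classical
  have hE' : ∀ j : T, ∃ L : Submodule ℂ (LA Unit B), SubL QQ K (fun _ => P j) Q deg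
      (fun _ => C j) L ∧ (∀ δ, dL δ (fun _ => P j) Q ∈ L) ∧ ∀ (c : ℚ) (Y : Matrix B B ℚ),
      ((fun _ => (c : ℂ) • C j, Y.map (algebraMap ℚ ℂ)) : LA Unit B) ∈ L → c • ω j ∈ Lam Y :=
    fun j => hE j j.2
  choose L hL hLδ hL0 using hE'
  -- the rational elements
  obtain ⟨V, hV⟩ : ∃ V : Submodule ℚ (LA T B), ∀ x, x ∈ V ↔ (∀ j, res j x ∈ L j) ∧
      (∀ j a b, x.1 j a b ∈ QQ) ∧ ∀ a b, x.2 a b ∈ QQ :=
    ⟨{ carrier := {x | (∀ j, res j x ∈ L j) ∧ (∀ j a b, x.1 j a b ∈ QQ) ∧ ∀ a b, x.2 a b ∈ QQ}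
       zero_mem' := ⟨fun j => by rw [map_zero]; exact (L j).zero_mem, fun _ _ _ => QQ.zero_mem,
        fun _ _ => QQ.zero_mem⟩
       add_mem' := by
        intro x y hx hy
        refine ⟨fun j => ?_, fun j a b => QQ.add_mem (hx.2.1 j a b) (hy.2.1 j a b),
          fun a b => QQ.add_mem (hx.2.2 a b) (hy.2.2 a b)⟩
        rw [map_add]
        exact (L j).add_mem (hx.1 j) (hy.1 j)
       smul_mem' := by
        intro c x hx
        have h1 : c • x = (c : ℂ) • x := by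
          refine Prod.ext ?_ ?_
          · funext j
            ext a b
            change c • x.1 j a b = (c : ℂ) * x.1 j a b
            rw [Algebra.smul_def]
            rfl
          · ext a b
            change c • x.2 a b = (c : ℂ) * x.2 a b
            rw [Algebra.smul_def]
            rfl
        rw [h1]
        refine ⟨fun j => ?_, fun j a b => QQ.mul_mem (mem_QQ c) (hx.2.1 j a b),
          fun a b => QQ.mul_mem (mem_QQ c) (hx.2.2 a b)⟩
        rw [map_smul]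
        exact (L j).smul_mem _ (hx.1 j) }, fun x => Iff.rfl⟩
  -- the coordinates
  obtain ⟨W, hW⟩ : ∃ W : T → Submodule ℚ V, ∀ j x, x ∈ W j ↔ (x : LA T B).1 j = 0 :=
    ⟨fun j => { carrier := {x | (x : LA T B).1 j = 0}
                zero_mem' := rfl
                add_mem' := by
                  intro x y hx hy
                  change (x : LA T B).1 j + (y : LA T B).1 j = 0
                  rw [hx, hy, add_zero]
                smul_mem' := by
                  intro c x hx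
                  change c • (x : LA T B).1 j = 0
                  rw [hx, smul_zero] }, fun j x => Iff.rfl⟩
  have hWtop : ∀ j, W j ≠ ⊤ := by
    intro j hj
    obtain ⟨δ, hδ⟩ := htr j j.2
    obtain ⟨y, hy⟩ : ∃ y : LA T B, y = dL δ (fun j : T => P j) Q := ⟨_, rfl⟩
    have hyj : y.1 j ≠ 0 := by
      rw [hy]
      exact hδ
    obtain ⟨f, hf, hfy⟩ := exists_map_ne QQ hyj
    have h1 : mp f y ∈ V := by
      rw [hV]
      refine ⟨fun i => ?_, fun i a b => hf _, fun a b => hf _⟩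
      rw [res_mp]
      refine (hL i).betti f _ ?_
      rw [hy]
      exact hLδ i δ
    have h2 : (⟨mp f y, h1⟩ : V) ∈ W j := by
      rw [hj]
      exact Submodule.mem_top
    rw [hW] at h2
    exact hfy h2
  obtain ⟨x, hx⟩ : ∃ x : V, ∀ j, (x : LA T B).1 j ≠ 0 := by
    by_contra hcon
    push Not at hcon
    obtain ⟨j, hj⟩ := Subspace.exists_eq_top_of_iUnion_eq_univ (p := W) (by
      rw [Set.eq_univ_iff_forall]
      intro x
      obtain ⟨j, hj⟩ := hcon x
      exact Set.mem_iUnion.2 ⟨j, (hW j x).2 hj⟩)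
    exact hWtop j hj
  obtain ⟨hx1, hx2, hx3⟩ := (hV _).1 x.2
  obtain ⟨Y, hY⟩ := mat_rat hx3
  refine card_le Y T (fun i hi => sq_rat (hC i hi).betti (hω i hi)) hω1 hω2 fun i hi => ?_
  obtain ⟨d, hd⟩ := (hL ⟨i, hi⟩).cm _ (hx1 ⟨i, hi⟩) () (hC0 i hi)
  change (x : LA T B).1 ⟨i, hi⟩ = d • C i at hd
  obtain ⟨a, b, hab⟩ : ∃ a b, C i a b ≠ 0 := by
    by_contra hcon
    push Not at hcon
    exact hC0 i hi (by
      ext a b
      exact hcon a b)
  have h1 : d = (x : LA T B).1 ⟨i, hi⟩ a b * (C i a b)⁻¹ := by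
    rw [hd, Matrix.smul_apply, smul_eq_mul]
    field_simp
  obtain ⟨r, hr⟩ := rat_of_mem (z := d) (by
    rw [h1]
    exact QQ.mul_mem (hx2 _ a b) (QQ.inv_mem ((hC i hi).betti a b)))
  have hr0 : r ≠ 0 := by
    rintro rfl
    apply hx ⟨i, hi⟩
    rw [hd, ← hr, Rat.cast_zero, zero_smul]
  have h2 : r • ω i ∈ Lam Y := by
    refine hL0 ⟨i, hi⟩ r Y ?_
    have h3 := hx1 ⟨i, hi⟩
    have h4 : res ⟨i, hi⟩ (x : LA T B) = (fun _ => (r : ℂ) • C i, Y.map (algebraMap ℚ ℂ)) := by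
      refine Prod.ext (funext fun _ => ?_) hY
      change (x : LA T B).1 ⟨i, hi⟩ = _
      rw [hd, hr]
    rwa [h4] at h3
  have h5 := (Lam Y).smul_mem r⁻¹ h2
  rwa [smul_smul, inv_mul_cancel₀ hr0, one_smul] at h5

end Pool.Agent.TH128.GZ
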