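import Mathlib
import Pool.Agent.H204R3.GP.FFT
import Pool.Agent.TH128.GZ.CmCount

/-!
# The first fundamental theorem
-/

set_option linter.unusedSectionVars false

namespace Pool.Agent.TH128.GZ

open Matrix Pool.Agent.TH119.DR Pool.Agent.W437.HK Pool.Agent.H204R3.SP Pool.Agent.H204R3.GP

/-- The standard symplectic form on the plane. -/
def Eps : M2 := !![0, 1; -1, 0]

/-- The divisor classes: the polarization, and its translate by the complex multiplication. -/
def gm (C : M2) (h : Fin 2) : M2 := if h = 0 then Eps else Eps * C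

variable {J : Type*} [Fintype J] [DecidableEq J] {κ : Type} [Fintype κ] [DecidableEq κ]

/-- A product of divisor classes. -/
def mw (τ : κ → J) (C : J → M2) {m : ℕ} (e : Fin m × Fin 2 ≃ κ) (h : Fin m → Fin 2) :
    (κ → Fin 2) → ℂ :=
  fun I => ∏ s, gm (C (τ (e (s, 0)))) (h s) (I (e (s, 0))) (I (e (s, 1)))

/-- The products of divisor classes. -/
def WW (τ : κ → J) (C : J → M2) : Set ((κ → Fin 2) → ℂ) :=
  {w | ∃ (m : ℕ) (e : Fin m × Fin 2 ≃ κ) (h : Fin m → Fin 2),
    (∀ s, τ (e (s, 0)) = τ (e (s, 1))) ∧ w = mw τ C e h}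

/-! ### Expansions of products -/

theorem prod_mem (τ : κ → J) (C : J → M2) {m : ℕ} (e : Fin m × Fin 2 ≃ κ)
    (he : ∀ s, τ (e (s, 0)) = τ (e (s, 1))) (M : Fin m → M2)
    (hM : ∀ s, ∃ a b : ℂ, M s = a • Eps + b • (Eps * C (τ (e (s, 0))))) :
    (fun I : κ → Fin 2 => ∏ s, M s (I (e (s, 0))) (I (e (s, 1)))) ∈
      Submodule.span ℂ (WW τ C) := by
  choose a b hab using hM
  have h1 : (fun I : κ → Fin 2 => ∏ s, M s (I (e (s, 0))) (I (e (s, 1)))) =
      ∑ h : Fin m → Fin 2, (∏ s, (if h s = 0 then a s else b s)) • mw τ C e h := by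
    funext I
    have h2 : ∀ s, M s (I (e (s, 0))) (I (e (s, 1))) =
        ∑ h : Fin 2, (if h = 0 then a s else b s) *
          gm (C (τ (e (s, 0)))) h (I (e (s, 0))) (I (e (s, 1))) := by
      intro s
      rw [hab s, Fin.sum_univ_two, if_pos rfl, if_neg (by decide), Matrix.add_apply,
        Matrix.smul_apply, Matrix.smul_apply, smul_eq_mul, smul_eq_mul]
      unfold gm
      rw [if_pos rfl, if_neg (by decide)]
    rw [Finset.prod_congr rfl (fun s _ => h2 s), Finset.prod_univ_sum, Fintype.piFinset_univ,
      Finset.sum_apply]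
    refine Finset.sum_congr rfl fun h _ => ?_
    rw [Pi.smul_apply, smul_eq_mul, Finset.prod_mul_distrib]
    rfl
  rw [h1]
  exact Submodule.sum_mem _ fun h _ => Submodule.smul_mem _ _
    (Submodule.subset_span ⟨m, e, h, he, rfl⟩)

/-- The change of coordinates of a product. -/
theorem pulld_prod {m : ℕ} (e : Fin m × Fin 2 ≃ κ) (R : κ → M2) (M : Fin m → M2) :
    pulld R (fun I : κ → Fin 2 => ∏ s, M s (I (e (s, 0))) (I (e (s, 1)))) =
      fun I => ∏ s, ((R (e (s, 0)))ᵀ * M s * R (e (s, 1))) (I (e (s, 0))) (I (e (s, 1))) := by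
  funext x
  unfold pulld
  have h1 : ∀ s, ((R (e (s, 0)))ᵀ * M s * R (e (s, 1))) (x (e (s, 0))) (x (e (s, 1))) =
      ∑ p : Fin 2 × Fin 2, R (e (s, 0)) p.1 (x (e (s, 0))) * R (e (s, 1)) p.2 (x (e (s, 1))) *
        M s p.1 p.2 := by
    intro s
    rw [Fintype.sum_prod_type, Matrix.mul_apply, Fin.sum_univ_two, Matrix.mul_apply,
      Matrix.mul_apply, Fin.sum_univ_two, Fin.sum_univ_two, Fin.sum_univ_two, Fin.sum_univ_two,
      Fin.sum_univ_two]
    simp only [Matrix.transpose_apply]
    ring
  rw [Finset.prod_congr rfl (fun s _ => h1 s), Finset.prod_univ_sum, Fintype.piFinset_univ]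
  -- reindex
  obtain ⟨E, hE⟩ : ∃ E : (κ → Fin 2) ≃ (Fin m → Fin 2 × Fin 2), ∀ I s,
      E I s = (I (e (s, 0)), I (e (s, 1))) := by
    refine ⟨⟨fun I s => (I (e (s, 0)), I (e (s, 1))), fun p k => if (e.symm k).2 = 0 then
      (p (e.symm k).1).1 else (p (e.symm k).1).2, fun I => ?_, fun p => ?_⟩, fun I s => rfl⟩
    · funext k
      obtain ⟨⟨s, i⟩, rfl⟩ := e.surjective k
      simp only [Equiv.symm_apply_apply]
      fin_cases i <;> simp
    · funext s
      simp
  rw [← Equiv.sum_comp E]
  refine Finset.sum_congr rfl fun I _ => ?_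
  have h2 : ∏ k, R k (I k) (x k) =
      ∏ s, (R (e (s, 0)) (I (e (s, 0))) (x (e (s, 0))) *
        R (e (s, 1)) (I (e (s, 1))) (x (e (s, 1)))) := by
    rw [← Equiv.prod_comp e, Fintype.prod_prod_type]
    exact Finset.prod_congr rfl fun s _ => Fin.prod_univ_two _
  rw [h2]
  simp only [hE, Finset.prod_mul_distrib]

/-! ### The coordinates -/

/-- The dual basis vector. -/
def iv2 (x : Fin 2 × J) : Fin 2 × J := (x.1 + 1, x.2)

/-- The sign. -/
def jj2 (x : Fin 2 × J) : ℂ := if x.1 = 0 then 1 else -1

/-- The class of a basis vector. -/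
noncomputable def cl2 (C : J → M2) (x : Fin 2 × J) : J × Fin 2 :=
  open Classical in (x.2, if C x.2 = 0 then 0 else x.1)

theorem fin2_add (a : Fin 2) : a + 1 + 1 = a := by fin_cases a <;> rfl

theorem JJ2 (x y : Fin 2 × J) : JJ iv2 jj2 x y = if x.2 = y.2 then Eps x.1 y.1 else 0 := by
  unfold JJ iv2 jj2 Eps
  obtain ⟨a, i⟩ := x
  obtain ⟨b, j⟩ := y
  by_cases hij : i = j
  · subst hij
    fin_cases a <;> fin_cases b <;> simp
  · rw [if_neg hij, if_neg]
    intro h
    exact hij (congrArg Prod.snd h).symm

/-- Extension by zero. -/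
def exd (τ : κ → J) (u : (κ → Fin 2) → ℂ) (I : κ → Fin 2 × J) : ℂ :=
  if ∀ k, (I k).2 = τ k then u (fun k => (I k).1) else 0

/-- The matrix of the Lie algebra. -/
def ss (x y : Fin 2) : M2 := Matrix.of fun a b =>
  (if a = y then Eps x b else 0) + (if a = x then Eps y b else 0)

theorem tr_ss (x y : Fin 2) : (ss x y).trace = 0 := by
  rw [tr_eq]
  unfold ss Eps
  fin_cases x <;> fin_cases y <;> simp

theorem ss_diag (x : Fin 2) : ss x (x + 1) = (if x = 0 then (-1 : ℂ) else -1) •
    (diagonal ![1, -1] : M2) := by
  unfold ss Eps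
  apply m2_ext <;> fin_cases x <;> simp

/-- The relation. -/
theorem exd_rel (τ : κ → J) {u : (κ → Fin 2) → ℂ} {x y : Fin 2} {j : J}
    (h : actd (fun k => (Pi.single j (ss x y) : J → M2) (τ k)) u = 0) (I : κ → Fin 2 × J) :
    ∑ k, (JJ iv2 jj2 (x, j) (I k) * exd τ u (Function.update I k (y, j)) +
      JJ iv2 jj2 (y, j) (I k) * exd τ u (Function.update I k (x, j))) = 0 := by
  by_cases hI : ∀ k, (I k).2 = τ k
  · have h1 := congrFun h (fun k => (I k).1)
    rw [Pi.zero_apply] at h1
    rw [← h1]
    unfold actd
    refine Finset.sum_congr rfl fun k _ => ?_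
    rw [JJ2, JJ2]
    by_cases hk : τ k = j
    · have hup : ∀ z : Fin 2, exd τ u (Function.update I k (z, j)) =
          u (Function.update (fun k => (I k).1) k z) := by
        intro z
        unfold exd
        rw [if_pos]
        · congr 1
          funext l
          by_cases hl : l = k
          · subst hl
            rw [Function.update_self, Function.update_self]
          · rw [Function.update_of_ne hl, Function.update_of_ne hl]
        · intro l
          by_cases hl : l = k
          · subst hl
            rw [Function.update_self, hk]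
          · rw [Function.update_of_ne hl, hI l]
      have e1 : (Pi.single j (ss x y) : J → M2) (τ k) = ss x y := by
        rw [hk, Pi.single_eq_same]
      change _ = ∑ z, (Pi.single j (ss x y) : J → M2) (τ k) z (I k).1 *
        u (Function.update (fun k => (I k).1) k z)
      rw [hup, hup, if_pos (by rw [hI k, hk]), if_pos (by rw [hI k, hk]), e1, Fin.sum_univ_two]
      change Eps x (I k).1 * _ + Eps y (I k).1 * _ = _
      generalize (I k).1 = w
      unfold ss
      simp only [Matrix.of_apply]
      fin_cases x <;> fin_cases y <;> simp <;> ring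
    · have e1 : (Pi.single j (ss x y) : J → M2) (τ k) = 0 := Pi.single_eq_of_ne hk _
      change _ = ∑ z, (Pi.single j (ss x y) : J → M2) (τ k) z (I k).1 *
        u (Function.update (fun k => (I k).1) k z)
      rw [if_neg (by rw [hI k]; exact fun h => hk h.symm),
        if_neg (by rw [hI k]; exact fun h => hk h.symm), e1]
      simp
  · push Not at hI
    obtain ⟨k₀, hk₀⟩ := hI
    refine Finset.sum_eq_zero fun k _ => ?_
    by_cases hk : k = k₀
    · subst hk
      rw [JJ2, JJ2]
      by_cases hj : j = (I k).2
      · have hup : ∀ z : Fin 2, exd τ u (Function.update I k (z, j)) = 0 := by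
          intro z
          unfold exd
          rw [if_neg]
          intro h2
          have h3 := h2 k
          rw [Function.update_self] at h3
          exact hk₀ (by rw [← hj, ← h3])
        rw [hup, hup]
        ring
      · rw [if_neg hj, if_neg hj]
        ring
    · have hup : ∀ z : Fin 2, exd τ u (Function.update I k (z, j)) = 0 := by
        intro z
        unfold exd
        rw [if_neg]
        intro h2
        have h3 := h2 k₀
        rw [Function.update_of_ne (Ne.symm hk)] at h3
        exact hk₀ h3
      rw [hup, hup]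
      ring

/-- The components of a form satisfy the relations. -/
theorem typ_inv {R Q : Type*} [Fintype R] [DecidableEq R] [DecidableEq Q] {cls : R → Q}
    {inv : R → R} {jj : R → ℂ} {c : (κ → R) → ℂ}
    (hinv : ∀ b d, cls (inv b) = cls d → cls (inv d) = cls b)
    (h : ∀ b d : R, cls (inv b) = cls d → ∀ I : κ → R,
      ∑ l, (JJ inv jj b (I l) * c (Function.update I l d) +
        JJ inv jj d (I l) * c (Function.update I l b)) = 0) (t : κ → Q) :
    typ cls t c ∈ InvG cls inv jj κ t := by
  refine ⟨fun b d hbd I => ?_, fun I hI l => ?_⟩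
  · have key : ∀ (x y : R), cls (inv x) = cls y → ∀ l,
        JJ inv jj x (I l) * typ cls t c (Function.update I l y) =
        if ∀ l, cls (I l) = t l then JJ inv jj x (I l) * c (Function.update I l y) else 0 := by
      intro x y hxy l
      by_cases hx : I l = inv x
      · have h1 : cls (I l) = cls y := by rw [hx, hxy]
        have h2 : (∀ l', cls (Function.update I l y l') = t l') ↔ ∀ l', cls (I l') = t l' := by
          refine forall_congr' fun l' => ?_
          by_cases hl : l' = l
          · subst hl
            rw [Function.update_self, h1]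
          · rw [Function.update_of_ne hl]
        rw [typ_apply]
        by_cases h3 : ∀ l', cls (I l') = t l'
        · rw [if_pos (h2.2 h3), if_pos h3]
        · rw [if_neg (fun h => h3 (h2.1 h)), if_neg h3, mul_zero]
      · have h1 : JJ inv jj x (I l) = 0 := by
          unfold JJ
          rw [if_neg hx]
        rw [h1, zero_mul, zero_mul]
        split_ifs <;> rfl
    have h4 : ∀ l, JJ inv jj b (I l) * typ cls t c (Function.update I l d) +
        JJ inv jj d (I l) * typ cls t c (Function.update I l b) =
        if ∀ l, cls (I l) = t l then (JJ inv jj b (I l) * c (Function.update I l d) +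
          JJ inv jj d (I l) * c (Function.update I l b)) else 0 := by
      intro l
      rw [key b d hbd l, key d b (hinv b d hbd) l]
      split_ifs
      · rfl
      · rw [add_zero]
    rw [Finset.sum_congr rfl (fun l _ => h4 l)]
    by_cases h5 : ∀ l, cls (I l) = t l
    · simp only [if_pos h5]
      exact h b d hbd I
    · simp only [if_neg h5, Finset.sum_const_zero]
  · rw [typ_apply] at hI
    by_contra h1
    apply hI
    rw [if_neg]
    intro h2
    exact h1 (h2 l)

end Pool.Agent.TH128.GZ
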