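import Mathlib
import Pool.Agent.TH128.GZ.Fft

/-!
# The first fundamental theorem for elliptic curves with and without complex multiplication
-/

set_option linter.unusedSectionVars false

namespace Pool.Agent.TH128.GZ

open Matrix Pool.Agent.TH119.DR Pool.Agent.W437.HK Pool.Agent.H204R3.SP Pool.Agent.H204R3.GP

variable {J : Type*} [Fintype J] [DecidableEq J] {κ : Type} [Fintype κ] [DecidableEq κ]

theorem eps_conj (A : M2) : Aᵀ * Eps * A = A.det • Eps := by
  unfold Eps
  rw [det_fin_two]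
  apply m2_ext <;> simp only [m2_mul, Matrix.transpose_apply, Matrix.smul_apply, smul_eq_mul,
    Matrix.of_apply, Matrix.cons_val', Matrix.cons_val_zero, Matrix.cons_val_one,
    Matrix.cons_val_fin_one] <;> ring

theorem actd_smul (a : ℂ) (X : κ → M2) (c : (κ → Fin 2) → ℂ) :
    actd (fun k => a • X k) c = a • actd X c := by
  funext I
  simp only [actd, Pi.smul_apply, Matrix.smul_apply, smul_eq_mul, Finset.mul_sum, mul_assoc]

/-- The classes of dual vectors. -/
theorem cl2_iff {C : J → M2} {x y : Fin 2} {i j : J} :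
    cl2 C (iv2 (x, j)) = cl2 C (y, i) ↔ i = j ∧ (C j ≠ 0 → y = x + 1) := by
  unfold cl2 iv2
  simp only [Prod.mk.injEq]
  constructor
  · rintro ⟨rfl, h⟩
    refine ⟨rfl, fun hj => ?_⟩
    rw [if_neg hj, if_neg hj] at h
    exact h.symm
  · rintro ⟨rfl, h⟩
    refine ⟨rfl, ?_⟩
    by_cases hj : C i = 0
    · rw [if_pos hj, if_pos hj]
    · rw [if_neg hj, if_neg hj, h hj]

/-- The product of the form with a diagonal matrix. -/
theorem eps_diag (w : ℂ) : Eps * diagonal ![w, -w] = !![0, -w; -w, 0] := by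
  unfold Eps
  apply m2_ext <;> rw [m2_mul] <;> simp

open Classical in
/-- The matrices of one factor of a product. -/
theorem factor {C R : M2} {w : ℂ} (hR0 : R.det ≠ 0) (hw : C ≠ 0 → w ≠ 0)
    (hRC : C ≠ 0 → C * R = R * diagonal ![w, -w]) (x₀ : Fin 2) (q : Prop) :
    ∃ a b : ℂ, (R⁻¹)ᵀ * (Matrix.of fun x y : Fin 2 => if q ∧ (C ≠ 0 → x = x₀) then Eps x y else 0) *
      R⁻¹ = a • Eps + b • (Eps * C) := by
  have hu : IsUnit R.det := isUnit_iff_ne_zero.2 hR0
  by_cases hq : q
  · by_cases hC : C = 0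
    · refine ⟨(R⁻¹).det, 0, ?_⟩
      have h1 : (Matrix.of fun x y : Fin 2 => if q ∧ (C ≠ 0 → x = x₀) then Eps x y else 0) = Eps := by
        ext x y
        rw [Matrix.of_apply, if_pos ⟨hq, fun h => absurd hC h⟩]
      rw [h1, eps_conj, zero_smul, add_zero]
    · have hw0 := hw hC
      have hCR := hRC hC
      obtain ⟨sg, hsg⟩ : ∃ sg : ℂ, sg = if x₀ = 0 then -1 else 1 := ⟨_, rfl⟩
      refine ⟨(R⁻¹).det / 2, (R⁻¹).det * sg / (2 * w), ?_⟩
      have h1 : (Matrix.of fun x y : Fin 2 => if q ∧ (C ≠ 0 → x = x₀) then Eps x y else 0) =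
          (1 / 2 : ℂ) • Eps + (sg / (2 * w)) • (Eps * diagonal ![w, -w]) := by
        rw [hsg, eps_diag]
        have h2 : (Matrix.of fun x y : Fin 2 => if q ∧ (C ≠ 0 → x = x₀) then Eps x y else 0) =
            Matrix.of fun x y : Fin 2 => if x = x₀ then Eps x y else 0 := by
          ext x y
          rw [Matrix.of_apply, Matrix.of_apply]
          congr 1
          exact propext ⟨fun h => h.2 hC, fun h => ⟨hq, fun _ => h⟩⟩
        rw [h2]
        unfold Eps
        apply m2_ext <;> fin_cases x₀ <;> simp <;> field_simp <;> norm_num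
      have h2 : (R⁻¹)ᵀ * (Eps * diagonal ![w, -w]) * R⁻¹ = (R⁻¹).det • (Eps * C) := by
        have h3 : diagonal ![w, -w] * R⁻¹ = R⁻¹ * C := by
          calc diagonal ![w, -w] * R⁻¹ = (R⁻¹ * R) * diagonal ![w, -w] * R⁻¹ := by
                rw [Matrix.nonsing_inv_mul _ hu, Matrix.one_mul]
            _ = R⁻¹ * (R * diagonal ![w, -w]) * R⁻¹ := by rw [Matrix.mul_assoc R⁻¹]
            _ = R⁻¹ * (C * R) * R⁻¹ := by rw [hCR]
            _ = R⁻¹ * C * (R * R⁻¹) := by simp only [Matrix.mul_assoc]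
            _ = R⁻¹ * C := by rw [Matrix.mul_nonsing_inv _ hu, Matrix.mul_one]
        rw [Matrix.mul_assoc, Matrix.mul_assoc Eps, h3, ← Matrix.mul_assoc, ← Matrix.mul_assoc,
          eps_conj, Matrix.smul_mul]
      rw [h1, Matrix.mul_add, Matrix.add_mul, Matrix.mul_smul, Matrix.smul_mul, eps_conj,
        Matrix.mul_smul, Matrix.smul_mul, h2, smul_smul, smul_smul]
      congr 2 <;> ring
  · refine ⟨0, 0, ?_⟩
    have h1 : (Matrix.of fun x y : Fin 2 => if q ∧ (C ≠ 0 → x = x₀) then Eps x y else 0) =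
        (0 : M2) := by
      ext x y
      rw [Matrix.of_apply, if_neg (fun h => hq h.1)]
      rfl
    rw [h1, Matrix.mul_zero, Matrix.zero_mul, zero_smul, zero_smul, add_zero]

/-- **The first fundamental theorem.** -/
theorem fft (τ : κ → J) {C R : J → M2} {w : J → ℂ} (hR0 : ∀ j, (R j).det ≠ 0)
    (hw : ∀ j, C j ≠ 0 → w j ≠ 0) (hR1 : ∀ j, C j = 0 → R j = 1)
    (hRC : ∀ j, C j ≠ 0 → C j * R j = R j * diagonal ![w j, -w j]) {c : (κ → Fin 2) → ℂ}
    (h0 : ∀ j, C j = 0 → ∀ s : M2, s.trace = 0 →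
      actd (fun k => (Pi.single j s : J → M2) (τ k)) c = 0)
    (h1 : ∀ j, C j ≠ 0 → actd (fun k => (Pi.single j (C j) : J → M2) (τ k)) c = 0) :
    c ∈ Submodule.span ℂ (WW τ C) := by
  classical
  obtain ⟨u, hu⟩ : ∃ u, u = pulld (fun k => R (τ k)) c := ⟨_, rfl⟩
  have hcu : c = pulld (fun k => (R (τ k))⁻¹) u := by
    rw [hu, pulld_pulld]
    have h2 : (fun k => R (τ k) * (R (τ k))⁻¹) = fun _ : κ => (1 : M2) := by
      funext k
      exact Matrix.mul_nonsing_inv _ (isUnit_iff_ne_zero.2 (hR0 _))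
    rw [h2, pulld_one]
  -- the relations for `u`
  have k0 : ∀ j, C j = 0 → ∀ s : M2, s.trace = 0 →
      actd (fun k => (Pi.single j s : J → M2) (τ k)) u = 0 := by
    intro j hj s hs
    rw [hu, actd_pulld (Y := fun k => (Pi.single j s : J → M2) (τ k)), h0 j hj s hs, pulld_zero]
    intro k
    by_cases hk : τ k = j
    · rw [hk, Pi.single_eq_same, hR1 j hj, Matrix.one_mul, Matrix.mul_one]
    · rw [Pi.single_eq_of_ne hk, Matrix.zero_mul, Matrix.mul_zero]
  have k1 : ∀ j, C j ≠ 0 → actd (fun k => (Pi.single j (diagonal ![1, -1]) : J → M2) (τ k)) u =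
      0 := by
    intro j hj
    have h2 : actd (fun k => (Pi.single j (diagonal ![w j, -w j]) : J → M2) (τ k)) u = 0 := by
      rw [hu, actd_pulld (Y := fun k => (Pi.single j (C j) : J → M2) (τ k)), h1 j hj, pulld_zero]
      intro k
      by_cases hk : τ k = j
      · rw [hk, Pi.single_eq_same, Pi.single_eq_same, hRC j hj]
      · rw [Pi.single_eq_of_ne hk, Pi.single_eq_of_ne hk, Matrix.zero_mul, Matrix.mul_zero]
    have h3 : (fun k => (Pi.single j (diagonal ![1, -1]) : J → M2) (τ k)) =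
        fun k => (w j)⁻¹ • (Pi.single j (diagonal ![w j, -w j]) : J → M2) (τ k) := by
      funext k
      by_cases hk : τ k = j
      · rw [hk, Pi.single_eq_same, Pi.single_eq_same, ← diagonal_smul]
        congr 1
        funext a
        have := hw j hj
        fin_cases a <;> simp [this]
      · rw [Pi.single_eq_of_ne hk, Pi.single_eq_of_ne hk, smul_zero]
    rw [h3, actd_smul, h2, smul_zero]
  have k2 : ∀ j, actd (fun k => (Pi.single j (diagonal ![1, -1]) : J → M2) (τ k)) u = 0 := by
    intro j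
    by_cases hj : C j = 0
    · exact k0 j hj _ (by simp)
    · exact k1 j hj
  by_cases hu0 : u = 0
  · rw [hcu, hu0, pulld_zero]
    exact Submodule.zero_mem _
  -- the number of slots is even
  obtain ⟨m, hm⟩ : ∃ m, Fintype.card κ = 2 * m := by
    obtain ⟨I, hI⟩ := Function.ne_iff.1 hu0
    have hI' : u I ≠ 0 := hI
    have h2 : ∀ j, ∑ k, (Pi.single j ![1, -1] : J → Fin 2 → ℂ) (τ k) (I k) = 0 := by
      intro j
      have h3 := congrFun (k2 j) I
      have h4 : (fun k => (Pi.single j (diagonal ![1, -1]) : J → M2) (τ k)) =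
          fun k => diagonal ((Pi.single j ![1, -1] : J → Fin 2 → ℂ) (τ k)) := by
        funext k
        by_cases hk : τ k = j
        · rw [hk, Pi.single_eq_same, Pi.single_eq_same]
        · rw [Pi.single_eq_of_ne hk, Pi.single_eq_of_ne hk]
          exact diagonal_zero.symm
      rw [h4, actd_diag] at h3
      exact (mul_eq_zero.1 h3).resolve_right hI'
    have h3 : ∑ k, (![1, -1] : Fin 2 → ℂ) (I k) = 0 := by
      have h4 : ∑ j, ∑ k, (Pi.single j ![1, -1] : J → Fin 2 → ℂ) (τ k) (I k) = 0 :=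
        Finset.sum_eq_zero fun j _ => h2 j
      rw [Finset.sum_comm] at h4
      rw [← h4]
      refine Finset.sum_congr rfl fun k _ => ?_
      rw [Finset.sum_eq_single (τ k)]
      · rw [Pi.single_eq_same]
      · intro j _ hj
        rw [Pi.single_eq_of_ne (Ne.symm hj)]
        rfl
      · intro h
        exact absurd (Finset.mem_univ _) h
    have h5 : ∑ k, (![1, -1] : Fin 2 → ℂ) (I k) =
        ((Finset.univ.filter fun k => I k = 0).card : ℂ) -
          ((Finset.univ.filter fun k => ¬ I k = 0).card : ℂ) := by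
      have h6 : ∀ k, (![1, -1] : Fin 2 → ℂ) (I k) =
          (if I k = 0 then 1 else 0) - (if ¬ I k = 0 then 1 else 0) := by
        intro k
        generalize I k = a
        fin_cases a <;> simp
      rw [Finset.sum_congr rfl (fun k _ => h6 k), Finset.sum_sub_distrib, Finset.sum_boole,
        Finset.sum_boole]
    rw [h5, sub_eq_zero] at h3
    have h7 := Finset.card_filter_add_card_filter_not (s := (Finset.univ : Finset κ))
      (fun k => I k = 0)
    rw [Finset.card_univ] at h7
    have h8 : (Finset.univ.filter fun k => I k = 0).card =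
        (Finset.univ.filter fun k => ¬ I k = 0).card := by exact_mod_cast h3
    exact ⟨(Finset.univ.filter fun k => I k = 0).card, by omega⟩
  -- the library
  have hrel : ∀ b d : Fin 2 × J, cl2 C (iv2 b) = cl2 C d → ∀ I : κ → Fin 2 × J,
      ∑ l, (JJ iv2 jj2 b (I l) * exd τ u (Function.update I l d) +
        JJ iv2 jj2 d (I l) * exd τ u (Function.update I l b)) = 0 := by
    rintro ⟨x, j⟩ ⟨y, i⟩ hbd I
    obtain ⟨hij, hy⟩ := cl2_iff.1 hbd
    subst hij
    apply exd_rel
    by_cases hj : C i = 0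
    · exact k0 i hj _ (tr_ss x y)
    · rw [hy hj, ss_diag]
      have h3 : (fun k => (Pi.single i ((if x = 0 then (-1 : ℂ) else -1) •
          (diagonal ![1, -1] : M2)) : J → M2) (τ k)) = fun k =>
          (if x = 0 then (-1 : ℂ) else -1) • (Pi.single i (diagonal ![1, -1]) : J → M2) (τ k) := by
        funext k
        by_cases hk : τ k = i
        · rw [hk, Pi.single_eq_same, Pi.single_eq_same]
        · rw [Pi.single_eq_of_ne hk, Pi.single_eq_of_ne hk, smul_zero]
      rw [h3, actd_smul, k1 i hj, smul_zero]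
  have hinv : ∀ b d : Fin 2 × J, cl2 C (iv2 b) = cl2 C d → cl2 C (iv2 d) = cl2 C b := by
    rintro ⟨x, j⟩ ⟨y, i⟩ hbd
    obtain ⟨hij, hy⟩ := cl2_iff.1 hbd
    subst hij
    refine cl2_iff.2 ⟨rfl, fun h => ?_⟩
    rw [hy h, fin2_add]
  have hmem : exd τ u ∈ MatG (cl2 C) iv2 jj2 κ m := by
    rw [← sum_typ (cls := cl2 C) (exd τ u)]
    refine Submodule.sum_mem _ fun t _ => ?_
    refine fftG (fun x => ?_) (fun x => ?_) (fun x => ?_) (fun x y h => ?_) m κ hm t
      (typ_inv hinv hrel t)
    · exact Prod.ext (fin2_add x.1) rfl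
    · obtain ⟨a, j⟩ := x
      unfold jj2 iv2
      fin_cases a <;> simp
    · unfold jj2
      split_ifs
      · exact one_ne_zero
      · exact neg_ne_zero.2 one_ne_zero
    · obtain ⟨a, j⟩ := x
      obtain ⟨b, i⟩ := y
      unfold cl2 at h ⊢
      unfold iv2
      simp only [Prod.mk.injEq] at h ⊢
      obtain ⟨rfl, h⟩ := h
      refine ⟨rfl, ?_⟩
      by_cases hj : C j = 0
      · rw [if_pos hj, if_pos hj]
      · rw [if_neg hj, if_neg hj] at h ⊢
        rw [h]
  -- go back
  obtain ⟨Λ, hΛ⟩ : ∃ Λ : ((κ → Fin 2 × J) → ℂ) →ₗ[ℂ] ((κ → Fin 2) → ℂ), ∀ G,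
      Λ G = pulld (fun k => (R (τ k))⁻¹) (fun I => G (fun k => (I k, τ k))) :=
    ⟨(pulldL (fun k => (R (τ k))⁻¹)) ∘ₗ
      { toFun := fun G I => G (fun k => (I k, τ k))
        map_add' := fun _ _ => rfl
        map_smul' := fun _ _ => rfl }, fun _ => rfl⟩
  have hcΛ : c = Λ (exd τ u) := by
    rw [hΛ, hcu]
    congr 1
    funext I
    unfold exd
    rw [if_pos (fun _ => rfl)]
  rw [hcΛ]
  have hle : MatG (cl2 C) iv2 jj2 κ m ≤ (Submodule.span ℂ (WW τ C)).comap Λ := by
    unfold MatG
    rw [Submodule.span_le]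
    rintro _ ⟨e, c', rfl⟩
    rw [SetLike.mem_coe, Submodule.mem_comap, hΛ]
    by_cases he : ∀ s, τ (e (s, 0)) = τ (e (s, 1))
    · have h2 : (fun I : κ → Fin 2 => matG (cl2 C) iv2 jj2 e c' (fun k => (I k, τ k))) =
          fun I => ∏ s, (Matrix.of fun x y : Fin 2 => if (cl2 C (0, τ (e (s, 0)))).1 = (c' s).1 ∧
            (C (τ (e (s, 0))) = 0 → (c' s).2 = 0) ∧ (C (τ (e (s, 0))) ≠ 0 → x = (c' s).2)
            then Eps x y else 0 : M2) (I (e (s, 0))) (I (e (s, 1))) := by
        funext I
        unfold matG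
        refine Finset.prod_congr rfl fun s _ => ?_
        rw [JJ2]
        change (if cl2 C (I (e (s, 0)), τ (e (s, 0))) = c' s then
          (if τ (e (s, 0)) = τ (e (s, 1)) then Eps (I (e (s, 0))) (I (e (s, 1))) else 0) else 0) = _
        rw [if_pos (he s), Matrix.of_apply]
        congr 1
        apply propext
        unfold cl2
        by_cases hC : C (τ (e (s, 0))) = 0
        · simp only [if_pos hC]
          constructor
          · intro h
            rw [← h]
            exact ⟨rfl, fun _ => rfl, fun h => absurd hC h⟩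
          · rintro ⟨h3, h4, _⟩
            exact Prod.ext h3 (h4 hC).symm
        · simp only [if_neg hC]
          constructor
          · intro h
            rw [← h]
            exact ⟨rfl, fun h => absurd h hC, fun _ => rfl⟩
          · rintro ⟨h3, _, h4⟩
            exact Prod.ext h3 (h4 hC)
      rw [h2, pulld_prod]
      refine prod_mem τ C e he _ fun s => ?_
      have h3 := factor (C := C (τ (e (s, 0)))) (R := R (τ (e (s, 0)))) (hR0 _) (hw _) (hRC _)
        (c' s).2 ((cl2 C (0, τ (e (s, 0)))).1 = (c' s).1 ∧ (C (τ (e (s, 0))) = 0 → (c' s).2 = 0))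
      obtain ⟨a, b, hab⟩ := h3
      refine ⟨a, b, ?_⟩
      rw [← hab, ← he s]
      simp only [and_assoc]
    · push Not at he
      obtain ⟨s, hs⟩ := he
      have h2 : (fun I : κ → Fin 2 => matG (cl2 C) iv2 jj2 e c' (fun k => (I k, τ k))) = 0 := by
        funext I
        unfold matG
        rw [Finset.prod_eq_zero (Finset.mem_univ s)]
        · rfl
        · rw [JJ2]
          change (if cl2 C (I (e (s, 0)), τ (e (s, 0))) = c' s then
            (if τ (e (s, 0)) = τ (e (s, 1)) then Eps (I (e (s, 0))) (I (e (s, 1))) else 0)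
              else 0) = 0
          rw [if_neg hs]
          split_ifs <;> rfl
      rw [h2, pulld_zero]
      exact Submodule.zero_mem _
  exact hle hmem

end Pool.Agent.TH128.GZ
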