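import Mathlib
import Pool.Agent.TH128.GZ.FftMain

/-!
# Decompositions over the rational numbers and over the algebraic numbers
-/

set_option linter.unusedSectionVars false

namespace Pool.Agent.TH128.GZ

open Matrix Pool.Agent.TH119.DR Pool.Agent.W437.HK

/-- A linear form with values in a subfield. -/
theorem exists_formK (K : Subfield ℂ) : ∃ f : ℂ →ₗ[K] ℂ, (∀ z, f z ∈ K) ∧ ∀ q ∈ K, f q = q := by
  obtain ⟨J, t, e, f, hf, hz⟩ := exists_coords K {1}
  obtain ⟨j, hj⟩ : ∃ j, f j 1 ≠ 0 := by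
    by_contra hcon
    push Not at hcon
    apply one_ne_zero (α := ℂ)
    rw [hz _ (Finset.mem_singleton_self _)]
    exact Finset.sum_eq_zero fun j _ => by rw [hcon, mul_zero]
  have hc : (f j 1)⁻¹ ∈ K := K.inv_mem (hf j 1)
  refine ⟨(LinearMap.mulLeft K ((f j 1)⁻¹)) ∘ₗ f j, fun z => ?_, fun q hq => ?_⟩
  · change (f j 1)⁻¹ * f j z ∈ K
    exact K.mul_mem hc (hf j z)
  · change (f j 1)⁻¹ * f j q = q
    have h1 := lin_mul (f j) hq 1
    rw [mul_one] at h1
    rw [h1]
    field_simp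

/-- The coefficients with respect to linearly independent vectors over a subfield. -/
theorem coef_mem {K : Subfield ℂ} {α N : Type*} [Fintype N] {v : N → α → ℂ}
    (hv : LinearIndependent ℂ v) (hK : ∀ n a, v n a ∈ K) {u : α → ℂ} (hu : ∀ a, u a ∈ K)
    {c : N → ℂ} (h : ∀ a, u a = ∑ n, c n * v n a) (n : N) : c n ∈ K := by
  obtain ⟨f, hf, hf1⟩ := exists_formK K
  have h1 : ∑ n, (f (c n) - c n) • v n = 0 := by
    funext a
    rw [Finset.sum_apply, Pi.zero_apply]
    simp only [Pi.smul_apply, smul_eq_mul, sub_mul, Finset.sum_sub_distrib]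
    rw [sub_eq_zero, ← h a]
    have h2 := congrArg f (h a)
    rw [hf1 _ (hu a), map_sum] at h2
    rw [h2]
    exact Finset.sum_congr rfl fun n _ => (lin_mul' f (hK n a) _).symm
  have h2 := Fintype.linearIndependent_iff.1 hv _ h1 n
  rw [← sub_eq_zero.1 h2]
  exact hf _

variable {B κ₀ κ₁ : Type*} [Fintype B] [DecidableEq B] [Fintype κ₀] [DecidableEq κ₀]
  [Fintype κ₁] [DecidableEq κ₁]

theorem pull_inj' {Q : Matrix B B ℂ} (hQ : Q.det ≠ 0) {u v : (κ₀ → B) → ℂ}
    (h : pull Q u = pull Q v) : u = v := by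
  have h1 : ∀ w : (κ₀ → B) → ℂ, pull Q⁻¹ (pull Q w) = w := by
    intro w
    rw [pull_pull, Matrix.mul_nonsing_inv _ (isUnit_iff_ne_zero.2 hQ), pull_one]
  rw [← h1 u, h, h1]

theorem pulld_inj {R : κ₁ → M2} (hR : ∀ k, (R k).det ≠ 0) {u v : (κ₁ → Fin 2) → ℂ}
    (h : pulld R u = pulld R v) : u = v := by
  have h1 : ∀ w : (κ₁ → Fin 2) → ℂ, pulld (fun k => (R k)⁻¹) (pulld R w) = w := by
    intro w
    rw [pulld_pulld]
    have h2 : (fun k => R k * (R k)⁻¹) = fun _ : κ₁ => (1 : M2) :=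
      funext fun k => Matrix.mul_nonsing_inv _ (isUnit_iff_ne_zero.2 (hR k))
    rw [h2, pulld_one]
  rw [← h1 u, h, h1]

/-- The double sum. -/
theorem pull_two (Q : Matrix B B ℂ) (R : κ₁ → M2) (T : (κ₀ → B) → (κ₁ → Fin 2) → ℂ)
    (a : κ₀ → B) (b : κ₁ → Fin 2) :
    ∑ J₀, ∑ J₁, ((∏ k, Q (J₀ k) (a k)) * ∏ k, R k (J₁ k) (b k)) * T J₀ J₁ =
      pull Q (fun a' => pulld R (T a') b) a := by
  unfold pull pulld
  refine Finset.sum_congr rfl fun J₀ _ => ?_
  rw [Finset.mul_sum]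
  exact Finset.sum_congr rfl fun J₁ _ => by ring

/-- **Decompositions.** -/
theorem decomp {F K : Subfield ℂ} {Q : Matrix B B ℂ} (hQ : Q.det ≠ 0) {R : κ₁ → M2}
    (hR : ∀ k, (R k).det ≠ 0) {μ ν : ℂ} (hμ : μ ≠ 0) (hν : ν ≠ 0)
    {T T' : (κ₀ → B) → (κ₁ → Fin 2) → ℂ} (hT : ∀ a b, T a b ∈ F) (hT' : ∀ a b, T' a b ∈ K)
    (h : ∀ a b, T a b = μ * ∑ J₀, ∑ J₁, ((∏ k, Q (J₀ k) (a k)) * ∏ k, R k (J₁ k) (b k)) *
      T' J₀ J₁) {W : Set ((κ₁ → Fin 2) → ℂ)} (hW : ∀ a, T a ∈ Submodule.span ℂ W)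
    (hWF : ∀ w ∈ W, ∀ I, w I ∈ F)
    (hWK : ∀ w ∈ W, ∃ w' : (κ₁ → Fin 2) → ℂ, (∀ I, w' I ∈ K) ∧ pulld R w' = ν • w) :
    ∃ (N : ℕ) (w : Fin N → (κ₁ → Fin 2) → ℂ) (z z' : Fin N → (κ₀ → B) → ℂ), (∀ n, w n ∈ W) ∧
      (∀ n a, z n a ∈ F) ∧ (∀ n a, z' n a ∈ K) ∧ (∀ n, z n = (μ * ν) • pull Q (z' n)) ∧
      ∀ a b, T a b = ∑ n, z n a * w n b := by
  classical
  obtain ⟨b, hbW, hbs, hbl⟩ := exists_linearIndependent ℂ W
  have hbf : b.Finite := hbl.setFinite
  have := hbf.fintype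
  obtain ⟨e⟩ : Nonempty (Fin (Fintype.card b) ≃ b) := ⟨(Fintype.equivFin b).symm⟩
  obtain ⟨w, hw⟩ : ∃ w : Fin (Fintype.card b) → (κ₁ → Fin 2) → ℂ, w = fun n =>
      ((e n : b) : (κ₁ → Fin 2) → ℂ) := ⟨_, rfl⟩
  have hwW : ∀ n, w n ∈ W := fun n => by
    rw [hw]
    exact hbW (e n).2
  have hwl : LinearIndependent ℂ w := by
    rw [hw]
    exact hbl.comp e e.injective
  have hws : Submodule.span ℂ (Set.range w) = Submodule.span ℂ W := by
    rw [← hbs]
    congr 1
    ext x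
    constructor
    · rintro ⟨n, rfl⟩
      rw [hw]
      exact (e n).2
    · intro hx
      exact ⟨e.symm ⟨x, hx⟩, by rw [hw]; simp⟩
  have hc : ∀ a, ∃ c : Fin (Fintype.card b) → ℂ, ∑ n, c n • w n = T a := by
    intro a
    have h1 := hW a
    rw [← hws] at h1
    exact (Submodule.mem_span_range_iff_exists_fun ℂ).1 h1
  choose c hc using hc
  have hc' : ∀ a b, T a b = ∑ n, c a n * w n b := by
    intro a b
    rw [← hc a, Finset.sum_apply]
    rfl
  choose w' hw'K hw' using fun n => hWK (w n) (hwW n)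
  have hw'l : LinearIndependent ℂ w' := by
    rw [Fintype.linearIndependent_iff]
    intro d hd n
    have h1 := congrArg (pulldL R) hd
    rw [map_sum, map_zero] at h1
    simp only [map_smul, pulldL_apply, hw', smul_smul] at h1
    have h2 := Fintype.linearIndependent_iff.1 hwl _ h1 n
    exact (mul_eq_zero.1 h2).resolve_right hν
  obtain ⟨z', hz'⟩ : ∃ z' : Fin (Fintype.card b) → (κ₀ → B) → ℂ, z' = fun n =>
      (μ * ν)⁻¹ • pull Q⁻¹ (fun a => c a n) := ⟨_, rfl⟩
  have hzz : ∀ n, (fun a => c a n) = (μ * ν) • pull Q (z' n) := by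
    intro n
    rw [hz']
    simp only
    rw [pull_smul, pull_pull, Matrix.nonsing_inv_mul _ (isUnit_iff_ne_zero.2 hQ), pull_one,
      smul_smul, mul_inv_cancel₀ (mul_ne_zero hμ hν), one_smul]
  have hT2 : ∀ a b, T' a b = ∑ n, z' n a * w' n b := by
    obtain ⟨U, hU⟩ : ∃ U : (κ₀ → B) → (κ₁ → Fin 2) → ℂ, U = fun a b => ∑ n, z' n a * w' n b :=
      ⟨_, rfl⟩
    have h1 : ∀ a b, pull Q (fun a' => pulld R (U a') b) a =
        pull Q (fun a' => pulld R (T' a') b) a := by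
      intro a b
      have h2 : ∀ a', pulld R (U a') b = ∑ n, z' n a' * (ν * w n b) := by
        intro a'
        have h3 : U a' = ∑ n, z' n a' • w' n := by
          rw [hU]
          funext b
          rw [Finset.sum_apply]
          rfl
        have h4 := congrFun (map_sum (pulldL R) (fun n => z' n a' • w' n) Finset.univ) b
        rw [h3]
        rw [pulldL_apply] at h4
        rw [h4, Finset.sum_apply]
        refine Finset.sum_congr rfl fun n _ => ?_
        rw [map_smul, pulldL_apply, hw']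
        rfl
      have h5 := h a b
      rw [pull_two] at h5
      have h6 : pull Q (fun a' => pulld R (U a') b) a = μ⁻¹ * T a b := by
        have h7 : (fun a' => pulld R (U a') b) = fun a' => ∑ n, z' n a' * (ν * w n b) :=
          funext h2
        rw [h7, hc']
        have h8 : pull Q (fun a' => ∑ n, z' n a' * (ν * w n b)) a =
            ∑ n, pull Q (z' n) a * (ν * w n b) := by
          unfold pull
          simp only [Finset.mul_sum, Finset.sum_mul]
          rw [Finset.sum_comm]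
          exact Finset.sum_congr rfl fun n _ => Finset.sum_congr rfl fun J _ => by ring
        rw [h8, Finset.mul_sum]
        refine Finset.sum_congr rfl fun n _ => ?_
        have h9 := congrFun (hzz n) a
        rw [Pi.smul_apply, smul_eq_mul] at h9
        rw [h9]
        field_simp
      rw [h6, h5]
      field_simp
    have h2 : ∀ b, (fun a' => pulld R (U a') b) = fun a' => pulld R (T' a') b := fun b =>
      pull_inj' hQ (funext fun a => h1 a b)
    have h3 : ∀ a, U a = T' a := fun a => pulld_inj hR (funext fun b => congrFun (h2 b) a)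
    intro a b
    rw [← h3 a, hU]
  refine ⟨_, w, fun n a => c a n, z', hwW, fun n a => ?_, fun n a => ?_, hzz, hc'⟩
  · exact coef_mem hwl (fun n I => hWF _ (hwW n) I) (hT a) (c := c a) (hc' a) n
  · exact coef_mem hw'l hw'K (hT' a) (c := fun n => z' n a) (hT2 a) n

end Pool.Agent.TH128.GZ
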