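import Mathlib
import Pool.Agent.TH128.GZ.Dec

/-!
# De Rham-Betti classes on the product of a variety with elliptic curves
-/

set_option linter.unusedSectionVars false

namespace Pool.Agent.TH128.GZ

open Matrix Pool.Agent.TH119.DR Pool.Agent.W437.HK

/-- The subfield of the algebraic numbers. -/
noncomputable def QB : Subfield ℂ := (algebraicClosure ℚ ℂ).toSubfield

theorem mem_QB {z : ℂ} : z ∈ QB ↔ IsAlgebraic ℚ z := mem_algebraicClosure_iff

theorem mem_QQ_iff {z : ℂ} : z ∈ QQ ↔ ∃ q : ℚ, z = q := by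
  constructor
  · intro h
    obtain ⟨q, hq⟩ := rat_of_mem h
    exact ⟨q, hq.symm⟩
  · rintro ⟨q, rfl⟩
    exact mem_QQ q

theorem gm_conj {P C C' : M2} (hP : P.det ≠ 0) (hC' : C' = P * C * P⁻¹) (h : Fin 2) :
    Pᵀ * gm C' h * P = P.det • gm C h := by
  have hu : IsUnit P.det := isUnit_iff_ne_zero.2 hP
  unfold gm
  split_ifs
  · exact eps_conj P
  · have h1 : C' * P = P * C := by
      rw [hC', Matrix.mul_assoc, Matrix.nonsing_inv_mul _ hu, Matrix.mul_one]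
    rw [Matrix.mul_assoc, Matrix.mul_assoc, h1, ← Matrix.mul_assoc, ← Matrix.mul_assoc, eps_conj,
      Matrix.smul_mul]

section

variable {J : Type*} {κ : Type} [Fintype κ] [DecidableEq κ]

theorem gm_mem {F : Subfield ℂ} {C : M2} (hC : ∀ a b, C a b ∈ F) (h a b : Fin 2) :
    gm C h a b ∈ F := by
  have hE : ∀ a b, Eps a b ∈ F := by
    intro a b
    unfold Eps
    fin_cases a <;> fin_cases b <;> simp [F.zero_mem, F.one_mem, F.neg_mem]
  unfold gm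
  split_ifs
  · exact hE a b
  · rw [m2_mul]
    exact F.add_mem (F.mul_mem (hE _ _) (hC _ _)) (F.mul_mem (hE _ _) (hC _ _))

theorem mw_mem {F : Subfield ℂ} {C : J → M2} (hC : ∀ j a b, C j a b ∈ F) (τ : κ → J) {m : ℕ}
    (e : Fin m × Fin 2 ≃ κ) (h : Fin m → Fin 2) (I : κ → Fin 2) : mw τ C e h I ∈ F :=
  F.prod_mem fun _ _ => gm_mem (hC _) _ _ _

theorem mw_dr {P C : J → M2} {lam : ℂ} (hP : ∀ j, (P j).det = lam) (hlam : lam ≠ 0) (τ : κ → J)
    {m : ℕ} (e : Fin m × Fin 2 ≃ κ) (he : ∀ s, τ (e (s, 0)) = τ (e (s, 1))) (h : Fin m → Fin 2) :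
    pulld (fun k => P (τ k)) (mw τ (fun j => P j * C j * (P j)⁻¹) e h) =
      lam ^ m • mw τ C e h := by
  unfold mw
  rw [pulld_prod]
  funext I
  have h1 : ∀ s, ((P (τ (e (s, 0))))ᵀ * gm (P (τ (e (s, 0))) * C (τ (e (s, 0))) *
      (P (τ (e (s, 0))))⁻¹) (h s) * P (τ (e (s, 1)))) (I (e (s, 0))) (I (e (s, 1))) =
      lam * gm (C (τ (e (s, 0)))) (h s) (I (e (s, 0))) (I (e (s, 1))) := by
    intro s
    rw [← he s, gm_conj (by rw [hP]; exact hlam) rfl, hP, Matrix.smul_apply, smul_eq_mul]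
  rw [Finset.prod_congr rfl (fun s _ => h1 s), Finset.prod_mul_distrib, Finset.prod_const,
    Finset.card_univ, Fintype.card_fin]
  rfl

end

section

variable {J B D κ₀ : Type*} {κ₁ : Type} [Fintype B] [DecidableEq B] [Fintype J] [DecidableEq J]
  [DecidableEq D] [Fintype κ₀] [DecidableEq κ₀] [Fintype κ₁] [DecidableEq κ₁]

/-- The decomposition for finitely many elliptic curves which are not exceptional. -/
theorem dec_fin {P : J → M2} {Q : Matrix B B ℂ} {lam : ℂ} (hlam : lam ≠ 0)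
    (hP : ∀ j, (P j).det = lam) (hQ0 : Q.det ≠ 0) {deg : B → D}
    (hdeg : ∀ a b, deg a ≠ deg b → Q a b = 0) {C : J → M2} (hC : ∀ j, IsCM QQ QB (P j) (C j))
    (τ : κ₁ → J) {T T' : (κ₀ → B) → (κ₁ → Fin 2) → ℂ} {μ : ℂ}
    (htF : ∀ a b, T a b ∈ QQ) (htK : ∀ a b, T' a b ∈ QB)
    (ht : ∀ a b, T a b = μ * ∑ J₀, ∑ J₁, ((∏ k, Q (J₀ k) (a k)) * ∏ k, P (τ k) (J₁ k) (b k)) *
      T' J₀ J₁)
    (hI1 : ∀ i, C i = 0 → Indep1 (P i))
    (hI2 : ∀ i j, C i = 0 → C j = 0 → i ≠ j → Indep2 (P i) (P j))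
    {ω : J → AA} (hω : ∀ j, C j ≠ 0 → (ω j : ℂ) ^ 2 = -(C j).det)
    (hω1 : ∀ j, C j ≠ 0 → ∀ q : ℚ, ω j ≠ algebraMap ℚ AA q)
    (hω2 : ∀ i j, C i ≠ 0 → C j ≠ 0 → i ≠ j → ∀ q : ℚ, ω i * ω j ≠ algebraMap ℚ AA q)
    (hE0 : ∀ i, C i = 0 → ¬ Exc QQ QB Q deg (P i))
    (hE1 : ∀ i, C i ≠ 0 → ¬ ExcC QB Q deg (P i) (C i) (ω i)) :
    ∃ (m N : ℕ) (z z' : Fin N → (κ₀ → B) → ℂ) (e : Fin N → (Fin m × Fin 2 ≃ κ₁))
      (h : Fin N → Fin m → Fin 2), (∀ n a, z n a ∈ QQ) ∧ (∀ n a, z' n a ∈ QB) ∧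
      (∀ n, z n = (μ * lam ^ m) • pull Q (z' n)) ∧
      (∀ n s, τ (e n (s, 0)) = τ (e n (s, 1))) ∧
      ∀ a b, T a b = ∑ n, z n a * mw τ C (e n) (h n) b := by
  classical
  have hP0 : ∀ j, (P j).det ≠ 0 := fun j => by
    rw [hP]
    exact hlam
  have hdet : ∀ i j, (P i).det = (P j).det := fun i j => by rw [hP, hP]
  have ht' : ext τ T = μ • pull (Ph (P, Q)) (ext τ T') := by
    rw [pull_ext]
    funext I
    rw [Pi.smul_apply, smul_eq_mul]
    unfold ext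
    simp only [Finset.mul_sum, mul_ite, mul_zero]
    refine Finset.sum_congr rfl fun a _ => Finset.sum_congr rfl fun b _ => ?_
    rw [ht a b]
    simp only [Finset.mul_sum]
  by_cases hμ : μ = 0
  · refine ⟨0, 0, Fin.elim0, Fin.elim0, fun n => n.elim0, fun n => n.elim0, fun n => n.elim0,
      fun n => n.elim0, fun n => n.elim0, fun n => n.elim0, fun a b => ?_⟩
    rw [ht a b, hμ, zero_mul, Finset.univ_eq_empty, Finset.sum_empty]
  -- the diagonalizing matrices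
  have hR : ∀ i, ∃ (R : M2) (w : ℂ), R.det ≠ 0 ∧ (C i ≠ 0 → w ≠ 0) ∧ (C i = 0 → R = 1) ∧
      (C i ≠ 0 → C i * R = R * diagonal ![w, -w]) := by
    intro i
    by_cases hi : C i = 0
    · exact ⟨1, 0, by rw [det_one]; exact one_ne_zero, fun h => absurd hi h, fun _ => rfl,
        fun h => absurd hi h⟩
    · obtain ⟨R, hR0, hR⟩ := exists_diag (hC i).betti (hC i).tr (hω i hi) (hω1 i hi)
      refine ⟨R, ω i, hR0, fun _ h0 => ?_, fun h => absurd h hi, fun _ => hR⟩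
      refine hω1 i hi 0 (Subtype.ext ?_)
      rw [h0]
      change (0 : ℂ) = ((0 : ℚ) : ℂ)
      norm_num
  choose R w hR0 hw hR1 hRC using hR
  have hspan : ∀ a, T a ∈ Submodule.span ℂ (WW τ C) := by
    intro a
    refine fft τ hR0 hw hR1 hRC (fun j hj s hs => ?_) (fun j hj => ?_)
    · exact killT hP0 hQ0 hdeg hC (fun x hx => mem_QB.1 hx) τ htF htK ht' hdet hI1 hI2 hj (hE0 j hj) hs a
    · exact killC hP0 hQ0 hdeg hC (fun x hx => mem_QB.1 hx) τ htF htK ht' hdet hI1 hI2 hω hω1 hω2 hE0 hj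
        (hE1 j hj) a
  obtain ⟨m, hm⟩ : ∃ m, m = Fintype.card κ₁ / 2 := ⟨_, rfl⟩
  have hWm : ∀ v ∈ WW τ C, ∃ (e : Fin m × Fin 2 ≃ κ₁) (h : Fin m → Fin 2),
      (∀ s, τ (e (s, 0)) = τ (e (s, 1))) ∧ v = mw τ C e h := by
    rintro v ⟨m', e, h, he, hv⟩
    obtain rfl : m' = m := by
      have h1 := Fintype.card_congr e
      rw [Fintype.card_prod, Fintype.card_fin, Fintype.card_fin] at h1
      omega
    exact ⟨e, h, he, hv⟩
  obtain ⟨N, v, z, z', hv, hz, hz', hzz, hdec⟩ := decomp (F := QQ) (K := QB) (ν := lam ^ m) hQ0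
    (R := fun k => P (τ k)) (fun k => hP0 _) hμ (pow_ne_zero _ hlam) htF htK ht hspan
    (fun v hv I => by
      obtain ⟨e, h, he, rfl⟩ := hWm v hv
      exact mw_mem (fun j => (hC j).betti) τ e h I)
    (fun v hv => by
      obtain ⟨e, h, he, rfl⟩ := hWm v hv
      exact ⟨mw τ (fun j => P j * C j * (P j)⁻¹) e h, fun I => mw_mem (fun j => (hC j).dr) τ e h I,
        mw_dr hP hlam τ e he h⟩)
  choose e h he hv using fun n => hWm (v n) (hv n)
  refine ⟨m, N, z, z', e, h, hz, hz', hzz, he, fun a b => ?_⟩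
  rw [hdec a b]
  exact Finset.sum_congr rfl fun n _ => by rw [hv n]

end

/-- A set all of whose finite subsets are small is finite. -/
theorem exists_finset {ι : Type*} {X : Set ι} {N : ℕ} (h : ∀ T : Finset ι, ↑T ⊆ X → T.card ≤ N) :
    ∃ S : Finset ι, (S : Set ι) = X ∧ S.card ≤ N := by
  have hfin : X.Finite := by
    by_contra hinf
    obtain ⟨t, ht, htc⟩ := Set.Infinite.exists_subset_card_eq hinf (N + 1)
    have := h t ht
    omega
  exact ⟨hfin.toFinset, hfin.coe_toFinset, h _ (by rw [hfin.coe_toFinset])⟩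

/-- Square roots of rational numbers. -/
theorem exists_omega {C : M2} (hC : ∀ a b, C a b ∈ QQ) : ∃ ω : AA, (ω : ℂ) ^ 2 = -C.det := by
  obtain ⟨z, hz⟩ : ∃ z : ℂ, z ^ 2 = -C.det := IsAlgClosed.exists_pow_nat_eq _ (by norm_num)
  have h1 : IsAlgebraic ℚ (-C.det) := by
    rw [det_fin_two]
    exact QQ_alg _ (QQ.neg_mem (QQ.sub_mem (QQ.mul_mem (hC _ _) (hC _ _))
      (QQ.mul_mem (hC _ _) (hC _ _))))
  have h2 : IsAlgebraic ℚ z := by
    rw [← hz] at h1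
    exact h1.of_pow two_pos
  exact ⟨⟨z, mem_QB.2 h2⟩, hz⟩

end Pool.Agent.TH128.GZ
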