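import Mathlib
import Pool.Agent.TH128.GZ.Kill
import Pool.Agent.TH119.MX.Poly

/-!
# Algebraic groups which contain the periods of a variety and of rank two pieces
-/

set_option linter.unusedSectionVars false

namespace Pool.Agent.TH128.GZ

open Matrix Pool.Agent.TH119.DR

variable {F K : Subfield ℂ} {J B D : Type*} [Fintype B] [DecidableEq B] [Fintype J]
  [DecidableEq J] [DecidableEq D]

/-- The derivative of the determinant. -/
theorem tr_der (δ : Derivation ℚ ℂ ℂ) {P P' : M2} (h : P' * P = 1) :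
    (P.map δ * P').trace * P.det = δ P.det := by
  have h1 : P.det • P' = P.adjugate := by
    calc P.det • P' = P' * (P.det • (1 : M2)) := by rw [Matrix.mul_smul, Matrix.mul_one]
      _ = P' * (P * P.adjugate) := by rw [Matrix.mul_adjugate]
      _ = P.adjugate := by rw [← Matrix.mul_assoc, h, Matrix.one_mul]
  have h2 : (P.map δ * P').trace * P.det = (P.map δ * P.adjugate).trace := by
    rw [← h1, Matrix.mul_smul, Matrix.trace_smul, smul_eq_mul, mul_comm]
  rw [h2, Matrix.adjugate_fin_two, Matrix.det_fin_two, Matrix.trace_fin_two]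
  simp only [Matrix.mul_apply, Fin.sum_univ_two, Matrix.map_apply, Matrix.of_apply,
    Matrix.cons_val', Matrix.cons_val_zero, Matrix.cons_val_one, Matrix.cons_val_fin_one, map_sub,
    Derivation.leibniz, smul_eq_mul]
  ring

/-- The derivative of the inverse. -/
theorem der_inv (δ : Derivation ℚ ℂ ℂ) {α : Type*} [Fintype α] [DecidableEq α]
    (M : Matrix α α ℂ) (hM : IsUnit M.det) : (M⁻¹).map δ * M = -(M⁻¹ * M.map δ) := by
  have h3 : M⁻¹ * M = 1 := Matrix.nonsing_inv_mul _ hM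
  ext a b
  have h4 := congrArg (fun N : Matrix α α ℂ => δ (N a b)) h3
  simp only [Matrix.mul_apply, map_sum, Derivation.leibniz, smul_eq_mul] at h4
  have h5 : δ ((1 : Matrix α α ℂ) a b) = 0 := by
    rw [Matrix.one_apply]
    split_ifs
    · exact Derivation.map_one_eq_zero δ
    · exact map_zero δ
  rw [h5, Finset.sum_add_distrib] at h4
  rw [Matrix.neg_apply, Matrix.mul_apply, Matrix.mul_apply, eq_neg_iff_add_eq_zero, add_comm]
  rw [← h4]
  congr 1
  exact Finset.sum_congr rfl fun c _ => by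
    rw [Matrix.map_apply]
    ring

/-- The homotheties of the rank two pieces. -/
def ht (t : ℂ) : LA J B := (fun _ => t • (1 : M2), 0)

theorem ht_add (s t : ℂ) : (ht (s + t) : LA J B) = ht s + ht t := by
  refine Prod.ext (funext fun j => ?_) (add_zero _).symm
  exact add_smul s t (1 : M2)

theorem ht_smul (a t : ℂ) : (ht (a * t) : LA J B) = a • ht t := by
  refine Prod.ext (funext fun j => ?_) (smul_zero _).symm
  exact mul_smul a t (1 : M2)

theorem ht_zero : (ht 0 : LA J B) = 0 := by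
  refine Prod.ext (funext fun j => ?_) rfl
  exact zero_smul ℂ (1 : M2)

theorem br_ht (x y : LA J B) (s t : ℂ) : br (x + ht s) (y + ht t) = br x y := by
  refine Prod.ext (funext fun j => ?_) ?_
  · change (x.1 j + s • (1 : M2)) * (y.1 j + t • (1 : M2)) -
      (y.1 j + t • (1 : M2)) * (x.1 j + s • (1 : M2)) = x.1 j * y.1 j - y.1 j * x.1 j
    simp only [Matrix.add_mul, Matrix.mul_add, Matrix.smul_mul, Matrix.mul_smul, Matrix.one_mul,
      Matrix.mul_one, smul_add, smul_smul, mul_comm t s]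
    abel
  · change (x.2 + 0) * (y.2 + 0) - (y.2 + 0) * (x.2 + 0) = x.2 * y.2 - y.2 * x.2
    rw [add_zero, add_zero]

theorem mp_add (f : ℂ →ₗ[K] ℂ) (x y : LA J B) : mp f (x + y) = mp f x + mp f y := by
  refine Prod.ext (funext fun j => ?_) ?_
  · ext a b
    exact map_add f _ _
  · ext a b
    exact map_add f _ _

theorem mp_ht (f : ℂ →ₗ[K] ℂ) (t : ℂ) : mp f (ht t : LA J B) = ht (f t) := by
  refine Prod.ext (funext fun j => ?_) ?_
  · ext a b
    change f ((t • (1 : M2)) a b) = (f t • (1 : M2)) a b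
    rw [Matrix.smul_apply, Matrix.smul_apply, Matrix.one_apply]
    split_ifs
    · rw [smul_eq_mul, smul_eq_mul, mul_one, mul_one]
    · rw [smul_eq_mul, smul_eq_mul, mul_zero, mul_zero, map_zero]
  · ext a b
    exact map_zero f

/-- The Lie algebra of the group, up to homotheties of the rank two pieces. -/
def SdL (H : Set (Matrix (RR J B) (RR J B) ℂ)) (deg : B → D) (d : ℕ) :
    Submodule ℂ (LA J B) where
  carrier := {x | (∀ j, (x.1 j).trace = 0) ∧ (∀ a b, deg a ≠ deg b → x.2 a b = 0) ∧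
    ∃ t : ℂ, Pool.Agent.TH119.MX.Stab H d (Ph (x + ht t))}
  zero_mem' := by
    refine ⟨fun j => Matrix.trace_zero _ _, fun _ _ _ => rfl, 0, ?_⟩
    have h1 : Ph ((0 : LA J B) + ht 0) = 0 := by
      rw [ht_zero, add_zero]
      have h2 := Ph_smul (0 : ℂ) (0 : LA J B)
      rwa [zero_smul, zero_smul] at h2
    rw [h1]
    exact Pool.Agent.TH119.MX.Stab.zero
  add_mem' := by
    rintro x y ⟨h1, h2, s, h3⟩ ⟨h4, h5, t, h6⟩
    refine ⟨fun j => ?_, fun a b hab => ?_, s + t, ?_⟩
    · change (x.1 j + y.1 j).trace = 0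
      rw [Matrix.trace_add, h1, h4, add_zero]
    · change x.2 a b + y.2 a b = 0
      rw [h2 a b hab, h5 a b hab, add_zero]
    · have h7 : Ph (x + y + ht (s + t)) = Ph (x + ht s) + Ph (y + ht t) := by
        rw [← Ph_add, ht_add]
        congr 1
        abel
      rw [h7]
      exact h3.add h6
  smul_mem' := by
    rintro a x ⟨h1, h2, s, h3⟩
    refine ⟨fun j => ?_, fun i j hij => ?_, a * s, ?_⟩
    · change (a • x.1 j).trace = 0
      rw [Matrix.trace_smul, h1, smul_zero]
    · change a * x.2 i j = 0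
      rw [h2 i j hij, mul_zero]
    · have h7 : Ph (a • x + ht (a * s)) = a • Ph (x + ht s) := by
        rw [← Ph_smul, ht_smul, smul_add]
      rw [h7]
      exact h3.smul a

theorem mem_SdL {H : Set (Matrix (RR J B) (RR J B) ℂ)} {deg : B → D} {d : ℕ} {x : LA J B} :
    x ∈ SdL H deg d ↔ (∀ j, (x.1 j).trace = 0) ∧ (∀ a b, deg a ≠ deg b → x.2 a b = 0) ∧
      ∃ t : ℂ, Pool.Agent.TH119.MX.Stab H d (Ph (x + ht t)) := Iff.rfl

section

variable {P : J → M2} {Q : Matrix B B ℂ} (hP0 : ∀ j, (P j).det ≠ 0) (hQ0 : Q.det ≠ 0)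
  {deg : B → D} (hdeg : ∀ a b, deg a ≠ deg b → Q a b = 0)
  (hK : ∀ x ∈ K, IsAlgebraic ℚ x) (hFK : F ≤ K)
  {H : Set (Matrix (RR J B) (RR J B) ℂ)} (hH : Pool.Agent.TH119.MX.AlgGrp F H)
  {A A' : Matrix (RR J B) (RR J B) ℂ} (hA : A * A' = 1) (hA' : ∀ i j, A' i j ∈ K)
  (hPA : Ph (iv P Q) * A ∈ H) (hdet : ∀ i j, (P i).det = (P j).det)

include hP0 hQ0 hdeg hK hFK hH hA hA' hPA hdet

theorem dL_mem_SdL (d : ℕ) (δ : Derivation ℚ ℂ ℂ) : dL δ P Q ∈ SdL H deg d := by
  have hbQ : Blk deg Q := hdeg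
  have hbQ' : Blk deg Q⁻¹ := blk_inv hbQ (Matrix.mul_nonsing_inv _ (isUnit_iff_ne_zero.2 hQ0))
    (Matrix.nonsing_inv_mul _ (isUnit_iff_ne_zero.2 hQ0))
  have htr : ∀ j, ((P j)⁻¹ * (P j).map δ).trace * (P j).det = δ (P j).det := by
    intro j
    have h1 := tr_der δ (P := P j) (P' := (P j)⁻¹)
      (Matrix.nonsing_inv_mul _ (isUnit_iff_ne_zero.2 (hP0 j)))
    rwa [Matrix.trace_mul_comm] at h1
  obtain ⟨t, ht'⟩ : ∃ t : ℂ, ∀ j, ((P j)⁻¹ * (P j).map δ).trace / 2 = t := by
    rcases isEmpty_or_nonempty J with hJ | ⟨⟨j₀⟩⟩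
    · exact ⟨0, fun j => isEmptyElim j⟩
    · refine ⟨((P j₀)⁻¹ * (P j₀).map δ).trace / 2, fun j => ?_⟩
      have h1 := htr j
      have h2 := htr j₀
      rw [hdet j j₀] at h1
      rw [← h2] at h1
      rw [mul_right_cancel₀ (hP0 j₀) h1]
  refine mem_SdL.2 ⟨fun j => tr_dM δ (P j), ?_, t, ?_⟩
  · have h1 : Blk deg (Q.map δ) := fun i j hij => by
      rw [Matrix.map_apply, hbQ i j hij, map_zero]
    exact blk_mul hbQ' h1
  · have h1 : dL δ P Q + ht t = ((fun j => (P j)⁻¹ * (P j).map δ, Q⁻¹ * Q.map δ) : LA J B) := by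
      refine Prod.ext (funext fun j => ?_) (add_zero _)
      change dM δ (P j) + t • (1 : M2) = _
      unfold dM
      rw [ht' j, sub_add_cancel]
    have h2 := hH.stab_der hFK hK (iv_E hP0 hQ0) (E_iv hP0 hQ0) hA hA' hPA (d := d) δ
    have h3 : (Ph (iv P Q)).map δ * Ph (P, Q) = (-1 : ℂ) • Ph (dL δ P Q + ht t) := by
      rw [← Ph_map _ (map_zero δ), ← Ph_mul, ← Ph_smul, h1]
      congr 1
      refine Prod.ext (funext fun j => ?_) ?_
      · change ((P j)⁻¹).map δ * P j = (-1 : ℂ) • ((P j)⁻¹ * (P j).map δ)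
        rw [der_inv δ (P j) (isUnit_iff_ne_zero.2 (hP0 j)), neg_one_smul]
      · change (Q⁻¹).map δ * Q = (-1 : ℂ) • (Q⁻¹ * Q.map δ)
        rw [der_inv δ Q (isUnit_iff_ne_zero.2 hQ0), neg_one_smul]
    rw [h3] at h2
    have h4 := h2.smul (-1)
    rwa [smul_smul, neg_mul_neg, one_mul, one_smul] at h4

theorem SdL_sub (d : ℕ) : SubL F K P Q deg (fun _ => 0) (SdL H deg d) := by
  refine ⟨fun x hx => hx.1, fun _ _ _ h => absurd rfl h, fun x hx => hx.2.1, ?_, ?_, ?_⟩
  · rintro x ⟨h1, h2, s, h3⟩ y ⟨h4, h5, t, h6⟩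
    refine mem_SdL.2 ⟨fun j => ?_, ?_, 0, ?_⟩
    · change (x.1 j * y.1 j - y.1 j * x.1 j).trace = 0
      rw [Matrix.trace_sub, Matrix.trace_mul_comm, sub_self]
    · have hx : Blk deg x.2 := h2
      have hy : Blk deg y.2 := h5
      intro a b hab
      change (x.2 * y.2 - y.2 * x.2) a b = 0
      rw [Matrix.sub_apply, blk_mul hx hy a b hab, blk_mul hy hx a b hab, sub_zero]
    · rw [ht_zero, add_zero, ← br_ht x y s t, Ph_br]
      exact h3.comm h6
  · rintro f x ⟨h1, h2, s, h3⟩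
    refine mem_SdL.2 ⟨fun j => ?_, fun a b hab => ?_, f s, ?_⟩
    · change ((x.1 j).map f).trace = 0
      rw [tr_map, h1, map_zero]
    · change f (x.2 a b) = 0
      rw [h2 a b hab, map_zero]
    · rw [← mp_ht f s, ← mp_add, Ph_map _ (map_zero f)]
      exact hH.stab_map f h3
  · rintro f y ⟨h1, h2, s, h3⟩
    have hbQ : Blk deg Q := hdeg
    have hbQ' : Blk deg Q⁻¹ := blk_inv hbQ (Matrix.mul_nonsing_inv _ (isUnit_iff_ne_zero.2 hQ0))
      (Matrix.nonsing_inv_mul _ (isUnit_iff_ne_zero.2 hQ0))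
    refine mem_SdL.2 ⟨fun j => ?_, ?_, f s, ?_⟩
    · have h4 := h1 j
      change (cj (P j) (y.1 j)).trace = 0 at h4
      rw [tr_cj (hP0 j)] at h4
      change (cj (P j) ((y.1 j).map f)).trace = 0
      rw [tr_cj (hP0 j), tr_map, h4, map_zero]
    · have h4 : Blk deg (Q⁻¹ * y.2 * Q) := h2
      have h5 : Blk deg y.2 := by
        have h6 := blk_mul (blk_mul hbQ h4) hbQ'
        have h7 : Q * (Q⁻¹ * y.2 * Q) * Q⁻¹ = y.2 := by
          have hu : IsUnit Q.det := isUnit_iff_ne_zero.2 hQ0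
          calc Q * (Q⁻¹ * y.2 * Q) * Q⁻¹ = (Q * Q⁻¹) * y.2 * (Q * Q⁻¹) := by
                simp only [Matrix.mul_assoc]
            _ = y.2 := by rw [Matrix.mul_nonsing_inv _ hu, Matrix.one_mul, Matrix.mul_one]
        rwa [h7] at h6
      have h6 : Blk deg (y.2.map f) := fun a b hab => by
        rw [Matrix.map_apply, h5 a b hab, map_zero]
      exact blk_mul (blk_mul hbQ' h6) hbQ
    · have hcomm : ∀ (z : LA J B) (r : ℂ), cjL P Q z + ht r = iv P Q * (z + ht r) * (P, Q) := by
        intro z r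
        have h4 : iv P Q * (ht r : LA J B) * (P, Q) = ht r := by
          refine Prod.ext (funext fun j => ?_) ?_
          · change (P j)⁻¹ * (r • (1 : M2)) * P j = r • (1 : M2)
            rw [Matrix.mul_smul, Matrix.smul_mul, Matrix.mul_one,
              Matrix.nonsing_inv_mul _ (isUnit_iff_ne_zero.2 (hP0 j))]
          · change Q⁻¹ * (0 : Matrix B B ℂ) * Q = 0
            rw [Matrix.mul_zero, Matrix.zero_mul]
        rw [mul_add, add_mul, h4, cjL_eq hP0 hQ0]
      have h4 := hH.stab_map' hFK (iv_E hP0 hQ0) (E_iv hP0 hQ0) hA hA' hPA f h3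
      have h5 : Ph (P, Q) * Ph (cjL P Q y + ht s) * Ph (iv P Q) = Ph (y + ht s) := by
        rw [hcomm, ← Ph_mul, ← Ph_mul]
        congr 1
        calc ((P, Q) : LA J B) * (iv P Q * (y + ht s) * (P, Q)) * iv P Q =
            ((P, Q) : LA J B) * iv P Q * (y + ht s) * (((P, Q) : LA J B) * iv P Q) := by
              simp only [mul_assoc]
          _ = y + ht s := by rw [mul_iv hP0 hQ0, one_mul, mul_one]
      rw [h5, ← Ph_map _ (map_zero f), mp_add, mp_ht] at h4
      rwa [← Ph_mul, ← Ph_mul, ← hcomm] at h4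

/-- The Lie algebra of the group contains the pieces which are not exceptional. -/
theorem stab_sg (hI1 : ∀ i, Indep1 (P i)) (hI2 : ∀ i j, i ≠ j → Indep2 (P i) (P j)) {j : J}
    (hE : ¬ Exc F K Q deg (P j)) {s : M2} (hs : s.trace = 0) (d : ℕ) :
    Pool.Agent.TH119.MX.Stab H d (Ph (sg j s : LA J B)) := by
  have hS := SdL_sub hP0 hQ0 hdeg hK hFK hH hA hA' hPA hdet d
  have hmem : ∀ {a : M2}, a.trace = 0 → sg j a ∈ SdL H deg d := fun {a} ha =>
    single_mem hP0 hQ0 (fun x hx => hK x (hFK hx)) hK hS hdet (fun i _ => hI1 i)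
      (fun i j _ _ hij => hI2 i j hij)
      (dL_mem_SdL hP0 hQ0 hdeg hK hFK hH hA hA' hPA hdet d) rfl hE ha
  have hbr : ∀ {a b : M2}, a.trace = 0 → b.trace = 0 →
      Pool.Agent.TH119.MX.Stab H d (Ph (sg j (br a b) : LA J B)) := by
    intro a b ha hb
    obtain ⟨_, _, r, hr⟩ := hmem ha
    obtain ⟨_, _, t, ht⟩ := hmem hb
    rw [sg_br, ← br_ht _ _ r t, Ph_br]
    exact hr.comm ht
  obtain ⟨a, b, c, e, ha, hb, hc, he, rfl⟩ := sum_br hs
  rw [map_add, Ph_add]
  exact (hbr ha hb).add (hbr hc he)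

end

section

variable {H : Set (Matrix (RR J B) (RR J B) ℂ)}

/-- A matrix in a single component. -/
def ms (j : J) (m : M2) : LA J B := (Pi.mulSingle j m, 1)

theorem ms_mul (j : J) (m n : M2) : (ms j m * ms j n : LA J B) = ms j (m * n) := by
  refine Prod.ext ?_ (one_mul (1 : Matrix B B ℂ))
  exact (Pi.mulSingle_mul (f := fun _ : J => M2) j m n).symm

theorem one_add_sg (j : J) (N : M2) : (1 : LA J B) + sg j N = ms j (1 + N) := by
  refine Prod.ext (funext fun i => ?_) (add_zero _)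
  change (1 : M2) + (Pi.single j N : J → M2) i = (Pi.mulSingle j (1 + N) : J → M2) i
  by_cases hij : i = j
  · subst hij
    rw [Pi.single_eq_same, Pi.mulSingle_eq_same]
  · rw [Pi.single_eq_of_ne hij, Pi.mulSingle_eq_of_ne hij, add_zero]

variable {j : J} (hst : ∀ s : M2, s.trace = 0 → ∀ d, Pool.Agent.TH119.MX.Stab H d
  (Ph (sg j s : LA J B)))

include hst

theorem pres_elem {N : M2} (hN : N * N = 0) (htr : N.trace = 0) :
    Pool.Agent.TH119.MX.Pres H (Ph (ms j (1 + N) : LA J B)) := by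
  have h1 : Ph (sg j N : LA J B) * Ph (sg j N) = (0 : ℂ) • Ph (sg j N : LA J B) := by
    rw [zero_smul, ← Ph_mul]
    have h2 : (sg j N * sg j N : LA J B) = 0 := by
      refine Prod.ext (funext fun i => ?_) (zero_mul (0 : Matrix B B ℂ))
      change (Pi.single j N : J → M2) i * (Pi.single j N : J → M2) i = 0
      by_cases hij : i = j
      · subst hij
        rw [Pi.single_eq_same, hN]
      · rw [Pi.single_eq_of_ne hij, mul_zero]
    rw [h2]
    have h3 := Ph_smul (0 : ℂ) (0 : LA J B)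
    rwa [zero_smul, zero_smul] at h3
  have h2 := Pool.Agent.TH119.MX.pres_of_stab h1 (hst N htr) 1
  rwa [one_smul, ← Ph_one, ← Ph_add, one_add_sg] at h2

theorem pres_mul {m n : M2} (hm : Pool.Agent.TH119.MX.Pres H (Ph (ms j m : LA J B)))
    (hn : Pool.Agent.TH119.MX.Pres H (Ph (ms j n : LA J B))) :
    Pool.Agent.TH119.MX.Pres H (Ph (ms j (m * n) : LA J B)) := by
  have h1 := hm.mul hn
  rwa [← Ph_mul, ms_mul] at h1

/-- The special linear group in one component. -/
theorem pres_sl {m : M2} (hm : m.det = 1) :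
    Pool.Agent.TH119.MX.Pres H (Ph (ms j m : LA J B)) := by
  have hu : ∀ s : ℂ, Pool.Agent.TH119.MX.Pres H (Ph (ms j (!![1, s; 0, 1] : M2) : LA J B)) := by
    intro s
    have h1 := pres_elem hst (N := !![0, s; 0, 0]) (by
      ext i j
      fin_cases i <;> fin_cases j <;> simp) (by simp [Matrix.trace_fin_two])
    have h2 : (1 : M2) + !![0, s; 0, 0] = !![1, s; 0, 1] := by
      ext i j
      fin_cases i <;> fin_cases j <;> simp
    rwa [h2] at h1
  have hl : ∀ s : ℂ, Pool.Agent.TH119.MX.Pres H (Ph (ms j (!![1, 0; s, 1] : M2) : LA J B)) := by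
    intro s
    have h1 := pres_elem hst (N := !![0, 0; s, 0]) (by
      ext i j
      fin_cases i <;> fin_cases j <;> simp) (by simp [Matrix.trace_fin_two])
    have h2 : (1 : M2) + !![0, 0; s, 0] = !![1, 0; s, 1] := by
      ext i j
      fin_cases i <;> fin_cases j <;> simp
    rwa [h2] at h1
  have key : ∀ m : M2, m.det = 1 → m 1 0 ≠ 0 →
      Pool.Agent.TH119.MX.Pres H (Ph (ms j m : LA J B)) := by
    intro m hm h0
    rw [Matrix.det_fin_two] at hm
    have h1 : m = !![1, (m 0 0 - 1) / m 1 0; 0, 1] * !![1, 0; m 1 0, 1] *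
        !![1, (m 1 1 - 1) / m 1 0; 0, 1] := by
      ext i j
      fin_cases i <;> fin_cases j
      · simp only [Fin.zero_eta, Matrix.mul_apply, Fin.sum_univ_two]
        simp
        field_simp
        ring
      · simp only [Fin.zero_eta, Fin.mk_one, Matrix.mul_apply, Fin.sum_univ_two]
        simp
        field_simp
        linear_combination (-1 : ℂ) * hm
      · simp only [Fin.zero_eta, Fin.mk_one, Matrix.mul_apply, Fin.sum_univ_two]
        simp
      · simp only [Fin.mk_one, Matrix.mul_apply, Fin.sum_univ_two]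
        simp
        field_simp
        ring
    rw [h1]
    exact pres_mul hst (pres_mul hst (hu _) (hl _)) (hu _)
  by_cases h0 : m 1 0 = 0
  · have h1 : m = m * !![1, 0; 1, 1] * !![1, 0; -1, 1] := by
      rw [Matrix.mul_assoc]
      have h2 : (!![1, 0; 1, 1] : M2) * !![1, 0; -1, 1] = 1 := by
        ext i j
        fin_cases i <;> fin_cases j <;> simp
      rw [h2, Matrix.mul_one]
    rw [h1]
    refine pres_mul hst (key _ ?_ ?_) (hl _)
    · rw [Matrix.det_mul, hm, Matrix.det_fin_two]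
      simp
    · rw [Matrix.det_fin_two, h0, mul_zero, sub_zero] at hm
      rw [Matrix.mul_apply, Fin.sum_univ_two]
      simp only [Matrix.of_apply, Matrix.cons_val', Matrix.cons_val_zero, Matrix.cons_val_one,
        Matrix.cons_val_fin_one, mul_one, h0, zero_add]
      intro h
      rw [h, mul_zero] at hm
      exact zero_ne_one hm
  · exact key m hm h0

end

/-- The product of the special linear groups. -/
theorem pres_sls {H : Set (Matrix (RR J B) (RR J B) ℂ)}
    (hst : ∀ j : J, ∀ s : M2, s.trace = 0 → ∀ d, Pool.Agent.TH119.MX.Stab H d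
      (Ph (sg j s : LA J B))) {g : J → M2} (hg : ∀ j, (g j).det = 1) :
    Pool.Agent.TH119.MX.Pres H (Ph ((g, 1) : LA J B)) := by
  have key : ∀ E : Finset J, Pool.Agent.TH119.MX.Pres H
      (Ph ((fun j => if j ∈ E then g j else 1, 1) : LA J B)) := by
    intro E
    induction E using Finset.induction_on with
    | empty =>
      intro d w hw
      have h1 : ((fun j => if j ∈ (∅ : Finset J) then g j else 1, 1) : LA J B) = 1 := by
        refine Prod.ext (funext fun j => ?_) rfl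
        change (if j ∈ (∅ : Finset J) then g j else 1) = 1
        rw [if_neg (Finset.notMem_empty j)]
      rw [h1, Ph_one]
      have h2 := Pool.Agent.TH119.MX.MM_eq (0 : Matrix (RR J B) (RR J B) ℂ) 0
      rw [zero_smul, zero_smul, add_zero, add_zero] at h2
      rw [h2, pull_one]
      exact hw
    | insert e E he ih =>
      have h1 := (pres_sl (hst e) (hg e)).mul ih
      rw [← Ph_mul] at h1
      refine (congrArg (fun x => Pool.Agent.TH119.MX.Pres H (Ph x)) ?_).mp h1
      refine Prod.ext (funext fun i => ?_) (one_mul (1 : Matrix B B ℂ))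
      change (Pi.mulSingle e (g e) : J → M2) i * (if i ∈ E then g i else 1) =
        if i ∈ insert e E then g i else 1
      by_cases h : i = e
      · subst h
        rw [Pi.mulSingle_eq_same, if_neg he, if_pos (Finset.mem_insert_self _ _), mul_one]
      · rw [Pi.mulSingle_eq_of_ne h, one_mul]
        simp [h]
  have h1 := key Finset.univ
  simpa using h1

/-- **The group contains the special linear groups of the pieces which are not exceptional.** -/
theorem grp_main {P : J → M2} {Q : Matrix B B ℂ} (hP0 : ∀ j, (P j).det ≠ 0) (hQ0 : Q.det ≠ 0)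
    {deg : B → D} (hdeg : ∀ a b, deg a ≠ deg b → Q a b = 0)
    (hK : ∀ x ∈ K, IsAlgebraic ℚ x) (hFK : F ≤ K)
    {H : Set (Matrix (RR J B) (RR J B) ℂ)} (hH : Pool.Agent.TH119.MX.AlgGrp F H)
    {A A' : Matrix (RR J B) (RR J B) ℂ} (hA : A * A' = 1) (hA' : ∀ i j, A' i j ∈ K)
    (hPA : Ph (iv P Q) * A ∈ H) (hdet : ∀ i j, (P i).det = (P j).det)
    (hI1 : ∀ i, Indep1 (P i)) (hI2 : ∀ i j, i ≠ j → Indep2 (P i) (P j))
    (hE : ∀ j, ¬ Exc F K Q deg (P j)) {g : J → M2} (hg : ∀ j, (g j).det = 1) :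
    Ph ((g, 1) : LA J B) ∈ H := by
  have h1 := pres_sls (fun j s hs d => stab_sg hP0 hQ0 hdeg hK hFK hH hA hA' hPA hdet hI1 hI2
    (hE j) hs d) hg
  have hu : ∀ j, IsUnit (g j).det := fun j => by
    rw [hg]
    exact isUnit_one
  refine hH.mem_of_pres (g' := Ph ((fun j => (g j)⁻¹, 1) : LA J B)) h1 ?_ ?_
  · rw [← Ph_mul, ← Ph_one]
    congr 1
    exact Prod.ext (funext fun j => Matrix.mul_nonsing_inv _ (hu j)) (one_mul _)
  · rw [← Ph_mul, ← Ph_one]
    congr 1
    exact Prod.ext (funext fun j => Matrix.nonsing_inv_mul _ (hu j)) (one_mul _)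

end Pool.Agent.TH128.GZ
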