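import Mathlib
import Pool.Agent.TH128.GZ.Grp
import Pool.Agent.TH128.GZ.Final

/-!
# Algebraic subgroups of the general linear group which contain the periods
-/

set_option linter.unusedSectionVars false

namespace Pool.Agent.TH128.GZ

open Matrix Pool.Agent.TH119.DR

/-- The inverse of a matrix with entries in a subfield. -/
theorem inv_entries {B : Type*} [Fintype B] [DecidableEq B] {K : Subfield ℂ}
    {A : Matrix B B ℂ} (hA : ∀ i j, A i j ∈ K) (i j : B) : A⁻¹ i j ∈ K := by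
  obtain ⟨A₀, hA₀⟩ : ∃ A₀ : Matrix B B K, A = A₀.map K.subtype :=
    ⟨Matrix.of fun i j => ⟨A i j, hA i j⟩, by
      ext i j
      rfl⟩
  have h2 : A.adjugate = A₀.adjugate.map K.subtype := by
    rw [hA₀]
    exact (K.subtype.map_adjugate A₀).symm
  have h3 : A.det = K.subtype A₀.det := by
    rw [hA₀]
    exact (K.subtype.map_det A₀).symm
  rw [Matrix.inv_def, Matrix.smul_apply, h2, h3, smul_eq_mul, Ring.inverse_eq_inv']
  exact K.mul_mem (K.inv_mem (Subtype.mem _)) (Subtype.mem _)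

section

variable {N : Type*} [Fintype N] [DecidableEq N]

/-- The set of matrices of a subgroup. -/
def carr (H : Subgroup (GL N ℂ)) : Set (Matrix N N ℂ) := {M | ∃ g ∈ H, (g : Matrix N N ℂ) = M}

theorem algGrp_carr {F : Subfield ℂ} {H : Subgroup (GL N ℂ)}
    (hH : ∃ I : Set (MvPolynomial (N × N) ℂ), (∀ p ∈ I, ∀ m, p.coeff m ∈ F) ∧
      ∀ g : GL N ℂ, g ∈ H ↔
        ∀ p ∈ I, MvPolynomial.eval (fun b => (g : Matrix N N ℂ) b.1 b.2) p = 0) :
    Pool.Agent.TH119.MX.AlgGrp F (carr H) where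
  one := ⟨1, one_mem _, Units.val_one⟩
  mul := by
    rintro _ ⟨g, hg, rfl⟩ _ ⟨h, hh, rfl⟩
    exact ⟨g * h, mul_mem hg hh, Units.val_mul _ _⟩
  inv := by
    rintro _ ⟨g, hg, rfl⟩
    refine ⟨((g⁻¹ : GL N ℂ) : Matrix N N ℂ), ⟨g⁻¹, inv_mem hg, rfl⟩, ?_, ?_⟩
    · rw [← Units.val_mul, mul_inv_cancel, Units.val_one]
    · rw [← Units.val_mul, inv_mul_cancel, Units.val_one]
  alg := by
    obtain ⟨I, hI, hI2⟩ := hH
    refine ⟨I, hI, fun M => ⟨?_, ?_⟩⟩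
    · rintro ⟨g, hg, rfl⟩
      refine ⟨⟨((g⁻¹ : GL N ℂ) : Matrix N N ℂ), ?_, ?_⟩, (hI2 g).1 hg⟩
      · rw [← Units.val_mul, mul_inv_cancel, Units.val_one]
      · rw [← Units.val_mul, inv_mul_cancel, Units.val_one]
    · rintro ⟨⟨M', h1, h2⟩, h3⟩
      exact ⟨⟨M, M', h1, h2⟩, (hI2 _).2 h3, rfl⟩

end

variable {J B D : Type*} [Fintype B] [DecidableEq B] [Fintype J] [DecidableEq J] [DecidableEq D]

/-- **The group contains the special linear groups of the pieces which are not exceptional.** -/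
theorem grp_main2 {P : J → M2} {Q : Matrix B B ℂ} (hP0 : ∀ j, (P j).det ≠ 0) (hQ0 : Q.det ≠ 0)
    {deg : B → D} (hdeg : ∀ a b, deg a ≠ deg b → Q a b = 0)
    {H : Subgroup (GL (RR J B) ℂ)}
    (hH : ∃ I : Set (MvPolynomial (RR J B × RR J B) ℂ), (∀ p ∈ I, ∀ m, IsAlgebraic ℚ (p.coeff m)) ∧
      ∀ g : GL (RR J B) ℂ, g ∈ H ↔
        ∀ p ∈ I, MvPolynomial.eval (fun b => (g : Matrix (RR J B) (RR J B) ℂ) b.1 b.2) p = 0)
    {A : Matrix (RR J B) (RR J B) ℂ} (hA : ∀ i j, IsAlgebraic ℚ (A i j)) {h : GL (RR J B) ℂ}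
    (hh : h ∈ H) (hhA : (h : Matrix (RR J B) (RR J B) ℂ) = A * Ph ((P, Q) : LA J B))
    (hdet : ∀ i j, (P i).det = (P j).det)
    (hI1 : ∀ i, Indep1 (P i)) (hI2 : ∀ i j, i ≠ j → Indep2 (P i) (P j))
    (hE : ∀ j, ¬ Exc QB QB Q deg (P j)) {g : J → M2} (hg : ∀ j, (g j).det = 1) :
    ∃ x ∈ H, (x : Matrix (RR J B) (RR J B) ℂ) = Ph ((g, 1) : LA J B) := by
  have hHal : Pool.Agent.TH119.MX.AlgGrp QB (carr H) := by
    refine algGrp_carr ?_
    obtain ⟨I, h4, h5⟩ := hH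
    exact ⟨I, fun p hp m => mem_QB.2 (h4 p hp m), h5⟩
  have hdA : A.det ≠ 0 := by
    intro h0
    have h4 := (Matrix.isUnit_iff_isUnit_det _).1 h.isUnit
    rw [hhA, det_mul, h0, zero_mul] at h4
    exact not_isUnit_zero h4
  have hu : IsUnit A.det := isUnit_iff_ne_zero.2 hdA
  refine grp_main (F := QB) (K := QB) (H := carr H) (A := A⁻¹) (A' := A) hP0 hQ0 hdeg
    (fun x hx => mem_QB.1 hx) le_rfl hHal (Matrix.nonsing_inv_mul _ hu)
    (fun i j => mem_QB.2 (hA i j)) ?_ hdet hI1 hI2 hE hg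
  refine ⟨h⁻¹, inv_mem hh, ?_⟩
  rw [Matrix.coe_units_inv, hhA]
  refine Matrix.inv_eq_right_inv ?_
  calc A * Ph (P, Q) * (Ph (iv P Q) * A⁻¹) = A * (Ph (P, Q) * Ph (iv P Q)) * A⁻¹ := by
        simp only [Matrix.mul_assoc]
    _ = 1 := by rw [E_iv hP0 hQ0, Matrix.mul_one, Matrix.mul_nonsing_inv _ hu]

end Pool.Agent.TH128.GZ
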